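import Pool.Agent.H59R3.M17.Twist3

set_option autoImplicit false

open Real Set Filter Topology MeasureTheory UpperHalfPlane

namespace Pool.Agent.H59R3.M17

/-- `v` is the central value of the `L`-series with coefficients `c`: the series converges
absolutely for `Re s > 3/2`, its sum has a meromorphic continuation to the half plane `Re s > 0`,
which is analytic at `1/2` with value `v`. -/
def IsCentralValue (c : ℕ → ℂ) (v : ℂ) : Prop :=
  ∃ F : ℂ → ℂ, (∀ s : ℂ, 3 / 2 < s.re → LSeriesHasSum c s (F s)) ∧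
    MeromorphicOn F {s : ℂ | 0 < s.re} ∧ AnalyticAt ℂ F (1 / 2) ∧ F (1 / 2) = v

lemma halfplane_preconnected (r : ℝ) : IsPreconnected {s : ℂ | r < s.re} :=
  (convex_halfSpace_re_gt r).isPreconnected

/-- the central value is unique -/
lemma IsCentralValue.unique {c : ℕ → ℂ} {v w : ℂ} (hv : IsCentralValue c v)
    (hw : IsCentralValue c w) : v = w := by
  obtain ⟨F, hF1, hF2, hF3, rfl⟩ := hv
  obtain ⟨G, hG1, hG2, hG3, rfl⟩ := hw
  have hD : MeromorphicOn (F - G) {s : ℂ | 0 < s.re} := hF2.sub hG2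
  have h2 : (2:ℂ) ∈ {s : ℂ | 0 < s.re} := by
    change 0 < (2:ℂ).re; norm_num
  have h12 : (1/2:ℂ) ∈ {s : ℂ | 0 < s.re} := by
    change 0 < (1/2:ℂ).re; norm_num
  have htop : meromorphicOrderAt (F - G) 2 = ⊤ := by
    rw [meromorphicOrderAt_eq_top_iff]
    have : {s : ℂ | 3/2 < s.re} ∈ 𝓝 (2:ℂ) :=
      (isOpen_lt continuous_const Complex.continuous_re).mem_nhds (by
        change 3/2 < (2:ℂ).re; norm_num)
    filter_upwards [nhdsWithin_le_nhds this] with s hs
    simp only [Pi.sub_apply]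
    rw [(hF1 s hs).unique (hG1 s hs), sub_self]
  have htop2 : meromorphicOrderAt (F - G) (1/2) = ⊤ := by
    by_contra hne
    have := (hD.exists_meromorphicOrderAt_ne_top_iff_forall
      ⟨⟨2, h2⟩, halfplane_preconnected 0⟩).mp ⟨⟨1/2, h12⟩, hne⟩ ⟨2, h2⟩
    exact this htop
  rw [meromorphicOrderAt_eq_top_iff] at htop2
  have hc : ContinuousAt (F - G) (1/2) := (hF3.sub hG3).continuousAt
  have h3 : Tendsto (F - G) (𝓝[≠] (1/2)) (𝓝 ((F - G) (1/2))) := hc.tendsto.mono_left nhdsWithin_le_nhds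
  have h4 : Tendsto (F - G) (𝓝[≠] (1/2)) (𝓝 0) := by
    refine tendsto_const_nhds.congr' ?_
    filter_upwards [htop2] with s hs
    exact hs.symm
  have h5 := tendsto_nhds_unique h3 h4
  simp only [Pi.sub_apply] at h5
  exact sub_eq_zero.mp h5

variable {f : ℍ → ℂ} {lam : ℝ} {a : ℕ → ℂ} {q : ℕ} [NeZero q]

lemma OddMaass.LSummable (h : OddMaass f lam a) (χ : DirichletCharacter ℂ q) {s : ℂ}
    (hs : 3 / 2 < s.re) : LSeriesSummable (fun n => a n * χ n) s := by
  obtain ⟨K, hK0, hK⟩ := h.cc_bound (q := q)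
  refine LSeriesSummable_of_le_const_mul_rpow hs ⟨K, fun n hn => ?_⟩
  have h1 := hK χ n
  have hn' : (0:ℝ) < n := by exact_mod_cast Nat.pos_of_ne_zero hn
  have hsn : 0 < Real.sqrt n := Real.sqrt_pos.mpr hn'
  rw [cc, co] at h1
  have h2 : a n * χ n = (a n / (Real.sqrt n : ℂ) * χ n) * (Real.sqrt n : ℂ) := by
    have : (Real.sqrt n : ℂ) ≠ 0 := by exact_mod_cast hsn.ne'
    field_simp
  rw [h2, norm_mul, Complex.norm_real, Real.norm_of_nonneg hsn.le]
  have h3 : (n:ℝ) ^ (3/2 - 1 : ℝ) = Real.sqrt n := by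
    rw [Real.sqrt_eq_rpow]; norm_num
  rw [h3]
  gcongr

/-- Mellin identity -/
lemma OddMaass.mellin_eq (h : OddMaass f lam a) (χ : DirichletCharacter ℂ q) (ε : ℕ) (hε : ε ≤ 1)
    {s : ℂ} (hs : 3 / 2 < s.re) :
    mellin (ser (cc a χ) (V f ε)) (s - 1/2) =
      LSeries (fun n => a n * χ n) s * mellin (A f 1) (s - 1/2 + ε) := by
  obtain ⟨K, hK0, hK⟩ := h.cc_bound (q := q)
  obtain ⟨C, hC0, hC⟩ := h.V_bound ε hε
  have hw : 1 < (s - 1/2).re := by
    simp only [Complex.sub_re, Complex.div_ofNat_re, Complex.one_re]; linarith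
  have h1 := ser_mellin (hK χ) (cc_zero a χ) hK0 hC0 hC (h.V_cont ε) hw
  have h2 : (fun n : ℕ => cc a χ n * (n : ℂ) ^ (-(s - 1/2)) * mellin (V f ε) (s - 1/2)) =
      fun n : ℕ => LSeries.term (fun n => a n * χ n) s n * mellin (A f 1) (s - 1/2 + ε) := by
    funext n
    rw [mellin_V]
    congr 1
    rcases Nat.eq_zero_or_pos n with h0 | h0
    · subst h0
      rw [cc_zero, LSeries.term_zero, zero_mul]
    · rw [LSeries.term_of_ne_zero h0.ne', cc, co]
      have hn' : (0:ℝ) < n := by exact_mod_cast h0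
      have hnc : (n : ℂ) ≠ 0 := by exact_mod_cast hn'.ne'
      have hsq : ((Real.sqrt n : ℝ) : ℂ) = (n : ℂ) ^ (1/2 : ℂ) := by
        rw [Real.sqrt_eq_rpow, Complex.ofReal_cpow hn'.le]
        push_cast
        rfl
      rw [hsq]
      have h3 : (n : ℂ) ^ (-(s - 1/2)) = (n : ℂ) ^ (1/2 : ℂ) / (n : ℂ) ^ s := by
        rw [← Complex.cpow_sub _ _ hnc]; congr 1; ring
      rw [h3]
      have h4 : (n : ℂ) ^ (1/2 : ℂ) ≠ 0 := by
        rw [Complex.cpow_ne_zero_iff]
        exact Or.inl hnc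
      field_simp
  rw [h2] at h1
  have h3 := (h.LSummable χ hs).hasSum.mul_right (mellin (A f 1) (s - 1/2 + ε))
  exact h1.unique h3

/-- the main vanishing theorem -/
theorem OddMaass.central (h : OddMaass f lam a) {χ : DirichletCharacter ℂ q}
    (hχ : χ.IsPrimitive) (hχ2 : χ ^ 2 = 1) :
    IsCentralValue (fun n => a n * χ n) 0 := by
  have hq0 : 0 < q := Nat.pos_of_ne_zero (NeZero.ne q)
  have hqr : (0:ℝ) < q := by exact_mod_cast hq0
  obtain ⟨K, hK0, hK⟩ := h.cc_bound (q := q)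
  obtain ⟨W1, hS⟩ := h.solC
  -- parity
  have hpar : ∃ ε : ℕ, ε ≤ 1 ∧ ∀ y, 0 < y →
      ser (cc a χ) (V f ε) y = - ser (cc a χ) (V f ε) (1 / ((q:ℝ) ^ 2 * y)) := by
    rcases χ.even_or_odd with he | ho
    · exact ⟨1, le_rfl, fun y hy => h.fe_even hχ hχ2 he hy⟩
    · exact ⟨0, by norm_num, fun y hy => h.fe_odd hχ hχ2 ho hy⟩
  obtain ⟨ε, hε, hfe⟩ := hpar
  obtain ⟨C, hC0, hC⟩ := h.V_bound ε hε
  set g := ser (cc a χ) (V f ε) with hg
  obtain ⟨hgd, hg0⟩ := mellin_of_fe (g := g) (N := (q:ℝ)^2) (by positivity)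
    (ser_continuousOn (hK χ) (cc_zero a χ) hK0 hC0 hC (h.V_cont ε))
    (B := K * C / (1 - exp (-(1 / 16))))
    (fun y hy => ser_norm_le (hK χ) (cc_zero a χ) hK0 hC0 hC hy) hfe
  set M := mellin (A f 1) with hM
  have hMan : AnalyticOnNhd ℂ M {s : ℂ | 0 < s.re} := by
    have hopen : IsOpen {s : ℂ | 0 < s.re} := isOpen_lt continuous_const Complex.continuous_re
    apply DifferentiableOn.analyticOnNhd _ hopen
    intro s hs
    exact (hS.mellinDiff hs).differentiableWithinAt
  have hMne : ∀ z : ℂ, 0 < z.re → ∀ᶠ s in 𝓝[≠] z, M s ≠ 0 := by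
    intro z hz
    by_contra hc
    have h1 : ∃ᶠ s in 𝓝[≠] z, M s = 0 := by
      intro hcon
      exact hc hcon
    have h2 := hMan.eqOn_zero_of_preconnected_of_frequently_eq_zero (halfplane_preconnected 0) hz h1
    have h3 : M ((1:ℕ):ℂ) = 0 := h2 (by change 0 < (((1:ℕ):ℂ)).re; simp)
    exact hS.mellin_ne_zero h.W_ne 1 le_rfl h3
  -- meromorphic formula
  set w : ℂ → ℂ := fun s => s - 1/2 + ε with hw
  set H : ℂ → ℂ := fun s => mellin g (s - 1/2) * (w s * (w s + 1) + lam) / (4 * (π:ℂ) ^ 2 * M (w s + 2)) with hH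
  have hwre : ∀ s : ℂ, (w s + 2).re = s.re + 3/2 + ε := by
    intro s
    simp only [hw, Complex.add_re, Complex.sub_re, Complex.div_ofNat_re, Complex.one_re,
      Complex.natCast_re, Complex.re_ofNat]
    ring
  have hgan : ∀ s : ℂ, AnalyticAt ℂ (mellin g) s := by
    intro s
    have : Differentiable ℂ (mellin g) := hgd
    exact this.analyticAt s
  have hnum : ∀ s : ℂ, AnalyticAt ℂ (fun s => mellin g (s - 1/2) * (w s * (w s + 1) + lam)) s := by
    intro s
    have h1 : AnalyticAt ℂ (fun s : ℂ => mellin g (s - 1/2)) s :=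
      AnalyticAt.comp' (hgan (s - 1/2)) (by fun_prop)
    have h2 : AnalyticAt ℂ (fun s => w s * (w s + 1) + lam) s := by
      simp only [hw]; fun_prop
    exact h1.mul h2
  have hden : ∀ s : ℂ, 0 < s.re → AnalyticAt ℂ (fun s => 4 * (π:ℂ) ^ 2 * M (w s + 2)) s := by
    intro s hs
    have h1 : AnalyticAt ℂ M (w s + 2) := hMan _ (by
      change 0 < (w s + 2).re
      rw [hwre]; positivity)
    have h2 : AnalyticAt ℂ (fun s : ℂ => M (w s + 2)) s :=
      AnalyticAt.comp' h1 (by simp only [hw]; fun_prop)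
    exact analyticAt_const.mul h2
  have hHmer : ∀ s : ℂ, 0 < s.re → MeromorphicAt H s := fun s hs =>
    (hnum s).meromorphicAt.div (hden s hs).meromorphicAt
  have hL : ∀ s : ℂ, 3/2 < s.re → M (w s + 2) ≠ 0 → H s = LSeries (fun n => a n * χ n) s := by
    intro s hs hne
    have h1 := h.mellin_eq χ ε hε hs
    have h2 := hS.recursion (w := w s) (by
      simp only [hw, Complex.add_re, Complex.sub_re, Complex.div_ofNat_re, Complex.one_re,
        Complex.natCast_re]
      have : (0:ℝ) ≤ ε := by positivity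
      linarith)
    simp only [hH]
    have hpi : (π:ℂ) ≠ 0 := by exact_mod_cast Real.pi_ne_zero
    rw [div_eq_iff (mul_ne_zero (mul_ne_zero (by norm_num) (pow_ne_zero _ hpi)) hne)]
    rw [h1, h2]
    simp only [hw, hM]
    ring
  classical
  set F : ℂ → ℂ := fun s => if 3/2 < s.re then LSeries (fun n => a n * χ n) s else H s with hF
  have hFH : ∀ s : ℂ, 0 < s.re → F =ᶠ[𝓝[≠] s] H := by
    intro s hs
    have h1 := hMne (w s + 2) (by rw [hwre]; positivity)
    have h2 : Tendsto (fun s : ℂ => w s + 2) (𝓝[≠] s) (𝓝[≠] (w s + 2)) := by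
      apply tendsto_nhdsWithin_of_tendsto_nhds_of_eventually_within
      · have : ContinuousAt (fun s : ℂ => w s + 2) s := by simp only [hw]; fun_prop
        exact this.tendsto.mono_left nhdsWithin_le_nhds
      · filter_upwards [self_mem_nhdsWithin] with t ht
        intro hcon
        apply ht
        simp only [hw, mem_singleton_iff] at hcon ⊢
        linear_combination hcon
    filter_upwards [h2.eventually h1] with t ht
    simp only [hF]
    split_ifs with hlt
    · exact (hL t hlt ht).symm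
    · rfl
  have hM12 : M (w (1/2) + 2) ≠ 0 := by
    have : w (1/2) + 2 = ((ε + 2 : ℕ) : ℂ) := by simp only [hw]; push_cast; ring
    rw [this]
    exact hS.mellin_ne_zero h.W_ne (ε + 2) (by omega)
  have hpi : (π:ℂ) ≠ 0 := by exact_mod_cast Real.pi_ne_zero
  refine ⟨F, ?_, ?_, ?_, ?_⟩
  · intro s hs
    simp only [hF, if_pos hs]
    exact (h.LSummable χ hs).LSeriesHasSum
  · intro s hs
    exact (hHmer s hs).congr (hFH s hs).symm
  · have h1 : AnalyticAt ℂ H (1/2) := by
      refine (hnum (1/2)).div (hden (1/2) (by norm_num)) ?_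
      exact mul_ne_zero (mul_ne_zero (by norm_num) (pow_ne_zero _ hpi)) hM12
    refine h1.congr ?_
    have : {s : ℂ | s.re < 3/2} ∈ 𝓝 (1/2:ℂ) :=
      (isOpen_lt Complex.continuous_re continuous_const).mem_nhds (by
        change (1/2:ℂ).re < 3/2; norm_num)
    filter_upwards [this] with s hs
    have hs : s.re < 3/2 := hs
    simp only [hF, if_neg (not_lt.mpr hs.le)]
  · have : ¬ (3/2 < ((1/2:ℂ)).re) := by norm_num
    simp only [hF, if_neg this, hH, sub_self, hg0, zero_mul, zero_div]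

end Pool.Agent.H59R3.M17
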