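import Pool.Agent.H59R3.M17.Cent

set_option autoImplicit false

open Set Filter Topology UpperHalfPlane

namespace Pool.Agent.H59R3.M17

/-- A primitive quadratic Dirichlet character. By class field theory these are exactly the
characters `η_E` of the quadratic extensions `E` of the rationals (one for each `E`), and
the conductor `q` is the absolute value of the discriminant of `E`. -/
structure QChar where
  /-- the conductor -/
  q : ℕ
  /-- the conductor is positive -/
  pos : 0 < q
  /-- the character -/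
  χ : DirichletCharacter ℂ q
  /-- primitive modulo `q` -/
  prim : χ.IsPrimitive
  /-- quadratic -/
  sq : χ ^ 2 = 1
  /-- nontrivial -/
  ne : χ ≠ 1

/-- number of quadratic extensions `E` with `|Δ_E| < x` -/
noncomputable def Ncount (x : ℝ) : ℕ := Set.ncard {c : QChar | (c.q : ℝ) < x}

/-- number of quadratic extensions `E` with `|Δ_E| < x` for which the `L`-function with
coefficients `a n * χ_E n` has a nonzero central value -/
noncomputable def Nnonvan (a : ℕ → ℂ) (x : ℝ) : ℕ :=
  Set.ncard {c : QChar | (c.q : ℝ) < x ∧ ∃ v : ℂ, v ≠ 0 ∧ IsCentralValue (fun n => a n * c.χ n) v}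

lemma QChar.finite (x : ℝ) : {c : QChar | (c.q : ℝ) < x}.Finite := by
  obtain ⟨N, hN⟩ := exists_nat_gt x
  let g : QChar → Σ q : ℕ, DirichletCharacter ℂ q := fun c => ⟨c.q, c.χ⟩
  have hg : Function.Injective g := by
    rintro ⟨q, h1, χ, h2, h3, h4⟩ ⟨q', h1', χ', h2', h3', h4'⟩ h
    simp only [g, Sigma.mk.injEq] at h
    obtain ⟨rfl, h5⟩ := h
    obtain rfl := eq_of_heq h5
    rfl
  let h : (Σ i : Fin N, DirichletCharacter ℂ (i.val + 1)) → Σ q : ℕ, DirichletCharacter ℂ q :=
    fun s => ⟨s.1.val + 1, s.2⟩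
  have : ∀ i : Fin N, Finite (DirichletCharacter ℂ (i.val + 1)) := fun i => inferInstance
  have hfin : (Set.range h).Finite := Set.finite_range h
  refine Set.Finite.of_finite_image (f := g) (hfin.subset ?_) hg.injOn
  rintro _ ⟨⟨q, h1, χ, h2, h3, h4⟩, hc, rfl⟩
  have hq : (q : ℝ) < x := hc
  obtain ⟨n, rfl⟩ : ∃ n, q = n + 1 := ⟨q - 1, by omega⟩
  have hn : n < N := by
    have : ((n + 1 : ℕ) : ℝ) < N := hq.trans hN
    have : n + 1 < N := by exact_mod_cast this
    omega
  exact ⟨⟨⟨n, hn⟩, χ⟩, rfl⟩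

/-- the quadratic character modulo an odd prime -/
lemma exists_prime_char {p : ℕ} (hp : p.Prime) (h2 : p ≠ 2) : ∃ c : QChar, c.q = p := by
  have : Fact p.Prime := ⟨hp⟩
  let χ : DirichletCharacter ℂ p := (quadraticChar (ZMod p)).ringHomComp (Int.castRingHom ℂ)
  have hchar : ringChar (ZMod p) ≠ 2 := by
    rw [ZMod.ringChar_zmod_n]; exact h2
  have hne0 : quadraticChar (ZMod p) ≠ 1 := quadraticChar_ne_one hchar
  have hinj : Function.Injective (Int.castRingHom ℂ) := by
    intro a b hab
    have hab' : (a : ℂ) = (b : ℂ) := hab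
    exact_mod_cast hab'
  have hne : χ ≠ 1 := (MulChar.ringHomComp_ne_one_iff hinj).mpr hne0
  have hsq : χ ^ 2 = 1 := by
    have h3 : (quadraticChar (ZMod p)).IsQuadratic := quadraticChar_isQuadratic (ZMod p)
    have h4 := (h3.comp (Int.castRingHom ℂ)).sq_eq_one
    exact h4
  have hprim : χ.IsPrimitive := by
    rw [DirichletCharacter.isPrimitive_def]
    have h5 := χ.conductor_dvd_level
    rcases (Nat.dvd_prime hp).mp h5 with h6 | h6
    · exact absurd (DirichletCharacter.eq_one_iff_conductor_eq_one.mpr h6) hne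
    · exact h6
  exact ⟨⟨p, hp.pos, χ, hprim, hsq, hne⟩, rfl⟩

lemma Ncount_tendsto : Tendsto Ncount atTop atTop := by
  rw [tendsto_atTop]
  intro n
  have hinf : {p : ℕ | p.Prime ∧ p ≠ 2}.Infinite := by
    have h1 := Nat.infinite_setOfPred_prime
    have h2 := h1.sdiff (Set.finite_singleton 2)
    exact h2
  obtain ⟨t, ht, htn⟩ := hinf.exists_subset_card_eq n
  have hex : ∀ p : t, ∃ c : QChar, c.q = p := fun p => exists_prime_char (ht p.2).1 (ht p.2).2
  choose C hC using hex
  have hCinj : Function.Injective C := by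
    intro p p' h
    apply Subtype.ext
    rw [← hC p, ← hC p', h]
  filter_upwards [eventually_gt_atTop ((t.sup id : ℕ) : ℝ)] with x hx
  have hsub : Set.range C ⊆ {c : QChar | (c.q : ℝ) < x} := by
    rintro _ ⟨p, rfl⟩
    have h1 : (p : ℕ) ≤ t.sup id := Finset.le_sup (f := id) p.2
    have h2 : ((p : ℕ) : ℝ) ≤ ((t.sup id : ℕ) : ℝ) := by exact_mod_cast h1
    change ((C p).q : ℝ) < x
    rw [hC p]
    linarith
  calc n = Nat.card t := by rw [Nat.card_eq_fintype_card, Fintype.card_coe, htn]
    _ = (Set.range C).ncard := by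
        rw [← Set.image_univ, Set.ncard_image_of_injective _ hCinj, Set.ncard_univ]
    _ ≤ Ncount x := Set.ncard_le_ncard hsub (QChar.finite x)

end Pool.Agent.H59R3.M17
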