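import Mathlib

set_option autoImplicit false

open UpperHalfPlane
open scoped MatrixGroups

namespace Pool.Agent.H59R3.M17

/-- The point `x + i y` of the upper half plane (for `y > 0`). -/
noncomputable def pt (x y : ℝ) : ℍ := UpperHalfPlane.ofComplex ((x : ℂ) + (y : ℂ) * Complex.I)

lemma pt_coe {x y : ℝ} (hy : 0 < y) : ((pt x y : ℍ) : ℂ) = (x : ℂ) + (y : ℂ) * Complex.I := by
  have h : 0 < ((x : ℂ) + (y : ℂ) * Complex.I).im := by simpa using hy
  rw [pt, ofComplex_apply_of_im_pos h]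

lemma pt_re {x y : ℝ} (hy : 0 < y) : (pt x y).re = x := by
  rw [← UpperHalfPlane.coe_re, pt_coe hy]; simp

lemma pt_im {x y : ℝ} (hy : 0 < y) : (pt x y).im = y := by
  rw [← UpperHalfPlane.coe_im, pt_coe hy]; simp

lemma pt_of (z : ℍ) : pt z.re z.im = z := by
  apply UpperHalfPlane.ext
  rw [pt_coe z.im_pos]
  apply Complex.ext <;> simp

lemma pt_ext {x y : ℝ} (hy : 0 < y) (z : ℍ) (h : (z : ℂ) = (x : ℂ) + (y : ℂ) * Complex.I) :
    z = pt x y := by
  apply UpperHalfPlane.ext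
  rw [pt_coe hy, h]

/-- `OddMaass f lam a`: the function `f` on the upper half plane is an odd Hecke–Maass cusp form
of level one with Laplace eigenvalue `lam` and Hecke eigenvalues `a`. -/
structure OddMaass (f : ℍ → ℂ) (lam : ℝ) (a : ℕ → ℂ) : Prop where
  /-- twice continuously differentiable in the real coordinates `x, y` -/
  smooth : ContDiffOn ℝ 2 (fun v : ℝ × ℝ => f (pt v.1 v.2)) {v | 0 < v.2}
  /-- eigenfunction of the hyperbolic Laplacian: `-y² (f_xx + f_yy) = lam f` -/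
  laplace : ∀ x y : ℝ, 0 < y →
    (y : ℂ) ^ 2 * (deriv (fun s => deriv (fun t => f (pt t y)) s) x
      + deriv (fun s => deriv (fun t => f (pt x t)) s) y) = -(lam : ℂ) * f (pt x y)
  /-- invariance under the full modular group -/
  modular : ∀ (γ : SL(2, ℤ)) (z : ℍ), f (γ • z) = f z
  /-- odd under the reflection `z ↦ - conj z` -/
  odd : ∀ x y : ℝ, 0 < y → f (pt (-x) y) = - f (pt x y)
  /-- bounded (cusp forms are bounded) -/
  bounded : ∃ C : ℝ, ∀ z, ‖f z‖ ≤ C
  /-- not identically zero -/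
  nonzero : ∃ z, f z ≠ 0
  /-- eigenfunction of every Hecke operator `T_p` -/
  hecke : ∀ p : ℕ, p.Prime → ∀ x y : ℝ, 0 < y →
    f (pt (p * x) (p * y)) + ∑ b ∈ Finset.range p, f (pt ((x + b) / p) (y / p))
      = (Real.sqrt p : ℂ) * a p * f (pt x y)
  /-- the Hecke eigenvalues at all positive integers, given by the Hecke relations -/
  a_one : a 1 = 1
  a_mul : ∀ p : ℕ, p.Prime → ∀ m : ℕ, 0 < m →
    a (p * m) = a p * a m - if p ∣ m then a (m / p) else 0

section basic
variable {f : ℍ → ℂ}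

lemma periodic_of_modular (hm : ∀ (γ : SL(2, ℤ)) (z : ℍ), f (γ • z) = f z) (x : ℝ) {y : ℝ}
    (hy : 0 < y) (n : ℤ) : f (pt (x + n) y) = f (pt x y) := by
  rw [← hm (ModularGroup.T ^ n) (pt x y)]
  congr 1
  symm
  apply pt_ext hy
  rw [modular_T_zpow_smul, UpperHalfPlane.coe_vadd, pt_coe hy]
  push_cast
  ring

lemma periodic_nat (hm : ∀ (γ : SL(2, ℤ)) (z : ℍ), f (γ • z) = f z) (x : ℝ) {y : ℝ}
    (hy : 0 < y) (n : ℕ) : f (pt (x + n) y) = f (pt x y) := by
  have := periodic_of_modular hm x hy n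
  simpa using this

/-- the transformation behind the twisted functional equation -/
lemma transf (hm : ∀ (γ : SL(2, ℤ)) (z : ℍ), f (γ • z) = f z) (q b c : ℤ) (hq : 0 < q)
    (hbc : (q : ℤ) ∣ b * c - 1) (x : ℝ) {y : ℝ} (hy : 0 < y) :
    f (pt (b / q + x) y) =
      f (pt (-(c / q) - x / (q ^ 2 * (x ^ 2 + y ^ 2))) (y / (q ^ 2 * (x ^ 2 + y ^ 2)))) := by
  obtain ⟨k, hk⟩ := hbc
  have hdet : Matrix.det !![-c, k; q, -b] = 1 := by
    rw [Matrix.det_fin_two_of]
    linear_combination hk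
  let γ : SL(2, ℤ) := ⟨!![-c, k; q, -b], hdet⟩
  have hq' : (0 : ℝ) < q := by exact_mod_cast hq
  have hxy : 0 < x ^ 2 + y ^ 2 := by positivity
  rw [← hm γ (pt (b / q + x) y)]
  congr 1
  apply pt_ext (by positivity)
  rw [UpperHalfPlane.coe_specialLinearGroup_apply, pt_coe hy]
  have hqc : (q : ℂ) ≠ 0 := by exact_mod_cast hq.ne'
  have hz : (x : ℂ) + y * Complex.I ≠ 0 := by
    intro h
    have := congrArg Complex.im h
    simp at this
    exact hy.ne' this
  have hz2 : (x : ℂ) ^ 2 + y ^ 2 ≠ 0 := by exact_mod_cast hxy.ne'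
  have hk' : (b : ℂ) * c - 1 = q * k := by exact_mod_cast hk
  simp only [γ, Matrix.of_apply, Matrix.cons_val', Matrix.cons_val_zero,
    Matrix.cons_val_one, Matrix.cons_val_fin_one, algebraMap_int_eq, eq_intCast]
  push_cast
  have hden : (q : ℂ) * ((b : ℂ) / q + x + y * Complex.I) + -b = q * (x + y * Complex.I) := by
    field_simp
    ring
  rw [hden]
  rw [div_eq_iff (mul_ne_zero hqc hz)]
  have hI : Complex.I ^ 2 = -1 := Complex.I_sq
  field_simp
  have : (q : ℂ) * k = b * c - 1 := hk'.symm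
  linear_combination (↑x ^ 2 + ↑y ^ 2 : ℂ) * this - (y : ℂ) ^ 2 * hI

end basic

end Pool.Agent.H59R3.M17
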