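import Mathlib

set_option autoImplicit false

open Real Set Filter Topology MeasureTheory UpperHalfPlane
open scoped MatrixGroups

namespace Pool.Agent.H59R3.M17

/-- the action of `GL(2,ℝ)` is by isometries -/
lemma dist_gl (g : GL (Fin 2) ℝ) (z w : ℍ) : dist (g • z) (g • w) = dist z w := by
  have hz := denom_ne_zero g z
  have hw := denom_ne_zero g w
  have hdet : g.det.val ≠ 0 := g.det.ne_zero
  have h1 : dist ((g • z : ℍ) : ℂ) (g • w : ℍ) = |g.det.val| * dist (z : ℂ) w / (‖denom g z‖ * ‖denom g w‖) := by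
    rw [dist_eq_norm, dist_eq_norm, coe_smul, coe_smul, ← map_sub, norm_σ, div_sub_div _ _ hz hw, norm_div, norm_mul]
    congr 1
    have h2 : num g (z:ℂ) * denom g (w:ℂ) - denom g (z:ℂ) * num g (w:ℂ) = (g.det.val : ℂ) * ((z:ℂ) - w) := by
      simp only [num, denom, Matrix.GeneralLinearGroup.val_det_apply, Matrix.det_fin_two]
      push_cast
      ring
    rw [h2, norm_mul, Complex.norm_real, Real.norm_eq_abs]
  have h3 : cosh (dist (g • z) (g • w)) = cosh (dist z w) := by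
    rw [cosh_dist, cosh_dist, h1, UpperHalfPlane.im_smul_eq_div_normSq, UpperHalfPlane.im_smul_eq_div_normSq,
      Complex.normSq_eq_norm_sq, Complex.normSq_eq_norm_sq]
    have n1 : ‖denom g z‖ ≠ 0 := norm_ne_zero_iff.mpr hz
    have n2 : ‖denom g w‖ ≠ 0 := norm_ne_zero_iff.mpr hw
    have n3 : |g.det.val| ≠ 0 := abs_ne_zero.mpr hdet
    have n4 := z.im_pos.ne'
    have n5 := w.im_pos.ne'
    congr 1
    field_simp
  exact (Real.cosh_strictMonoOn.injOn) (mem_Ici.mpr dist_nonneg) (mem_Ici.mpr dist_nonneg) h3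

/-- admissible kernels -/
structure Ker (ρ : ℝ → ℝ) (R : ℝ) : Prop where
  smooth : ContDiff ℝ (⊤ : ℕ∞) ρ
  supp : ∀ t, R ≤ t → ρ t = 0
  one_le : 1 ≤ R

lemma Ker.lip {ρ : ℝ → ℝ} {R : ℝ} (hk : Ker ρ R) :
    ∃ B, 0 ≤ B ∧ (∀ t, 1 ≤ t → |ρ t| ≤ B) ∧ ∀ s t, 1 ≤ s → 1 ≤ t → |ρ s - ρ t| ≤ B * |s - t| := by
  have hd : Continuous (deriv ρ) := hk.smooth.continuous_deriv (by norm_num)
  obtain ⟨B1, hB1⟩ := (isCompact_Icc (a := (1:ℝ)) (b := R)).exists_bound_of_continuousOn hd.continuousOn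
  obtain ⟨B2, hB2⟩ := (isCompact_Icc (a := (1:ℝ)) (b := R)).exists_bound_of_continuousOn hk.smooth.continuous.continuousOn
  have h1 := hk.one_le
  have hB10 : 0 ≤ B1 := (norm_nonneg _).trans (hB1 1 ⟨le_rfl, h1⟩)
  have hB20 : 0 ≤ B2 := (norm_nonneg _).trans (hB2 1 ⟨le_rfl, h1⟩)
  have hb : ∀ t, 1 ≤ t → |ρ t| ≤ B2 := by
    intro t ht
    rcases le_total R t with h | h
    · rw [hk.supp t h, abs_zero]; exact hB20
    · exact hB2 t ⟨ht, h⟩
  have hdb : ∀ t, 1 ≤ t → ‖deriv ρ t‖ ≤ B1 := by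
    intro t ht
    rcases lt_or_ge R t with h | h
    · have : deriv ρ t = 0 := by
        have : ρ =ᶠ[𝓝 t] fun _ => 0 := by
          filter_upwards [Ioi_mem_nhds h] with s hs
          exact hk.supp s (le_of_lt hs)
        rw [this.deriv_eq]; simp
      rw [this, norm_zero]; exact hB10
    · exact hB1 t ⟨ht, h⟩
  refine ⟨B1 + B2, by positivity, fun t ht => (hb t ht).trans (by linarith), fun s t hs ht => ?_⟩
  have := (convex_Ici (1:ℝ)).norm_image_sub_le_of_norm_deriv_le (f := ρ) (C := B1)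
    (fun x _ => (hk.smooth.differentiable (by norm_num)).differentiableAt) (fun x hx => hdb x hx) (mem_Ici.mpr ht) (mem_Ici.mpr hs)
  rw [Real.norm_eq_abs, Real.norm_eq_abs] at this
  refine this.trans ?_
  have := abs_nonneg (s - t)
  nlinarith

/-- kernel function -/
noncomputable def kf (ρ : ℝ → ℝ) (z w : ℍ) : ℝ := ρ (Real.cosh (dist z w))

/-- the invariant integral operator -/
noncomputable def Lop (ρ : ℝ → ℝ) (f : ℍ → ℂ) (z : ℍ) : ℂ := ∫ w, (kf ρ z w : ℂ) * f w

lemma kf_comm (ρ : ℝ → ℝ) (z w : ℍ) : kf ρ z w = kf ρ w z := by rw [kf, kf, dist_comm]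

lemma kf_gl (ρ : ℝ → ℝ) (g : GL (Fin 2) ℝ) (z w : ℍ) : kf ρ (g • z) (g • w) = kf ρ z w := by
  rw [kf, kf, dist_gl]

lemma Ker.supp_ball {ρ : ℝ → ℝ} {R : ℝ} (hk : Ker ρ R) (z w : ℍ) (h : w ∉ Metric.ball z R) :
    kf ρ z w = 0 := by
  apply hk.supp
  rw [Metric.mem_ball, not_lt, dist_comm] at h
  calc R ≤ dist z w := h
    _ ≤ cosh (dist z w) := by
      have h1 := Real.add_one_le_exp (dist z w)
      have h2 := Real.one_le_cosh (dist z w)
      have h3 : dist z w ≤ Real.sinh (dist z w) := Real.self_le_sinh_iff.mpr dist_nonneg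
      exact h3.trans (Real.sinh_lt_cosh _).le

lemma kf_continuous {ρ : ℝ → ℝ} (h : Continuous ρ) : Continuous (fun v : ℍ × ℍ => kf ρ v.1 v.2) := by
  unfold kf
  fun_prop

lemma kf_continuous_right {ρ : ℝ → ℝ} (h : Continuous ρ) (z : ℍ) : Continuous (fun w : ℍ => kf ρ z w) := by
  unfold kf
  fun_prop

lemma vol_ball (z : ℍ) (r : ℝ) : volume (Metric.ball z r) = volume (Metric.ball UpperHalfPlane.I r) := by
  obtain ⟨g, hg⟩ : ∃ g : GL (Fin 2) ℝ, g • UpperHalfPlane.I = z := by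
    refine ⟨Matrix.SpecialLinearGroup.mapGL ℝ (z.toSL2R), ?_⟩
    exact z.toSL2R_smul_I
  have h1 : Metric.ball z r = (fun w : ℍ => g⁻¹ • w) ⁻¹' Metric.ball UpperHalfPlane.I r := by
    ext w
    rw [Set.mem_preimage, Metric.mem_ball, Metric.mem_ball, ← hg, ← dist_gl g⁻¹, inv_smul_smul]
  rw [h1, measure_preimage_smul]

lemma vol_ball_lt (z : ℍ) (r : ℝ) : volume (Metric.ball z r) < ⊤ := Metric.isBounded_ball.measure_lt_top

/-- volume of a ball as a real number -/
noncomputable def vb (r : ℝ) : ℝ := (volume (Metric.ball UpperHalfPlane.I r)).toReal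

lemma vb_nonneg (r : ℝ) : 0 ≤ vb r := ENNReal.toReal_nonneg

lemma measureReal_ball (z : ℍ) (r : ℝ) : volume.real (Metric.ball z r) = vb r := by
  rw [Measure.real, vol_ball]; rfl

lemma Ker.integrable {ρ : ℝ → ℝ} {R : ℝ} (hk : Ker ρ R) {f : ℍ → ℂ} (hf : Continuous f) {C : ℝ}
    (hC : ∀ w, ‖f w‖ ≤ C) (z : ℍ) : Integrable (fun w => (kf ρ z w : ℂ) * f w) := by
  obtain ⟨B, hB0, hB, -⟩ := hk.lip
  have hC0 : 0 ≤ C := (norm_nonneg _).trans (hC z)
  have h1 : Integrable ((Metric.ball z R).indicator (fun _ : ℍ => B * C)) := by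
    rw [integrable_indicator_iff Metric.isOpen_ball.measurableSet]
    exact integrableOn_const (vol_ball_lt z R).ne
  refine h1.mono' ?_ (Eventually.of_forall fun w => ?_)
  · apply Continuous.aestronglyMeasurable
    have := kf_continuous_right hk.smooth.continuous z
    fun_prop
  · by_cases hw : w ∈ Metric.ball z R
    · rw [indicator_of_mem hw, norm_mul, Complex.norm_real, Real.norm_eq_abs]
      exact mul_le_mul (hB _ (Real.one_le_cosh _)) (hC w) (norm_nonneg _) hB0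
    · rw [hk.supp_ball z w hw, indicator_of_notMem hw]
      simp

lemma Ker.bound {ρ : ℝ → ℝ} {R : ℝ} (hk : Ker ρ R) :
    ∃ B, 0 ≤ B ∧ ∀ (f : ℍ → ℂ) (C : ℝ), (∀ w, ‖f w‖ ≤ C) → ∀ z, ‖Lop ρ f z‖ ≤ B * C := by
  obtain ⟨B, hB0, hB, -⟩ := hk.lip
  refine ⟨B * vb R, mul_nonneg hB0 (vb_nonneg _), fun f C hC z => ?_⟩
  have hC0 : 0 ≤ C := (norm_nonneg _).trans (hC z)
  have h1 : Lop ρ f z = ∫ w in Metric.ball z R, (kf ρ z w : ℂ) * f w := by
    rw [Lop, setIntegral_eq_integral_of_forall_compl_eq_zero]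
    intro w hw
    rw [hk.supp_ball z w hw]; simp
  rw [h1]
  have h2 := norm_setIntegral_le_of_norm_le_const (μ := volume) (s := Metric.ball z R) (C := B * C)
    (f := fun w => (kf ρ z w : ℂ) * f w) (vol_ball_lt z R) (fun w _ => by
      rw [norm_mul, Complex.norm_real, Real.norm_eq_abs]
      exact mul_le_mul (hB _ (Real.one_le_cosh _)) (hC w) (norm_nonneg _) hB0)
  rw [measureReal_ball] at h2
  linarith

lemma cosh_sub_le (a b M : ℝ) (ha : 0 ≤ a) (hb : 0 ≤ b) (haM : a ≤ M) (hbM : b ≤ M) :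
    |cosh a - cosh b| ≤ sinh M * |a - b| := by
  have := (convex_Icc (0:ℝ) M).norm_image_sub_le_of_norm_deriv_le (f := Real.cosh) (C := sinh M)
    (fun x _ => Real.differentiable_cosh.differentiableAt) (fun x hx => by
      rw [Real.deriv_cosh, Real.norm_of_nonneg (Real.sinh_nonneg_iff.mpr hx.1)]
      exact Real.sinh_le_sinh.mpr hx.2) (x := b) (y := a) ⟨hb, hbM⟩ ⟨ha, haM⟩
  simpa [Real.norm_eq_abs] using this

lemma Ker.lipschitz {ρ : ℝ → ℝ} {R : ℝ} (hk : Ker ρ R) :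
    ∃ K, 0 ≤ K ∧ ∀ (f : ℍ → ℂ), Continuous f → ∀ (C : ℝ), (∀ w, ‖f w‖ ≤ C) → ∀ z z', dist z z' ≤ 1 →
      ‖Lop ρ f z - Lop ρ f z'‖ ≤ K * C * dist z z' := by
  obtain ⟨B, hB0, hB, hL⟩ := hk.lip
  have hR := hk.one_le
  refine ⟨B * sinh (R + 2) * vb (R + 1), mul_nonneg (mul_nonneg hB0 (Real.sinh_nonneg_iff.mpr (by linarith))) (vb_nonneg _),
    fun f hf C hC z z' hzz => ?_⟩
  have hC0 : 0 ≤ C := (norm_nonneg _).trans (hC z)
  have hi1 := hk.integrable hf hC z
  have hi2 := hk.integrable hf hC z'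
  have h1 : Lop ρ f z - Lop ρ f z' = ∫ w in Metric.ball z (R + 1), ((kf ρ z w - kf ρ z' w : ℝ) : ℂ) * f w := by
    rw [Lop, Lop, ← integral_sub hi1 hi2, setIntegral_eq_integral_of_forall_compl_eq_zero]
    · congr 1
      funext w
      push_cast
      ring
    · intro w hw
      have a1 : w ∉ Metric.ball z R := fun h => hw (Metric.ball_subset_ball (by linarith) h)
      have a2 : w ∉ Metric.ball z' R := by
        intro h
        apply hw
        rw [Metric.mem_ball] at h ⊢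
        calc dist w z ≤ dist w z' + dist z' z := dist_triangle _ _ _
          _ < R + 1 := by rw [dist_comm z' z]; linarith
      rw [hk.supp_ball z w a1, hk.supp_ball z' w a2]; simp
  rw [h1]
  have h2 := norm_setIntegral_le_of_norm_le_const (μ := volume) (s := Metric.ball z (R + 1))
    (C := B * sinh (R + 2) * dist z z' * C)
    (f := fun w => ((kf ρ z w - kf ρ z' w : ℝ) : ℂ) * f w) (vol_ball_lt z (R + 1)) (fun w hw => by
      rw [norm_mul, Complex.norm_real, Real.norm_eq_abs]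
      have b1 : dist z w ≤ R + 2 := by
        rw [Metric.mem_ball, dist_comm] at hw
        linarith
      have b2 : dist z' w ≤ R + 2 := by
        rw [Metric.mem_ball, dist_comm] at hw
        have := dist_triangle z' z w
        rw [dist_comm z' z] at this
        linarith
      have b3 : |kf ρ z w - kf ρ z' w| ≤ B * sinh (R + 2) * dist z z' := by
        calc |kf ρ z w - kf ρ z' w| ≤ B * |cosh (dist z w) - cosh (dist z' w)| :=
              hL _ _ (Real.one_le_cosh _) (Real.one_le_cosh _)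
          _ ≤ B * (sinh (R + 2) * |dist z w - dist z' w|) := by
              gcongr
              exact cosh_sub_le _ _ _ dist_nonneg dist_nonneg b1 b2
          _ ≤ B * (sinh (R + 2) * dist z z') := by
              have : 0 ≤ sinh (R + 2) := Real.sinh_nonneg_iff.mpr (by linarith)
              gcongr
              exact abs_dist_sub_le _ _ _
          _ = _ := by ring
      have : 0 ≤ B * sinh (R + 2) * dist z z' := (abs_nonneg _).trans b3
      exact mul_le_mul b3 (hC w) (norm_nonneg _) this)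
  rw [measureReal_ball] at h2
  linarith

lemma Ker.continuous {ρ : ℝ → ℝ} {R : ℝ} (hk : Ker ρ R) {f : ℍ → ℂ} (hf : Continuous f) {C : ℝ}
    (hC : ∀ w, ‖f w‖ ≤ C) : Continuous (Lop ρ f) := by
  obtain ⟨K, hK0, hK⟩ := hk.lipschitz
  rw [continuous_iff_continuousAt]
  intro z
  rw [ContinuousAt, tendsto_iff_dist_tendsto_zero]
  have h1 : Tendsto (fun x : ℍ => K * C * dist x z) (𝓝 z) (𝓝 0) := by
    have : Continuous (fun x : ℍ => K * C * dist x z) := by fun_prop
    have h2 := this.tendsto z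
    simpa using h2
  refine squeeze_zero' (Eventually.of_forall fun _ => dist_nonneg) ?_ h1
  filter_upwards [Metric.ball_mem_nhds z one_pos] with x hx
  rw [dist_eq_norm]
  exact hK f hf C hC x z (le_of_lt hx)

/-- invariance -/
lemma Lop_gl (ρ : ℝ → ℝ) (f : ℍ → ℂ) (g : GL (Fin 2) ℝ) (z : ℍ) :
    Lop ρ f (g • z) = Lop ρ (fun w => f (g • w)) z := by
  rw [Lop, Lop, ← integral_smul_eq_self (μ := (volume : Measure ℍ)) _ (g := g)]
  congr 1
  funext w
  rw [kf_gl]

lemma Lop_add {ρ : ℝ → ℝ} {R : ℝ} (hk : Ker ρ R) {f g : ℍ → ℂ} (hf : Continuous f) {C : ℝ}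
    (hC : ∀ w, ‖f w‖ ≤ C) (hg : Continuous g) {D : ℝ} (hD : ∀ w, ‖g w‖ ≤ D) (z : ℍ) :
    Lop ρ (fun w => f w + g w) z = Lop ρ f z + Lop ρ g z := by
  rw [Lop, Lop, Lop, ← integral_add (hk.integrable hf hC z) (hk.integrable hg hD z)]
  congr 1
  funext w
  ring

lemma Lop_smul (ρ : ℝ → ℝ) (c : ℂ) (f : ℍ → ℂ) (z : ℍ) :
    Lop ρ (fun w => c * f w) z = c * Lop ρ f z := by
  rw [Lop, Lop, ← integral_const_mul]
  congr 1
  funext w
  ring

end Pool.Agent.H59R3.M17
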