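import Pool.Agent.H59R3.M17.E1

set_option autoImplicit false

open Real Set Filter Topology MeasureTheory UpperHalfPlane
open scoped MatrixGroups Modular BoundedContinuousFunction

namespace Pool.Agent.H59R3.M17

/-- bounded continuous odd automorphic functions -/
noncomputable def S0 : Submodule ℂ (ℍ →ᵇ ℂ) where
  carrier := {f | (∀ (γ : SL(2, ℤ)) (z : ℍ), f (γ • z) = f z) ∧ ∀ z : ℍ, f (J • z) = - f z}
  add_mem' := by
    rintro f g ⟨hf1, hf2⟩ ⟨hg1, hg2⟩
    refine ⟨fun γ z => ?_, fun z => ?_⟩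
    · rw [BoundedContinuousFunction.add_apply, BoundedContinuousFunction.add_apply, hf1, hg1]
    · rw [BoundedContinuousFunction.add_apply, BoundedContinuousFunction.add_apply, hf2, hg2]; ring
  zero_mem' := by
    refine ⟨fun γ z => rfl, fun z => ?_⟩
    simp
  smul_mem' := by
    rintro c f ⟨hf1, hf2⟩
    refine ⟨fun γ z => ?_, fun z => ?_⟩
    · rw [BoundedContinuousFunction.smul_apply, BoundedContinuousFunction.smul_apply, hf1]
    · rw [BoundedContinuousFunction.smul_apply, BoundedContinuousFunction.smul_apply, hf2, smul_neg]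

lemma S0_closed : IsClosed (S0 : Set (ℍ →ᵇ ℂ)) := by
  have h1 : (S0 : Set (ℍ →ᵇ ℂ)) = (⋂ (γ : SL(2, ℤ)) (z : ℍ), {f : ℍ →ᵇ ℂ | f (γ • z) = f z}) ∩
      ⋂ z : ℍ, {f : ℍ →ᵇ ℂ | f (J • z) = - f z} := by
    ext f
    simp only [mem_inter_iff, mem_iInter]
    rfl
  rw [h1]
  refine IsClosed.inter (isClosed_iInter fun γ => isClosed_iInter fun z => ?_) (isClosed_iInter fun z => ?_)
  · exact isClosed_eq (continuous_eval_const _) (continuous_eval_const _)
  · exact isClosed_eq (continuous_eval_const _) (continuous_eval_const _).neg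

instance : CompleteSpace S0 := S0_closed.completeSpace_coe

lemma S0_norm (f : S0) (z : ℍ) : ‖(f : ℍ →ᵇ ℂ) z‖ ≤ ‖f‖ := (f : ℍ →ᵇ ℂ).norm_coe_le_norm z

lemma S0_mod (f : S0) (γ : SL(2, ℤ)) (z : ℍ) : (f : ℍ →ᵇ ℂ) (γ • z) = (f : ℍ →ᵇ ℂ) z := f.2.1 γ z

lemma S0_odd (f : S0) (z : ℍ) : (f : ℍ →ᵇ ℂ) (J • z) = - (f : ℍ →ᵇ ℂ) z := f.2.2 z

/-- `Lop ρ f` as a bounded continuous function -/
noncomputable def LB {ρ : ℝ → ℝ} {R : ℝ} (hk : Ker ρ R) (f : ℍ →ᵇ ℂ) : ℍ →ᵇ ℂ :=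
  BoundedContinuousFunction.ofNormedAddCommGroup (Lop ρ f)
    (hk.continuous f.continuous (fun w => f.norm_coe_le_norm w))
    (Classical.choose hk.bound * ‖f‖)
    (fun z => (Classical.choose_spec hk.bound).2 f ‖f‖ (fun w => f.norm_coe_le_norm w) z)

lemma LB_apply {ρ : ℝ → ℝ} {R : ℝ} (hk : Ker ρ R) (f : ℍ →ᵇ ℂ) (z : ℍ) : LB hk f z = Lop ρ f z := rfl

lemma LB_mem {ρ : ℝ → ℝ} {R : ℝ} (hk : Ker ρ R) (f : S0) : LB hk f ∈ S0 := by
  refine ⟨fun γ z => ?_, fun z => ?_⟩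
  · rw [LB_apply, LB_apply]
    have : γ • z = (Matrix.SpecialLinearGroup.mapGL ℝ γ) • z := rfl
    rw [this, Lop_gl]
    congr 1
    funext w
    exact S0_mod f γ w
  · rw [LB_apply, LB_apply, Lop_gl]
    have : (fun w : ℍ => (f : ℍ →ᵇ ℂ) (J • w)) = fun w => (-1 : ℂ) * (f : ℍ →ᵇ ℂ) w := by
      funext w
      rw [S0_odd]; ring
    rw [this, Lop_smul]
    ring

/-- the operator on the space of odd automorphic functions -/
noncomputable def LS {ρ : ℝ → ℝ} {R : ℝ} (hk : Ker ρ R) : S0 →L[ℂ] S0 :=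
  LinearMap.mkContinuous
    { toFun := fun f => ⟨LB hk f, LB_mem hk f⟩
      map_add' := fun f g => by
        apply Subtype.ext
        apply BoundedContinuousFunction.ext
        intro z
        exact Lop_add hk (f : ℍ →ᵇ ℂ).continuous (fun w => S0_norm f w) (g : ℍ →ᵇ ℂ).continuous
          (fun w => S0_norm g w) z
      map_smul' := fun c f => by
        apply Subtype.ext
        apply BoundedContinuousFunction.ext
        intro z
        exact Lop_smul ρ c f z }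
    (Classical.choose hk.bound)
    (fun f => by
      have h0 := (Classical.choose_spec hk.bound).1
      change ‖LB hk f‖ ≤ _
      rw [BoundedContinuousFunction.norm_le (mul_nonneg h0 (norm_nonneg _))]
      intro z
      exact (Classical.choose_spec hk.bound).2 f ‖f‖ (fun w => S0_norm f w) z)

lemma LS_apply {ρ : ℝ → ℝ} {R : ℝ} (hk : Ker ρ R) (f : S0) (z : ℍ) :
    ((LS hk f : S0) : ℍ →ᵇ ℂ) z = Lop ρ (f : ℍ →ᵇ ℂ) z := rfl

lemma S0_zero_line (f : S0) (z : ℍ) (hz : z.re = 0) : (f : ℍ →ᵇ ℂ) z = 0 := by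
  have h1 := S0_odd f z
  have h2 : J • z = z := by
    apply UpperHalfPlane.ext
    rw [coe_J_smul]
    apply Complex.ext
    · simp [hz]
    · simp
  rw [h2] at h1
  have h3 : (2:ℂ) * (f : ℍ →ᵇ ℂ) z = 0 := by linear_combination h1
  exact (mul_eq_zero.mp h3).resolve_left two_ne_zero

lemma dist_vertical (z : ℍ) (hz : |z.re| ≤ 1 / 2) :
    ∃ z' : ℍ, z'.re = 0 ∧ dist z z' ≤ 1 / 2 / z.im := by
  refine ⟨⟨⟨0, z.im⟩, z.im_pos⟩, rfl, ?_⟩
  refine (dist_le_dist_coe_div_sqrt _ _).trans ?_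
  have h2 : (⟨⟨0, z.im⟩, z.im_pos⟩ : ℍ).im = z.im := rfl
  rw [h2, Real.sqrt_mul_self z.im_pos.le]
  have h3 : dist (z : ℂ) ((⟨⟨0, z.im⟩, z.im_pos⟩ : ℍ) : ℂ) = |z.re| := by
    rw [Complex.dist_eq]
    have : (z : ℂ) - ((⟨⟨0, z.im⟩, z.im_pos⟩ : ℍ) : ℂ) = ((z.re : ℝ) : ℂ) := by
      apply Complex.ext
      · simp
      · simp
    rw [this, Complex.norm_real, Real.norm_eq_abs]
  rw [h3]
  have := z.im_pos
  gcongr

/-- The operator is compact. -/
theorem LS_compact {ρ : ℝ → ℝ} {R : ℝ} (hk : Ker ρ R) : IsCompactOperator (LS hk) := by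
  have hcl : IsCompactOperator (LS hk) ↔ IsCompact (closure <| (LS hk) '' Metric.closedBall 0 1) :=
    isCompactOperator_iff_isCompact_closure_image_closedBall (LS hk : S0 →ₗ[ℂ] S0) one_pos
  rw [hcl]
  have htb : TotallyBounded ((LS hk) '' Metric.closedBall 0 1) := by
    obtain ⟨B, hB0, hB⟩ := hk.bound
    obtain ⟨K, hK0, hK⟩ := hk.lipschitz
    have hBf : ∀ f : S0, ‖f‖ ≤ 1 → ∀ z, ‖((LS hk f : S0) : ℍ →ᵇ ℂ) z‖ ≤ B := by
      intro f hf z
      have := hB (f : ℍ →ᵇ ℂ) 1 (fun w => (S0_norm f w).trans hf) z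
      rw [mul_one] at this
      exact this
    have hKf : ∀ f : S0, ‖f‖ ≤ 1 → ∀ z z', dist z z' ≤ 1 →
        ‖((LS hk f : S0) : ℍ →ᵇ ℂ) z - ((LS hk f : S0) : ℍ →ᵇ ℂ) z'‖ ≤ K * dist z z' := by
      intro f hf z z' hzz
      have := hK (f : ℍ →ᵇ ℂ) (f : ℍ →ᵇ ℂ).continuous 1 (fun w => (S0_norm f w).trans hf) z z' hzz
      rw [mul_one] at this
      exact this
    apply Metric.totallyBounded_of_finite_discretization
    intro ε hε
    set Y : ℝ := max 1 (4 * K / ε) with hY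
    have hY1 : 1 ≤ Y := le_max_left _ _
    have hY0 : 0 < Y := by linarith
    have hYK : K / Y ≤ ε / 4 := by
      rw [div_le_iff₀ hY0]
      have : 4 * K / ε ≤ Y := le_max_right _ _
      rw [div_le_iff₀ hε] at this
      linarith
    have hδ : ∃ δ : ℝ, 0 < δ ∧ δ ≤ 1 ∧ K * δ ≤ ε / 8 := by
      refine ⟨min 1 (ε / (8 * (K + 1))), lt_min one_pos (by positivity), min_le_left _ _, ?_⟩
      calc K * min 1 (ε / (8 * (K + 1))) ≤ (K + 1) * (ε / (8 * (K + 1))) := by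
            apply mul_le_mul (by linarith) (min_le_right _ _) (le_min zero_le_one (by positivity)) (by linarith)
        _ = ε / 8 := by field_simp
    obtain ⟨δ, hδ0, hδ1, hKδ⟩ := hδ
    obtain ⟨t, ht1, ht2, ht3⟩ := (ModularGroup.isCompact_truncatedFundamentalDomain Y).finite_cover_balls hδ0
    obtain ⟨u, hu1, hu2, hu3⟩ := (isCompact_closedBall (0:ℂ) B).finite_cover_balls (show 0 < ε / 8 by positivity)
    have : Fintype t := ht2.fintype
    have : Fintype u := hu2.fintype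
    classical
    have hex : ∀ (h : (LS hk) '' Metric.closedBall 0 1) (z : t), ∃ c : u, ((h : S0) : ℍ →ᵇ ℂ) z ∈ Metric.ball (c : ℂ) (ε / 8) := by
      rintro ⟨h, f, hf, rfl⟩ z
      have hf' : ‖f‖ ≤ 1 := mem_closedBall_zero_iff.mp hf
      have h1 : ((LS hk f : S0) : ℍ →ᵇ ℂ) z ∈ Metric.closedBall (0:ℂ) B := by
        rw [mem_closedBall_zero_iff]
        exact hBf f hf' z
      have h2 := hu3 h1
      simp only [mem_iUnion] at h2
      obtain ⟨c, hc, h3⟩ := h2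
      exact ⟨⟨c, hc⟩, h3⟩
    choose F hF using hex
    refine ⟨t → u, inferInstance, fun h => F h, ?_⟩
    intro x y hxy
    have hxy : F x = F y := hxy
    obtain ⟨f, hf, hfx⟩ := x.2
    obtain ⟨g, hg, hgy⟩ := y.2
    have hf' : ‖f‖ ≤ 1 := mem_closedBall_zero_iff.mp hf
    have hg' : ‖g‖ ≤ 1 := mem_closedBall_zero_iff.mp hg
    have key : ∀ z : ℍ, dist (((x : S0) : ℍ →ᵇ ℂ) z) (((y : S0) : ℍ →ᵇ ℂ) z) ≤ ε / 2 := by
      intro z
      obtain ⟨γ, hγ⟩ := ModularGroup.exists_smul_mem_fd z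
      rw [← S0_mod (x : S0) γ z, ← S0_mod (y : S0) γ z]
      set z' := γ • z with hz'
      rcases le_or_gt z'.im Y with hle | hlt
      · have h1 : z' ∈ ModularGroup.truncatedFundamentalDomain Y := ⟨hγ, hle⟩
        have h2 := ht3 h1
        simp only [mem_iUnion] at h2
        obtain ⟨zi, hzi, h3⟩ := h2
        have h4 : dist z' zi < δ := h3
        have hx := hF x ⟨zi, hzi⟩
        have hy := hF y ⟨zi, hzi⟩
        rw [hxy] at hx
        have d1 : dist (((x : S0) : ℍ →ᵇ ℂ) z') (((x : S0) : ℍ →ᵇ ℂ) zi) ≤ ε / 8 := by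
          rw [← hfx, dist_eq_norm]
          refine (hKf f hf' z' zi (by linarith)).trans ?_
          calc K * dist z' zi ≤ K * δ := by gcongr
            _ ≤ ε / 8 := hKδ
        have d2 : dist (((y : S0) : ℍ →ᵇ ℂ) zi) (((y : S0) : ℍ →ᵇ ℂ) z') ≤ ε / 8 := by
          rw [← hgy, dist_eq_norm]
          rw [dist_comm] at h4
          refine (hKf g hg' zi z' (by linarith)).trans ?_
          calc K * dist zi z' ≤ K * δ := by gcongr
            _ ≤ ε / 8 := hKδ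
        have d3 : dist (((x : S0) : ℍ →ᵇ ℂ) zi) (((y : S0) : ℍ →ᵇ ℂ) zi) ≤ ε / 4 := by
          have e1 : dist (((x : S0) : ℍ →ᵇ ℂ) zi) ((F y ⟨zi, hzi⟩ : ℂ)) < ε / 8 := hx
          have e2 : dist (((y : S0) : ℍ →ᵇ ℂ) zi) ((F y ⟨zi, hzi⟩ : ℂ)) < ε / 8 := hy
          have e3 := dist_triangle_right (((x : S0) : ℍ →ᵇ ℂ) zi) (((y : S0) : ℍ →ᵇ ℂ) zi) ((F y ⟨zi, hzi⟩ : ℂ))
          linarith
        have d4 := dist_triangle4 (((x : S0) : ℍ →ᵇ ℂ) z') (((x : S0) : ℍ →ᵇ ℂ) zi)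
          (((y : S0) : ℍ →ᵇ ℂ) zi) (((y : S0) : ℍ →ᵇ ℂ) z')
        linarith
      · obtain ⟨z0, hz0, hd⟩ := dist_vertical z' hγ.2
        have hz'0 := z'.im_pos
        have hd1 : dist z' z0 ≤ 1 := by
          refine hd.trans ?_
          rw [div_le_one hz'0]
          linarith
        have hd2 : K * dist z' z0 ≤ ε / 8 := by
          calc K * dist z' z0 ≤ K * (1 / 2 / z'.im) := by gcongr
            _ ≤ K * (1 / 2 / Y) := by gcongr
            _ = (K / Y) / 2 := by ring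
            _ ≤ ε / 8 := by linarith
        have d1 : ‖((x : S0) : ℍ →ᵇ ℂ) z'‖ ≤ ε / 8 := by
          have := hKf f hf' z' z0 hd1
          rw [hfx, S0_zero_line (x : S0) z0 hz0, sub_zero] at this
          exact this.trans hd2
        have d2 : ‖((y : S0) : ℍ →ᵇ ℂ) z'‖ ≤ ε / 8 := by
          have := hKf g hg' z' z0 hd1
          rw [hgy, S0_zero_line (y : S0) z0 hz0, sub_zero] at this
          exact this.trans hd2
        rw [dist_eq_norm]
        calc _ ≤ ‖((x : S0) : ℍ →ᵇ ℂ) z'‖ + ‖((y : S0) : ℍ →ᵇ ℂ) z'‖ := norm_sub_le _ _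
          _ ≤ ε / 2 := by linarith
    have h5 : dist (x : S0) (y : S0) ≤ ε / 2 := by
      have h6 : dist ((x : S0) : ℍ →ᵇ ℂ) ((y : S0) : ℍ →ᵇ ℂ) ≤ ε / 2 :=
        (BoundedContinuousFunction.dist_le (by positivity)).mpr key
      exact h6
    linarith
  exact htb.closure.isCompact_of_isClosed isClosed_closure

end Pool.Agent.H59R3.M17
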