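import Pool.Agent.H59R3.M17.E2

set_option autoImplicit false

open Real Set Filter Topology MeasureTheory UpperHalfPlane
open scoped MatrixGroups Modular BoundedContinuousFunction ENNReal NNReal

namespace Pool.Agent.H59R3.M17

lemma null_preimage {s : Set ℂ} (hs : volume s = 0) : volume (UpperHalfPlane.coe ⁻¹' s) = 0 := by
  rw [UpperHalfPlane.volume_def]
  apply withDensity_absolutelyContinuous
  rw [measurableEmbedding_coe.comap_apply]
  exact measure_mono_null (Set.image_preimage_subset _ _) hs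

lemma null_line (c : ℝ) : volume {z : ℂ | z.re = c} = 0 := by
  have h1 : {z : ℂ | z.re = c} = Complex.measurableEquivRealProd ⁻¹' ({c} ×ˢ univ) := by
    ext z
    simp [Complex.measurableEquivRealProd]
  rw [h1, Complex.volume_preserving_equiv_real_prod.measure_preimage
    ((measurableSet_singleton c).prod MeasurableSet.univ).nullMeasurableSet]
  rw [Measure.volume_eq_prod, Measure.prod_prod]
  simp

lemma null_boundary : volume (𝒟 \ 𝒟ᵒ : Set ℍ) = 0 := by
  have h1 : (𝒟 \ 𝒟ᵒ : Set ℍ) ⊆ UpperHalfPlane.coe ⁻¹' ({z : ℂ | z.re = 1/2} ∪ {z : ℂ | z.re = -(1/2)} ∪ Metric.sphere 0 1) := by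
    rintro z ⟨hz1, hz2⟩
    have h2 : 1 ≤ Complex.normSq (z : ℂ) := hz1.1
    have h3 : |z.re| ≤ 1/2 := hz1.2
    have h4 : ¬ (1 < Complex.normSq (z : ℂ) ∧ |z.re| < 1/2) := hz2
    rw [not_and_or, not_lt, not_lt] at h4
    rcases h4 with h4 | h4
    · right
      have h5 : Complex.normSq (z : ℂ) = 1 := le_antisymm h4 h2
      rw [mem_sphere_zero_iff_norm]
      rw [Complex.normSq_eq_norm_sq] at h5
      have := norm_nonneg (z : ℂ)
      nlinarith
    · left
      have h5 : |z.re| = 1/2 := le_antisymm h3 h4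
      rcases abs_eq (by norm_num : (0:ℝ) ≤ 1/2) |>.mp h5 with h6 | h6
      · left
        change (z : ℂ).re = 1/2
        rw [UpperHalfPlane.coe_re]; exact h6
      · right
        change (z : ℂ).re = -(1/2)
        rw [UpperHalfPlane.coe_re]; exact h6
  refine measure_mono_null h1 (null_preimage ?_)
  rw [measure_union_null_iff, measure_union_null_iff]
  exact ⟨⟨null_line _, null_line _⟩, Measure.addHaar_sphere _ _ _⟩

lemma vol_fd : volume (𝒟 : Set ℍ) < ⊤ := by
  rw [UpperHalfPlane.volume_eq_lintegral]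
  set T : Set (ℝ × ℝ) := Icc (-(1/2)) (1/2) ×ˢ Ioi (1/2) with hT
  have hTm : MeasurableSet T := measurableSet_Icc.prod measurableSet_Ioi
  have hsub : (UpperHalfPlane.coe '' 𝒟 : Set ℂ) ⊆ Complex.measurableEquivRealProd ⁻¹' T := by
    rintro _ ⟨z, hz, rfl⟩
    have h1 := ModularGroup.three_le_four_mul_im_sq_of_mem_fd hz
    have h2 : |z.re| ≤ 1/2 := hz.2
    have h3 := z.im_pos
    rw [abs_le] at h2
    change ((z : ℂ).re, (z : ℂ).im) ∈ T
    rw [UpperHalfPlane.coe_re, UpperHalfPlane.coe_im]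
    refine ⟨⟨h2.1, h2.2⟩, ?_⟩
    change 1/2 < z.im
    nlinarith
  refine (lintegral_mono_set hsub).trans_lt ?_
  have h2 : ∫⁻ z in Complex.measurableEquivRealProd ⁻¹' T, (((1 / ‖z.im‖₊) ^ 2 : ℝ≥0) : ℝ≥0∞) =
      ∫⁻ p in T, (((1 / ‖p.2‖₊) ^ 2 : ℝ≥0) : ℝ≥0∞) := by
    have := Complex.volume_preserving_equiv_real_prod.setLIntegral_comp_preimage (s := T) hTm
      (f := fun p : ℝ × ℝ => (((1 / ‖p.2‖₊) ^ 2 : ℝ≥0) : ℝ≥0∞)) (by fun_prop)
    exact this
  rw [h2, Measure.volume_eq_prod, hT, ← Measure.prod_restrict, lintegral_prod _ (by fun_prop)]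
  change ∫⁻ (_ : ℝ) in Icc (-(1 / 2) : ℝ) (1 / 2), (∫⁻ (y : ℝ) in Ioi (1 / 2), (((1 / ‖y‖₊) ^ 2 : ℝ≥0) : ℝ≥0∞)) < ⊤
  rw [lintegral_const]
  apply ENNReal.mul_lt_top
  · have h3 := (integrableOn_Ioi_rpow_of_lt (a := -2) (by norm_num) (show (0:ℝ) < 1/2 by norm_num)).2
    refine lt_of_le_of_lt (le_of_eq ?_) h3
    refine setLIntegral_congr_fun measurableSet_Ioi (fun t ht => ?_)
    have ht : (1/2:ℝ) < t := ht
    have ht0 : 0 < t := by linarith
    rw [enorm_eq_nnnorm]
    congr 1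
    apply NNReal.eq
    rw [NNReal.coe_pow, NNReal.coe_div, coe_nnnorm, coe_nnnorm, Real.norm_of_nonneg ht0.le,
      Real.norm_of_nonneg (by positivity)]
    change ((1:ℝ≥0) / t) ^ 2 = t ^ (-2 : ℝ)
    rw [Real.rpow_neg ht0.le]
    norm_num
  · rw [Measure.restrict_apply_univ, Real.volume_Icc]
    exact ENNReal.ofReal_lt_top

/-- the effective modular group -/
noncomputable def Gm : Subgroup (Equiv.Perm ℍ) := (MulAction.toPermHom SL(2, ℤ) ℍ).range

lemma Gm_smul (g : Gm) : ∃ γ : SL(2, ℤ), ∀ z : ℍ, g • z = γ • z := by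
  obtain ⟨g, γ, rfl⟩ := g
  exact ⟨γ, fun _ => rfl⟩

lemma Gm_of (γ : SL(2, ℤ)) : ∃ g : Gm, ∀ z : ℍ, g • z = γ • z :=
  ⟨⟨MulAction.toPermHom SL(2, ℤ) ℍ γ, γ, rfl⟩, fun _ => rfl⟩

instance : Countable SL(2, ℤ) := by
  have h1 : Countable (Matrix (Fin 2) (Fin 2) ℤ) := inferInstanceAs (Countable (Fin 2 → Fin 2 → ℤ))
  have h2 : Function.Injective (fun g : SL(2, ℤ) => (g : Matrix (Fin 2) (Fin 2) ℤ)) :=
    Subtype.coe_injective
  exact h2.countable

instance : Countable Gm := by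
  have : Function.Surjective (MulAction.toPermHom SL(2, ℤ) ℍ).rangeRestrict :=
    MonoidHom.rangeRestrict_surjective _
  exact this.countable

instance : ContinuousConstSMul Gm ℍ where
  continuous_const_smul g := by
    obtain ⟨γ, hγ⟩ := Gm_smul g
    have h1 : (fun z : ℍ => g • z) = fun z : ℍ => (Matrix.SpecialLinearGroup.mapGL ℝ γ) • z := by
      funext z
      exact hγ z
    rw [h1]
    exact continuous_const_smul _

instance : SMulInvariantMeasure Gm ℍ volume where
  measure_preimage_smul g s hs := by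
    obtain ⟨γ, hγ⟩ := Gm_smul g
    have h1 : (fun z : ℍ => g • z) = fun z : ℍ => (Matrix.SpecialLinearGroup.mapGL ℝ γ) • z := by
      funext z
      exact hγ z
    rw [h1, measure_preimage_smul]

lemma Gm_eq_one {g : Gm} {z : ℍ} (hz : z ∈ 𝒟ᵒ) (hg : g • z ∈ 𝒟ᵒ) : g = 1 := by
  obtain ⟨γ, hγ⟩ := Gm_smul g
  rw [hγ] at hg
  have h1 := ModularGroup.eq_one_or_neg_one_of_mem_fdo_mem_fdo hz hg
  apply Subtype.ext
  apply Equiv.ext
  intro w
  have h2 : (g : Equiv.Perm ℍ) w = γ • w := hγ w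
  rw [h2]
  rcases h1 with rfl | rfl
  · exact one_smul _ w
  · rw [ModularGroup.SL_neg_smul]
    exact one_smul _ w

lemma isFD : IsFundamentalDomain Gm (𝒟ᵒ : Set ℍ) volume where
  nullMeasurableSet := ModularGroup.isOpen_fdo.measurableSet.nullMeasurableSet
  ae_covers := by
    have h1 : volume (⋃ g : Gm, (fun z : ℍ => g • z) ⁻¹' (𝒟 \ 𝒟ᵒ)) = 0 := by
      rw [measure_iUnion_null_iff]
      intro g
      rw [measure_preimage_smul]
      exact null_boundary
    rw [ae_iff]
    refine measure_mono_null ?_ h1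
    intro z hz
    have hz : ¬ ∃ g : Gm, g • z ∈ 𝒟ᵒ := hz
    push Not at hz
    obtain ⟨γ, hγ⟩ := ModularGroup.exists_smul_mem_fd z
    obtain ⟨g, hg⟩ := Gm_of γ
    rw [mem_iUnion]
    refine ⟨g, ?_, hz g⟩
    change g • z ∈ 𝒟
    rw [hg z]; exact hγ
  aedisjoint := by
    intro g h hgh
    apply Disjoint.aedisjoint
    rw [Set.disjoint_left]
    rintro z ⟨a, ha, rfl⟩ ⟨b, hb, hab⟩
    apply hgh
    have h1 : (g⁻¹ * h) • b = a := by
      rw [mul_smul]
      have : h • b = g • a := hab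
      rw [this, inv_smul_smul]
    have h2 := Gm_eq_one hb (by rw [h1]; exact ha)
    exact (inv_mul_eq_one.mp h2)

instance : SMulInvariantMeasure Gm (ℍ × ℍ) ((volume : Measure ℍ).prod volume) where
  measure_preimage_smul g s hs := by
    have h1 : MeasurePreserving (fun v : ℍ × ℍ => g • v) ((volume : Measure ℍ).prod volume)
        ((volume : Measure ℍ).prod volume) := by
      have := (measurePreserving_smul g (volume : Measure ℍ)).prod (measurePreserving_smul g (volume : Measure ℍ))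
      exact this
    exact h1.measure_preimage hs.nullMeasurableSet

lemma isFD1 : IsFundamentalDomain Gm ((𝒟ᵒ : Set ℍ) ×ˢ (univ : Set ℍ)) ((volume : Measure ℍ).prod volume) := by
  have h1 := isFD.preimage_of_equiv (ν := (volume : Measure ℍ).prod volume) (f := (Prod.fst : ℍ × ℍ → ℍ))
    Measure.quasiMeasurePreserving_fst (e := fun g : Gm => g) Function.bijective_id (fun g v => rfl)
  rwa [← Set.prod_univ] at h1

lemma isFD2 : IsFundamentalDomain Gm ((univ : Set ℍ) ×ˢ (𝒟ᵒ : Set ℍ)) ((volume : Measure ℍ).prod volume) := by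
  have h1 := isFD.preimage_of_equiv (ν := (volume : Measure ℍ).prod volume) (f := (Prod.snd : ℍ × ℍ → ℍ))
    Measure.quasiMeasurePreserving_snd (e := fun g : Gm => g) Function.bijective_id (fun g v => rfl)
  rwa [← Set.univ_prod] at h1

end Pool.Agent.H59R3.M17
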