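import Pool.Agent.H59R3.M17.E3a

set_option autoImplicit false

open Real Set Filter Topology MeasureTheory UpperHalfPlane
open scoped MatrixGroups Modular BoundedContinuousFunction ENNReal NNReal ComplexConjugate

namespace Pool.Agent.H59R3.M17

instance : Measure.IsOpenPosMeasure (volume : Measure ℍ) where
  open_pos U hU hne := by
    intro h0
    rw [UpperHalfPlane.volume_def] at h0
    have h1 : (volume.comap UpperHalfPlane.coe : Measure ℍ) U = 0 := by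
      refine withDensity_absolutelyContinuous' ?_ ?_ h0
      · apply Measurable.aemeasurable
        have hc : Continuous (fun z : ℍ => ((1 / NNReal.mk z.im z.im_pos.le : ℝ≥0) ^ 2)) := by
          refine .pow (.div₀ continuous_const ?_ ?_) _
          · exact continuous_im.subtype_mk _
          · exact fun x ↦ NNReal.ne_iff.mp x.im_ne_zero
        exact hc.measurable.coe_nnreal_ennreal
      · refine Eventually.of_forall fun z => ?_
        have : (NNReal.mk z.im z.im_pos.le : ℝ≥0) ≠ 0 := NNReal.ne_iff.mp z.im_ne_zero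
        have h2 : ((1 / NNReal.mk z.im z.im_pos.le : ℝ≥0) ^ 2) ≠ 0 := by positivity
        exact_mod_cast h2
    rw [measurableEmbedding_coe.comap_apply] at h1
    have h2 : IsOpen (UpperHalfPlane.coe '' U) := isOpenEmbedding_coe.isOpenMap U hU
    exact (h2.measure_pos volume (hne.image _)).ne' h1

/-- squared `L²` norm over the fundamental domain -/
noncomputable def N2 (h : ℍ → ℂ) : ℝ := ∫ z in (𝒟ᵒ : Set ℍ), ‖h z‖ ^ 2

/-- inner product over the fundamental domain -/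
noncomputable def ip (f g : ℍ → ℂ) : ℂ := ∫ z in (𝒟ᵒ : Set ℍ), f z * conj (g z)

lemma vol_fdo : volume (𝒟ᵒ : Set ℍ) < ⊤ := (measure_mono ModularGroup.fdo_subset_fd).trans_lt vol_fd

lemma intOn_of_bdd {h : ℍ → ℂ} (hc : Continuous h) {C : ℝ} (hC : ∀ z, ‖h z‖ ≤ C) :
    IntegrableOn h (𝒟ᵒ : Set ℍ) := by
  apply IntegrableOn.of_bound vol_fdo hc.aestronglyMeasurable C
  exact Eventually.of_forall hC

lemma N2_nonneg (h : ℍ → ℂ) : 0 ≤ N2 h := integral_nonneg fun _ => by positivity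

lemma ip_self (h : ℍ → ℂ) : ip h h = (N2 h : ℂ) := by
  rw [ip, N2, ← integral_complex_ofReal]
  congr 1
  funext z
  rw [Complex.mul_conj, Complex.normSq_eq_norm_sq]

lemma N2_le (f : S0) : N2 (f : ℍ →ᵇ ℂ) ≤ (volume (𝒟ᵒ : Set ℍ)).toReal * ‖f‖ ^ 2 := by
  rw [N2]
  have h1 : ∫ z in (𝒟ᵒ : Set ℍ), ‖(f : ℍ →ᵇ ℂ) z‖ ^ 2 ≤ ∫ z in (𝒟ᵒ : Set ℍ), ‖f‖ ^ 2 := by
    apply integral_mono_of_nonneg (Eventually.of_forall fun _ => by positivity)
    · exact integrableOn_const vol_fdo.ne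
    · refine Eventually.of_forall fun z => ?_
      have := S0_norm f z
      dsimp only
      gcongr
  refine h1.trans (le_of_eq ?_)
  rw [setIntegral_const, smul_eq_mul, Measure.real]

lemma N2_eq_zero (f : S0) (h : N2 (f : ℍ →ᵇ ℂ) = 0) : f = 0 := by
  have hint : IntegrableOn (fun z => ‖(f : ℍ →ᵇ ℂ) z‖ ^ 2) (𝒟ᵒ : Set ℍ) := by
    apply IntegrableOn.of_bound vol_fdo (by
      have := (f : ℍ →ᵇ ℂ).continuous
      exact (by fun_prop : Continuous fun z => ‖(f : ℍ →ᵇ ℂ) z‖ ^ 2).aestronglyMeasurable) (‖f‖ ^ 2)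
    refine Eventually.of_forall fun z => ?_
    rw [Real.norm_of_nonneg (by positivity)]
    have := S0_norm f z
    gcongr
  rw [N2, setIntegral_eq_zero_iff_of_nonneg_ae (Eventually.of_forall fun _ => by positivity) hint] at h
  have h1 : ∀ z ∈ (𝒟ᵒ : Set ℍ), (f : ℍ →ᵇ ℂ) z = 0 := by
    by_contra hc
    push Not at hc
    obtain ⟨z0, hz0, hne⟩ := hc
    have hopen : IsOpen ((𝒟ᵒ : Set ℍ) ∩ {z | (f : ℍ →ᵇ ℂ) z ≠ 0}) :=
      ModularGroup.isOpen_fdo.inter (isOpen_ne_fun (f : ℍ →ᵇ ℂ).continuous continuous_const)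
    have hpos := hopen.measure_pos volume ⟨z0, hz0, hne⟩
    have h2 : volume ((𝒟ᵒ : Set ℍ) ∩ {z | (f : ℍ →ᵇ ℂ) z ≠ 0}) = 0 := by
      have h3 := (ae_restrict_iff' ModularGroup.isOpen_fdo.measurableSet).mp h
      rw [ae_iff] at h3
      refine measure_mono_null ?_ h3
      rintro z ⟨hz1, hz2⟩
      intro hcon
      apply hz2
      have := hcon hz1
      simp only [Pi.zero_apply] at this
      exact norm_eq_zero.mp (pow_eq_zero_iff two_ne_zero |>.mp this)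
    exact hpos.ne' h2
  have h2 : ∀ z ∈ (𝒟 : Set ℍ), (f : ℍ →ᵇ ℂ) z = 0 := by
    intro z hz
    rw [ModularGroup.fd_eq_closure_fdo] at hz
    have hcl : IsClosed {z | (f : ℍ →ᵇ ℂ) z = 0} := isClosed_eq (f : ℍ →ᵇ ℂ).continuous continuous_const
    exact (hcl.closure_subset_iff.mpr h1) hz
  apply Subtype.ext
  apply BoundedContinuousFunction.ext
  intro z
  obtain ⟨γ, hγ⟩ := ModularGroup.exists_smul_mem_fd z
  have := h2 _ hγ
  rw [S0_mod] at this
  exact this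

/-- symmetry of the integral operators -/
lemma LS_symm {ρ : ℝ → ℝ} {R : ℝ} (hk : Ker ρ R) (f g : S0) :
    ip (LS hk f : S0) (g : ℍ →ᵇ ℂ) = ip (f : ℍ →ᵇ ℂ) (LS hk g : S0) := by
  set Φ : ℍ × ℍ → ℂ := fun v => (kf ρ v.1 v.2 : ℂ) * (f : ℍ →ᵇ ℂ) v.2 * conj ((g : ℍ →ᵇ ℂ) v.1) with hΦ
  have hΦc : Continuous Φ := by
    have h1 := kf_continuous hk.smooth.continuous
    have h2 := (f : ℍ →ᵇ ℂ).continuous
    have h3 := (g : ℍ →ᵇ ℂ).continuous
    have h4 : Continuous (fun v : ℍ × ℍ => ((kf ρ v.1 v.2 : ℝ) : ℂ)) := Complex.continuous_ofReal.comp h1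
    exact (h4.mul (h2.comp continuous_snd)).mul (Complex.continuous_conj.comp (h3.comp continuous_fst))
  have hinv : ∀ (γ : Gm) (v : ℍ × ℍ), Φ (γ • v) = Φ v := by
    intro γ v
    obtain ⟨γ', hγ'⟩ := Gm_smul γ
    simp only [hΦ, Prod.smul_fst, Prod.smul_snd, hγ', S0_mod]
    have : kf ρ (γ' • v.1) (γ' • v.2) = kf ρ v.1 v.2 := kf_gl ρ (Matrix.SpecialLinearGroup.mapGL ℝ γ') v.1 v.2
    rw [this]
  obtain ⟨B, hB0, hB, -⟩ := hk.lip
  have hint1 : IntegrableOn Φ ((𝒟ᵒ : Set ℍ) ×ˢ (univ : Set ℍ)) ((volume : Measure ℍ).prod volume) := by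
    rw [IntegrableOn, ← Measure.prod_restrict, Measure.restrict_univ]
    set E : Set (ℍ × ℍ) := {v | dist v.1 v.2 < R} with hE
    have hEo : IsOpen E := isOpen_lt (by fun_prop) continuous_const
    have hEfin : ((volume : Measure ℍ).restrict 𝒟ᵒ).prod volume E < ⊤ := by
      rw [Measure.prod_apply hEo.measurableSet]
      have : ∀ z : ℍ, volume (Prod.mk z ⁻¹' E) = volume (Metric.ball UpperHalfPlane.I R) := by
        intro z
        rw [← vol_ball z R]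
        congr 1
        ext w
        simp only [hE, mem_preimage, Metric.mem_ball]
        rw [dist_comm]
        rfl
      simp only [this, lintegral_const, Measure.restrict_apply_univ]
      exact ENNReal.mul_lt_top (vol_ball_lt _ _) vol_fdo
    have h1 : Integrable (E.indicator (fun _ : ℍ × ℍ => B * ‖f‖ * ‖g‖)) (((volume : Measure ℍ).restrict 𝒟ᵒ).prod volume) := by
      rw [integrable_indicator_iff hEo.measurableSet]
      exact integrableOn_const hEfin.ne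
    refine h1.mono' hΦc.aestronglyMeasurable (Eventually.of_forall fun v => ?_)
    by_cases hv : v ∈ E
    · rw [indicator_of_mem hv]
      simp only [hΦ]
      rw [norm_mul, norm_mul, Complex.norm_real, Real.norm_eq_abs, RCLike.norm_conj]
      have a1 : |kf ρ v.1 v.2| ≤ B := hB _ (Real.one_le_cosh _)
      have a2 := S0_norm f v.2
      have a3 := S0_norm g v.1
      gcongr
    · rw [indicator_of_notMem hv]
      have h2 : kf ρ v.1 v.2 = 0 := by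
        apply hk.supp_ball
        intro h3
        apply hv
        rw [Metric.mem_ball, dist_comm] at h3
        exact h3
      simp only [hΦ, h2]
      simp
  have hint2 : IntegrableOn Φ ((univ : Set ℍ) ×ˢ (𝒟ᵒ : Set ℍ)) ((volume : Measure ℍ).prod volume) :=
    (isFD1.integrableOn_iff isFD2 hinv).mp hint1
  have key := isFD1.setIntegral_eq isFD2 hinv
  have e1 : ∫ v in (𝒟ᵒ : Set ℍ) ×ˢ (univ : Set ℍ), Φ v ∂((volume : Measure ℍ).prod volume) =
      ip (LS hk f : S0) (g : ℍ →ᵇ ℂ) := by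
    rw [setIntegral_prod _ hint1, ip]
    refine setIntegral_congr_fun ModularGroup.isOpen_fdo.measurableSet fun z _ => ?_
    simp only [hΦ, Measure.restrict_univ]
    rw [integral_mul_const, LS_apply, Lop]
  have e2 : ∫ v in (univ : Set ℍ) ×ˢ (𝒟ᵒ : Set ℍ), Φ v ∂((volume : Measure ℍ).prod volume) =
      ip (f : ℍ →ᵇ ℂ) (LS hk g : S0) := by
    rw [← Measure.prod_restrict, Measure.restrict_univ]
    rw [IntegrableOn, ← Measure.prod_restrict, Measure.restrict_univ] at hint2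
    rw [integral_prod_symm _ hint2, ip]
    refine setIntegral_congr_fun ModularGroup.isOpen_fdo.measurableSet fun w _ => ?_
    simp only [hΦ]
    rw [LS_apply, Lop, ← integral_conj, ← integral_const_mul]
    congr 1
    funext z
    rw [map_mul, Complex.conj_ofReal, kf_comm]
    ring
  rw [← e1, ← e2, key]

lemma ip_sub_left (f g : S0) (t : ℝ) :
    N2 ((f - (t:ℂ) • g : S0) : ℍ →ᵇ ℂ) = N2 (f : ℍ →ᵇ ℂ) - 2 * t * (ip (f : ℍ →ᵇ ℂ) (g : ℍ →ᵇ ℂ)).re + t ^ 2 * N2 (g : ℍ →ᵇ ℂ) := by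
  have hi : ∀ u v : S0, IntegrableOn (fun z => (u : ℍ →ᵇ ℂ) z * conj ((v : ℍ →ᵇ ℂ) z)) (𝒟ᵒ : Set ℍ) := by
    intro u v
    apply intOn_of_bdd (C := ‖u‖ * ‖v‖)
    · exact (u : ℍ →ᵇ ℂ).continuous.mul (Complex.continuous_conj.comp (v : ℍ →ᵇ ℂ).continuous)
    · intro z
      rw [norm_mul, RCLike.norm_conj]
      have a2 := S0_norm u z
      have a3 := S0_norm v z
      gcongr
  have h1 : ip ((f - (t:ℂ) • g : S0) : ℍ →ᵇ ℂ) ((f - (t:ℂ) • g : S0) : ℍ →ᵇ ℂ) =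
      ip (f : ℍ →ᵇ ℂ) (f : ℍ →ᵇ ℂ) - t * ip (f : ℍ →ᵇ ℂ) (g : ℍ →ᵇ ℂ) - t * ip (g : ℍ →ᵇ ℂ) (f : ℍ →ᵇ ℂ)
        + t ^ 2 * ip (g : ℍ →ᵇ ℂ) (g : ℍ →ᵇ ℂ) := by
    have i2 : IntegrableOn (fun z => (t:ℂ) * ((f : ℍ →ᵇ ℂ) z * conj ((g : ℍ →ᵇ ℂ) z))) (𝒟ᵒ : Set ℍ) :=
      (hi f g).const_mul _
    have i3 : IntegrableOn (fun z => (t:ℂ) * ((g : ℍ →ᵇ ℂ) z * conj ((f : ℍ →ᵇ ℂ) z))) (𝒟ᵒ : Set ℍ) :=
      (hi g f).const_mul _
    have i4 : IntegrableOn (fun z => (t:ℂ) ^ 2 * ((g : ℍ →ᵇ ℂ) z * conj ((g : ℍ →ᵇ ℂ) z))) (𝒟ᵒ : Set ℍ) :=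
      (hi g g).const_mul _
    have i12 : IntegrableOn (fun z => (f : ℍ →ᵇ ℂ) z * conj ((f : ℍ →ᵇ ℂ) z) -
        (t:ℂ) * ((f : ℍ →ᵇ ℂ) z * conj ((g : ℍ →ᵇ ℂ) z))) (𝒟ᵒ : Set ℍ) := (hi f f).sub i2
    have i123 : IntegrableOn (fun z => (f : ℍ →ᵇ ℂ) z * conj ((f : ℍ →ᵇ ℂ) z) -
        (t:ℂ) * ((f : ℍ →ᵇ ℂ) z * conj ((g : ℍ →ᵇ ℂ) z)) -
        (t:ℂ) * ((g : ℍ →ᵇ ℂ) z * conj ((f : ℍ →ᵇ ℂ) z))) (𝒟ᵒ : Set ℍ) := i12.sub i3
    rw [ip, ip, ip, ip, ip, ← integral_const_mul, ← integral_const_mul, ← integral_const_mul,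
      ← integral_sub (hi f f) i2, ← integral_sub i12 i3, ← integral_add i123 i4]
    congr 1
    funext z
    have : ((f - (t:ℂ) • g : S0) : ℍ →ᵇ ℂ) z = (f : ℍ →ᵇ ℂ) z - t * (g : ℍ →ᵇ ℂ) z := rfl
    rw [this, map_sub, map_mul, Complex.conj_ofReal]
    ring
  have h2 : (ip (g : ℍ →ᵇ ℂ) (f : ℍ →ᵇ ℂ)).re = (ip (f : ℍ →ᵇ ℂ) (g : ℍ →ᵇ ℂ)).re := by
    have : ip (g : ℍ →ᵇ ℂ) (f : ℍ →ᵇ ℂ) = conj (ip (f : ℍ →ᵇ ℂ) (g : ℍ →ᵇ ℂ)) := by
      rw [ip, ip, ← integral_conj]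
      congr 1
      funext z
      rw [map_mul, Complex.conj_conj]
      ring
    rw [this, Complex.conj_re]
  rw [ip_self, ip_self, ip_self] at h1
  have h3 := congrArg Complex.re h1
  simp only [Complex.add_re, Complex.sub_re, Complex.re_ofReal_mul, Complex.ofReal_re, h2] at h3
  rw [h3, ← Complex.ofReal_pow, Complex.re_ofReal_mul, Complex.ofReal_re]
  ring

end Pool.Agent.H59R3.M17
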