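import Pool.Agent.H59R3.M17.E3b

set_option autoImplicit false

open Real Set Filter Topology MeasureTheory UpperHalfPlane
open scoped MatrixGroups Modular BoundedContinuousFunction ENNReal NNReal ComplexConjugate

namespace Pool.Agent.H59R3.M17

/-- log-convexity step -/
lemma N2_step {ρ : ℝ → ℝ} {R : ℝ} (hk : Ker ρ R) (f : S0) :
    N2 ((LS hk f : S0) : ℍ →ᵇ ℂ) ^ 2 ≤ N2 ((LS hk (LS hk f) : S0) : ℍ →ᵇ ℂ) * N2 (f : ℍ →ᵇ ℂ) := by
  set a := N2 ((LS hk (LS hk f) : S0) : ℍ →ᵇ ℂ) with ha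
  set b := N2 ((LS hk f : S0) : ℍ →ᵇ ℂ) with hb
  set c := N2 (f : ℍ →ᵇ ℂ) with hc
  have key : ∀ t : ℝ, 0 ≤ a - 2 * t * b + t ^ 2 * c := by
    intro t
    have h1 := ip_sub_left (LS hk (LS hk f)) f t
    rw [LS_symm, ip_self, Complex.ofReal_re] at h1
    rw [← h1]
    exact N2_nonneg _
  have hc0 : 0 ≤ c := N2_nonneg _
  have ha0 : 0 ≤ a := N2_nonneg _
  have hb0 : 0 ≤ b := N2_nonneg _
  rcases hc0.eq_or_lt with h0 | h0
  · -- c = 0
    have hb1 : b = 0 := by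
      by_contra hne
      have hbpos : 0 < b := lt_of_le_of_ne hb0 (Ne.symm hne)
      have := key ((a + 1) / b)
      rw [← h0] at this
      have h2 : 2 * ((a + 1) / b) * b = 2 * (a + 1) := by field_simp
      rw [h2] at this
      linarith
    rw [hb1, ← h0]; simp
  · have := key (b / c)
    have h2 : a - 2 * (b / c) * b + (b / c) ^ 2 * c = a - b ^ 2 / c := by field_simp; ring
    rw [h2] at this
    have h3 : b ^ 2 / c ≤ a := by linarith
    rwa [div_le_iff₀ h0] at h3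

theorem exists_eigenvalue {ρ : ℝ → ℝ} {R : ℝ} (hk : Ker ρ R) (f0 : S0) (h0 : LS hk f0 ≠ 0) :
    ∃ κ : ℂ, κ ≠ 0 ∧ Module.End.HasEigenvalue (LS hk : Module.End ℂ S0) κ := by
  by_contra hc
  push Not at hc
  set T := LS hk with hT
  have hspec : spectralRadius ℂ T = 0 := by
    rw [spectralRadius]
    refine le_antisymm ?_ bot_le
    apply iSup₂_le
    intro κ hκ
    by_cases hκ0 : κ = 0
    · simp [hκ0]
    · exact absurd (((LS_compact hk).hasEigenvalue_iff_mem_spectrum hκ0).mpr hκ) (hc κ hκ0)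
  have hlim := spectrum.pow_nnnorm_pow_one_div_tendsto_nhds_spectralRadius T
  rw [hspec] at hlim
  -- lower bounds
  set m : ℕ → ℝ := fun n => N2 (((T ^ n) f0 : S0) : ℍ →ᵇ ℂ) with hm
  have hf0 : f0 ≠ 0 := by
    rintro rfl
    exact h0 (map_zero _)
  have hm0 : 0 < m 0 := by
    have h1 : 0 ≤ m 0 := N2_nonneg _
    refine lt_of_le_of_ne h1 (fun h => hf0 ?_)
    apply N2_eq_zero
    simpa [hm] using h.symm
  have hm1 : 0 < m 1 := by
    have h1 : 0 ≤ m 1 := N2_nonneg _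
    refine lt_of_le_of_ne h1 (fun h => h0 ?_)
    apply N2_eq_zero
    simpa [hm] using h.symm
  set r := m 1 / m 0 with hr
  have hr0 : 0 < r := by positivity
  have hstep : ∀ n, m (n + 1) ^ 2 ≤ m (n + 2) * m n := by
    intro n
    have := N2_step hk ((T ^ n) f0)
    have e1 : (T ^ (n + 1)) f0 = LS hk ((T ^ n) f0) := by
      rw [pow_succ']; rfl
    have e2 : (T ^ (n + 2)) f0 = LS hk (LS hk ((T ^ n) f0)) := by
      rw [pow_succ', mul_apply_eq_comp, e1]
    simp only [hm]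
    rw [e1, e2]
    exact this
  have hratio : ∀ n, 0 < m n ∧ r * m n ≤ m (n + 1) := by
    intro n
    induction n with
    | zero =>
      refine ⟨hm0, ?_⟩
      rw [hr, div_mul_cancel₀ _ hm0.ne']
    | succ n ih =>
      obtain ⟨h1, h2⟩ := ih
      have h3 : 0 < m (n + 1) := lt_of_lt_of_le (by positivity) h2
      refine ⟨h3, ?_⟩
      have h4 := hstep n
      have h5 : m (n + 1) * (r * m n) ≤ m (n + 1) * m (n + 1) := by gcongr
      have h6 : m n * (r * m (n + 1)) ≤ m n * m (n + 2) := by nlinarith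
      exact le_of_mul_le_mul_left h6 h1
  have hlow : ∀ n, m 0 * r ^ n ≤ m n := by
    intro n
    induction n with
    | zero => simp
    | succ n ih =>
      calc m 0 * r ^ (n + 1) = r * (m 0 * r ^ n) := by ring
        _ ≤ r * m n := by gcongr
        _ ≤ m (n + 1) := (hratio n).2
  set Vv := (volume (𝒟ᵒ : Set ℍ)).toReal with hVv
  have hV0 : 0 ≤ Vv := ENNReal.toReal_nonneg
  have hup : ∀ n, m n ≤ Vv * (‖T ^ n‖ * ‖f0‖) ^ 2 := by
    intro n
    refine (N2_le _).trans ?_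
    have := (T ^ n).le_opNorm f0
    gcongr
  -- choose δ
  set δ : ℝ := Real.sqrt (r / 4) with hδ
  have hδ0 : 0 < δ := Real.sqrt_pos.mpr (by positivity)
  have hδ2 : δ ^ 2 = r / 4 := Real.sq_sqrt (by positivity)
  have hev : ∀ᶠ n : ℕ in atTop, ‖T ^ n‖ ≤ δ ^ n := by
    have h1 : (0 : ℝ≥0∞) < ENNReal.ofReal δ := ENNReal.ofReal_pos.mpr hδ0
    have h2 := (tendsto_order.mp hlim).2 _ h1
    filter_upwards [h2, eventually_gt_atTop 0] with n hn hn0
    have hn' : (0:ℝ) < n := by exact_mod_cast hn0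
    have h3 : ((‖T ^ n‖₊ : ℝ≥0∞) ^ (1 / n : ℝ)) ^ (n : ℝ) ≤ (ENNReal.ofReal δ) ^ (n : ℝ) :=
      ENNReal.rpow_le_rpow hn.le hn'.le
    rw [← ENNReal.rpow_mul, one_div, inv_mul_cancel₀ hn'.ne', ENNReal.rpow_one, ENNReal.rpow_natCast,
      ← ENNReal.ofReal_pow hδ0.le] at h3
    have h4 : (‖T ^ n‖₊ : ℝ≥0∞) = ENNReal.ofReal ‖T ^ n‖ := by
      rw [← coe_nnnorm (T ^ n)]
      exact ENNReal.ofReal_coe_nnreal.symm
    rw [h4] at h3
    exact (ENNReal.ofReal_le_ofReal_iff (by positivity)).mp h3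
  have hev2 : ∀ᶠ n : ℕ in atTop, m 0 * 4 ^ n ≤ Vv * ‖f0‖ ^ 2 := by
    filter_upwards [hev] with n hn
    have h1 := (hlow n).trans (hup n)
    have h2 : Vv * (‖T ^ n‖ * ‖f0‖) ^ 2 ≤ Vv * ‖f0‖ ^ 2 * (r / 4) ^ n := by
      calc Vv * (‖T ^ n‖ * ‖f0‖) ^ 2 ≤ Vv * (δ ^ n * ‖f0‖) ^ 2 := by gcongr
        _ = Vv * ‖f0‖ ^ 2 * (δ ^ 2) ^ n := by ring
        _ = _ := by rw [hδ2]
    have h3 := h1.trans h2
    have h4 : (r / 4) ^ n * (m 0 * 4 ^ n) ≤ (r / 4) ^ n * (Vv * ‖f0‖ ^ 2) := by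
      have h5 : (r / 4) ^ n * (m 0 * 4 ^ n) = m 0 * r ^ n := by
        rw [div_pow]; field_simp
      rw [h5]
      linarith
    exact le_of_mul_le_mul_left h4 (by positivity)
  have hinf : Tendsto (fun n : ℕ => m 0 * (4:ℝ) ^ n) atTop atTop :=
    (tendsto_pow_atTop_atTop_of_one_lt (by norm_num)).const_mul_atTop hm0
  have h7 := (hinf.eventually_gt_atTop (Vv * ‖f0‖ ^ 2)).and hev2
  obtain ⟨n, hn1, hn2⟩ := h7.exists
  linarith

/-- eigenspaces for nonzero eigenvalues are finite dimensional -/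
theorem finDim_eigenspace {ρ : ℝ → ℝ} {R : ℝ} (hk : Ker ρ R) {κ : ℂ} (hκ : κ ≠ 0) :
    FiniteDimensional ℂ (Module.End.eigenspace (LS hk : Module.End ℂ S0) κ) := by
  set E := Module.End.eigenspace (LS hk : Module.End ℂ S0) κ with hE
  have hmem : ∀ v ∈ E, (LS hk : Module.End ℂ S0) v ∈ E := by
    intro v hv
    have := Module.End.mem_eigenspace_iff.mp hv
    rw [this]
    exact E.smul_mem _ hv
  have hcl : IsClosed (E : Set S0) := by
    have : (E : Set S0) = {v | LS hk v = κ • v} := by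
      ext v
      exact Module.End.mem_eigenspace_iff
    rw [this]
    exact isClosed_eq (LS hk).continuous (continuous_const_smul κ)
  have h1 : IsCompactOperator ((LS hk : Module.End ℂ S0).restrict hmem) :=
    (LS_compact hk : IsCompactOperator (LS hk : Module.End ℂ S0)).restrict hmem hcl
  have h2 : IsCompactOperator (κ⁻¹ • ((LS hk : Module.End ℂ S0).restrict hmem)) := h1.smul κ⁻¹
  have h3 : (κ⁻¹ • ((LS hk : Module.End ℂ S0).restrict hmem) : E → E) = (id : E → E) := by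
    funext v
    apply Subtype.ext
    have h4 := Module.End.mem_eigenspace_iff.mp v.2
    have h5 : ((κ⁻¹ • ((LS hk : Module.End ℂ S0).restrict hmem) : E → E) v : S0) = κ⁻¹ • ((LS hk : Module.End ℂ S0) v) := rfl
    rw [h5, h4, smul_smul, inv_mul_cancel₀ hκ, one_smul]
    rfl
  have h6 : IsCompactOperator (id : E → E) := by
    rw [← h3]
    exact h2
  exact FiniteDimensional.of_isCompactOperator_id h6

/-- eigenvalues of the (symmetric) operators are real -/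
lemma eigenvalue_real {ρ : ℝ → ℝ} {R : ℝ} (hk : Ker ρ R) {κ : ℂ} {f : S0} (hf : f ≠ 0)
    (h : LS hk f = κ • f) : conj κ = κ := by
  have h1 := LS_symm hk f f
  have hN : N2 (f : ℍ →ᵇ ℂ) ≠ 0 := fun h0 => hf (N2_eq_zero f h0)
  have e1 : ip (LS hk f : S0) (f : ℍ →ᵇ ℂ) = κ * (N2 (f : ℍ →ᵇ ℂ) : ℂ) := by
    rw [h, ← ip_self, ip, ip, ← integral_const_mul]
    congr 1
    funext z
    have : ((κ • f : S0) : ℍ →ᵇ ℂ) z = κ * (f : ℍ →ᵇ ℂ) z := rfl
    rw [this]; ring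
  have e2 : ip (f : ℍ →ᵇ ℂ) (LS hk f : S0) = conj κ * (N2 (f : ℍ →ᵇ ℂ) : ℂ) := by
    rw [h, ← ip_self, ip, ip, ← integral_const_mul]
    congr 1
    funext z
    have : ((κ • f : S0) : ℍ →ᵇ ℂ) z = κ * (f : ℍ →ᵇ ℂ) z := rfl
    rw [this, map_mul]; ring
  rw [e1, e2] at h1
  have hN' : (N2 (f : ℍ →ᵇ ℂ) : ℂ) ≠ 0 := by exact_mod_cast hN
  exact (mul_right_cancel₀ hN' h1).symm

end Pool.Agent.H59R3.M17
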