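import Pool.Agent.H59R3.M17.E3c

set_option autoImplicit false

open Real Set Filter Topology MeasureTheory UpperHalfPlane
open scoped MatrixGroups Modular BoundedContinuousFunction ENNReal NNReal ComplexConjugate

namespace Pool.Agent.H59R3.M17

/-- conjugation of modular matrices by the reflection -/
lemma J_conj (γ : SL(2, ℤ)) : ∃ γ' : SL(2, ℤ), ∀ z : ℍ, J • (γ • z) = γ' • (J • z) := by
  have hdet : Matrix.det !![γ 0 0, -γ 0 1; -γ 1 0, γ 1 1] = 1 := by
    have h := γ.det_coe
    rw [Matrix.det_fin_two] at h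
    rw [Matrix.det_fin_two_of]
    linear_combination h
  refine ⟨⟨!![γ 0 0, -γ 0 1; -γ 1 0, γ 1 1], hdet⟩, fun z => ?_⟩
  apply UpperHalfPlane.ext
  rw [coe_J_smul, coe_specialLinearGroup_apply, coe_specialLinearGroup_apply, coe_J_smul]
  simp only [Matrix.of_apply, Matrix.cons_val', Matrix.cons_val_zero,
    Matrix.cons_val_one, Matrix.cons_val_fin_one, algebraMap_int_eq, eq_intCast, map_div₀, map_add, map_mul,
    Complex.conj_ofReal]
  rw [← neg_div]
  congr 1
  · push_cast; ring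
  · push_cast; ring

lemma J_J (z : ℍ) : J • (J • z) = z := by
  rw [← mul_smul, ← sq, J_sq, one_smul]

/-- dist is invariant under the modular group -/
lemma dist_sl (γ : SL(2, ℤ)) (z w : ℍ) : dist (γ • z) (γ • w) = dist z w :=
  dist_gl (Matrix.SpecialLinearGroup.mapGL ℝ γ) z w

/-- base point -/
noncomputable def w1 : ℍ := ⟨⟨1/4, 2⟩, by norm_num⟩

lemma w1_mem : w1 ∈ (𝒟ᵒ : Set ℍ) := by
  refine ⟨?_, ?_⟩
  · change 1 < Complex.normSq ⟨1/4, 2⟩
    rw [Complex.normSq_mk]; norm_num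
  · change |(1/4:ℝ)| < 1/2
    rw [abs_of_pos (by norm_num)]; norm_num

lemma Jw1_mem : J • w1 ∈ (𝒟ᵒ : Set ℍ) := by
  have h : ((J • w1 : ℍ) : ℂ) = ⟨-(1/4), 2⟩ := by
    rw [coe_J_smul]
    change - conj (⟨1/4, 2⟩ : ℂ) = _
    apply Complex.ext <;> simp
  refine ⟨?_, ?_⟩
  · rw [h, Complex.normSq_mk]; norm_num
  · have h2 : (J • w1 : ℍ).re = -(1/4) := by
      rw [← UpperHalfPlane.coe_re, h]
    rw [h2, abs_neg, abs_of_pos (by norm_num)]; norm_num

lemma Jw1_ne : J • w1 ≠ w1 := by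
  intro h
  have h1 : ((J • w1 : ℍ) : ℂ) = ⟨-(1/4), 2⟩ := by
    rw [coe_J_smul]
    change - conj (⟨1/4, 2⟩ : ℂ) = _
    apply Complex.ext <;> simp
  rw [h] at h1
  have h2 : ((w1 : ℍ) : ℂ) = ⟨1/4, 2⟩ := rfl
  rw [h2] at h1
  have := congrArg Complex.re h1
  norm_num at this

/-- the orbit of the base point -/
def Or : Set ℍ := {w | ∃ γ : SL(2, ℤ), w = γ • w1}

lemma Or_nonempty : Or.Nonempty := ⟨w1, 1, (one_smul _ _).symm⟩

lemma infDist_le_sl (γ : SL(2, ℤ)) (z : ℍ) : Metric.infDist (γ • z) Or ≤ Metric.infDist z Or := by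
  rw [Metric.le_infDist Or_nonempty]
  rintro _ ⟨γ', rfl⟩
  rw [← dist_sl γ, ← mul_smul]
  exact Metric.infDist_le_dist_of_mem ⟨γ * γ', rfl⟩

lemma infDist_sl (γ : SL(2, ℤ)) (z : ℍ) : Metric.infDist (γ • z) Or = Metric.infDist z Or := by
  apply le_antisymm (infDist_le_sl γ z)
  have := infDist_le_sl γ⁻¹ (γ • z)
  rwa [inv_smul_smul] at this

/-- truncated distance to the orbit -/
noncomputable def gd (z : ℍ) : ℝ := min 1 (Metric.infDist z Or)

lemma gd_cont : Continuous gd := continuous_const.min (Metric.continuous_infDist_pt _)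

lemma gd_nonneg (z : ℍ) : 0 ≤ gd z := le_min zero_le_one Metric.infDist_nonneg

lemma gd_le (z : ℍ) : gd z ≤ 1 := min_le_left _ _

lemma gd_sl (γ : SL(2, ℤ)) (z : ℍ) : gd (γ • z) = gd z := by rw [gd, infDist_sl, gd]

lemma gd_w1 : gd w1 = 0 := by
  have : w1 ∈ Or := ⟨1, (one_smul _ _).symm⟩
  rw [gd, Metric.infDist_zero_of_mem this]
  simp

lemma gd_Jw1 : 0 < gd (J • w1) := by
  obtain ⟨r, hr0, hr⟩ := Metric.isOpen_iff.mp ModularGroup.isOpen_fdo w1 w1_mem
  have hd : 0 < dist (J • w1) w1 := dist_pos.mpr Jw1_ne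
  have h1 : min r (dist (J • w1) w1) ≤ Metric.infDist (J • w1) Or := by
    rw [Metric.le_infDist Or_nonempty]
    rintro _ ⟨γ, rfl⟩
    by_contra hc
    push Not at hc
    have h2 : dist (γ⁻¹ • (J • w1)) w1 < min r (dist (J • w1) w1) := by
      rw [← dist_sl γ, smul_inv_smul]; exact hc
    have h3 : γ⁻¹ • (J • w1) ∈ (𝒟ᵒ : Set ℍ) := hr (h2.trans_le (min_le_left _ _))
    have h4 := ModularGroup.eq_one_or_neg_one_of_mem_fdo_mem_fdo Jw1_mem h3
    have h5 : γ⁻¹ • (J • w1) = J • w1 := by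
      rcases h4 with h4 | h4
      · rw [h4, one_smul]
      · rw [h4, ModularGroup.SL_neg_smul, one_smul]
    rw [h5] at h2
    exact absurd (h2.trans_le (min_le_right _ _)) (lt_irrefl _)
  exact lt_min one_pos (lt_of_lt_of_le (lt_min hr0 hd) h1)

/-- real test function -/
noncomputable def fr (z : ℍ) : ℝ := gd z - gd (J • z)

lemma fr_cont : Continuous fr := by
  have : Continuous (fun z : ℍ => J • z) := continuous_const_smul _
  exact gd_cont.sub (gd_cont.comp this)

/-- the test function -/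
noncomputable def f0 : S0 :=
  ⟨BoundedContinuousFunction.ofNormedAddCommGroup (fun z => (fr z : ℂ))
      (Complex.continuous_ofReal.comp fr_cont) 1 (fun z => by
        rw [Complex.norm_real, Real.norm_eq_abs, fr, abs_le]
        have h1 := gd_nonneg z
        have h2 := gd_le z
        have h3 := gd_nonneg (J • z)
        have h4 := gd_le (J • z)
        constructor <;> linarith), by
    refine ⟨fun γ z => ?_, fun z => ?_⟩
    · change ((fr (γ • z) : ℝ) : ℂ) = (fr z : ℂ)
      obtain ⟨γ', hγ'⟩ := J_conj γ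
      rw [fr, fr, hγ', gd_sl, gd_sl]
    · change ((fr (J • z) : ℝ) : ℂ) = - (fr z : ℂ)
      rw [fr, fr, J_J]
      push_cast
      ring⟩

lemma f0_apply (z : ℍ) : (f0 : ℍ →ᵇ ℂ) z = (fr z : ℂ) := rfl

lemma fr_w1 : fr w1 < 0 := by
  rw [fr, gd_w1]
  have := gd_Jw1
  linarith

/-- there is an admissible kernel for which the operator does not kill the test function -/
theorem exists_kernel : ∃ (ρ : ℝ → ℝ) (R : ℝ) (hk : Ker ρ R), LS hk f0 ≠ 0 := by
  have hopen : IsOpen {z : ℍ | fr z < 0} := isOpen_lt fr_cont continuous_const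
  obtain ⟨ε, hε0, hε⟩ := Metric.isOpen_iff.mp hopen w1 fr_w1
  set R := Real.cosh ε with hR
  have hR1 : 1 < R := Real.one_lt_cosh.mpr hε0.ne'
  set ρ : ℝ → ℝ := fun t => Real.smoothTransition ((R - t) / (R - 1)) with hρ
  have hk : Ker ρ R :=
    { smooth := by
        have h1 : ContDiff ℝ (⊤ : ℕ∞) (fun t : ℝ => (R - t) / (R - 1)) := by fun_prop
        exact Real.smoothTransition.contDiff.comp h1
      supp := by
        intro t ht
        apply Real.smoothTransition.zero_of_nonpos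
        apply div_nonpos_of_nonpos_of_nonneg <;> linarith
      one_le := hR1.le }
  refine ⟨ρ, R, hk, ?_⟩
  intro h0
  have h1 : Lop ρ (f0 : ℍ →ᵇ ℂ) w1 = 0 := by
    rw [← LS_apply hk, h0]; rfl
  set h : ℍ → ℝ := fun w => kf ρ w1 w * (- fr w) with hh
  have hnn : ∀ w, 0 ≤ h w := by
    intro w
    by_cases hw : cosh (dist w1 w) < R
    · have h2 : dist w1 w < ε := by
        have := Real.cosh_lt_cosh.mp hw
        rwa [abs_of_nonneg dist_nonneg, abs_of_pos hε0] at this
      have h3 : fr w < 0 := hε (by rw [Metric.mem_ball, dist_comm]; exact h2)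
      have h4 : 0 ≤ kf ρ w1 w := Real.smoothTransition.nonneg _
      apply mul_nonneg h4
      linarith
    · have : kf ρ w1 w = 0 := hk.supp _ (not_lt.mp hw)
      simp only [hh, this, zero_mul, le_refl]
  have hhc : Continuous h := (kf_continuous_right hk.smooth.continuous w1).mul fr_cont.neg
  have hint : Integrable h := by
    have h2 := hk.integrable (f0 : ℍ →ᵇ ℂ).continuous (fun w => S0_norm f0 w) w1
    have h3 := h2.re.neg
    refine h3.congr (Eventually.of_forall fun w => ?_)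
    simp only [Pi.neg_apply, hh]
    change -((kf ρ w1 w : ℂ) * (f0 : ℍ →ᵇ ℂ) w).re = kf ρ w1 w * (- fr w)
    rw [f0_apply, ← Complex.ofReal_mul, Complex.ofReal_re]
    ring
  have hzero : ∫ w, h w = 0 := by
    have h2 : Lop ρ (f0 : ℍ →ᵇ ℂ) w1 = ((- ∫ w, h w : ℝ) : ℂ) := by
      rw [Lop, ← integral_neg, ← integral_complex_ofReal]
      congr 1
      funext w
      rw [f0_apply]
      simp only [hh]
      push_cast
      ring
    rw [h1] at h2
    have h3 : (0:ℝ) = - ∫ w, h w := by exact_mod_cast h2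
    linarith
  rw [integral_eq_zero_iff_of_nonneg hnn hint] at hzero
  have hall : h = 0 := (hhc.ae_eq_iff_eq volume continuous_const).mp hzero
  have h5 : h w1 = 0 := by rw [hall]; rfl
  have h6 : 0 < h w1 := by
    have h7 : kf ρ w1 w1 = 1 := by
      rw [kf, dist_self, Real.cosh_zero]
      apply Real.smoothTransition.one_of_one_le
      rw [div_self (by linarith)]
    simp only [hh, h7, one_mul]
    have := fr_w1
    linarith
  exact h6.ne' h5

end Pool.Agent.H59R3.M17
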