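import Pool.Agent.H59R3.M17.E3d

set_option autoImplicit false

open Real Set Filter Topology MeasureTheory UpperHalfPlane
open scoped MatrixGroups Modular BoundedContinuousFunction ENNReal NNReal ComplexConjugate

namespace Pool.Agent.H59R3.M17

lemma gl_neg (a b c d : ℝ) (h : a * d - b * c < 0) :
    ∃ g : GL (Fin 2) ℝ, ∀ z : ℍ, ((g • z : ℍ) : ℂ) = conj ((a * z + b) / (c * z + d) : ℂ) := by
  have hdet : Matrix.det !![a, b; c, d] = a * d - b * c := Matrix.det_fin_two_of _ _ _ _
  refine ⟨Matrix.GeneralLinearGroup.mkOfDetNeZero !![a, b; c, d] (by rw [hdet]; exact h.ne), fun z => ?_⟩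
  rw [coe_smul]
  have h1 : ¬ (0 < (Matrix.GeneralLinearGroup.mkOfDetNeZero !![a, b; c, d] (by rw [hdet]; exact h.ne)).det.val) := by
    rw [Matrix.GeneralLinearGroup.val_det_apply]
    change ¬ (0 < Matrix.det !![a, b; c, d])
    rw [hdet]
    exact not_lt.mpr h.le
  rw [σ, if_neg h1]
  rfl

lemma gl_pos (a b c d : ℝ) (h : 0 < a * d - b * c) :
    ∃ g : GL (Fin 2) ℝ, ∀ z : ℍ, ((g • z : ℍ) : ℂ) = ((a * z + b) / (c * z + d) : ℂ) := by
  have hdet : Matrix.det !![a, b; c, d] = a * d - b * c := Matrix.det_fin_two_of _ _ _ _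
  refine ⟨Matrix.GeneralLinearGroup.mkOfDetNeZero !![a, b; c, d] (by rw [hdet]; exact h.ne'), fun z => ?_⟩
  rw [coe_smul]
  have h1 : (0 < (Matrix.GeneralLinearGroup.mkOfDetNeZero !![a, b; c, d] (by rw [hdet]; exact h.ne')).det.val) := by
    rw [Matrix.GeneralLinearGroup.val_det_apply]
    change (0 < Matrix.det !![a, b; c, d])
    rw [hdet]
    exact h
  rw [σ, if_pos h1]
  rfl

/-- any two points are swapped by an isometry -/
lemma exists_swap (z v : ℍ) : ∃ g : GL (Fin 2) ℝ, g • z = v ∧ g • v = z := by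
  have hz := z.im_pos
  have hv := v.im_pos
  by_cases him : z.im = v.im
  · obtain ⟨g, hg⟩ := gl_neg (-1) (z.re + v.re) 0 1 (by norm_num)
    refine ⟨g, ?_, ?_⟩
    · apply UpperHalfPlane.ext
      rw [hg]
      apply Complex.ext
      · simp
      · simp [him]
    · apply UpperHalfPlane.ext
      rw [hg]
      apply Complex.ext
      · simp
      · simp [him]
  · set c : ℝ := (z.im * v.re - v.im * z.re) / (z.im - v.im) with hc
    set r2 : ℝ := z.im * v.im * (1 + (z.re - v.re) ^ 2 / (z.im - v.im) ^ 2) with hr2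
    have hne : z.im - v.im ≠ 0 := sub_ne_zero.mpr him
    have hr0 : 0 < r2 := by positivity
    have e1 : z.re - c = z.im * (z.re - v.re) / (z.im - v.im) := by
      rw [hc]; field_simp; ring
    have e2 : v.re - c = v.im * (z.re - v.re) / (z.im - v.im) := by
      rw [hc]; field_simp; ring
    obtain ⟨g, hg⟩ := gl_neg c (r2 - c ^ 2) 1 (-c) (by ring_nf; linarith)
    have key : ∀ p : ℍ, ((g • p : ℍ) : ℂ) = c + r2 / (conj (p : ℂ) - c) := by
      intro p
      rw [hg p]
      have hne1 : ((p : ℂ) - c) ≠ 0 := by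
        intro h0
        have := congrArg Complex.im h0
        simp at this
        exact p.im_pos.ne' this
      have hne2 : (conj (p : ℂ) - c) ≠ 0 := by
        intro h0
        apply hne1
        have := congrArg conj h0
        simpa using this
      simp only [map_div₀, map_add, map_mul, Complex.conj_ofReal]
      push_cast
      have h1 : (1:ℂ) * conj (p : ℂ) + -(c:ℂ) ≠ 0 := by
        rw [one_mul, ← sub_eq_add_neg]; exact hne2
      rw [div_eq_iff h1]
      field_simp
      ring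
    have mult : ∀ p p' : ℍ, (p'.re - c) * (p.re - c) + p.im * p'.im = r2 → p'.im * (p.re - c) - p.im * (p'.re - c) = 0 →
        g • p = p' := by
      intro p p' h1 h2
      apply UpperHalfPlane.ext
      rw [key p]
      have hne1 : ((p : ℂ) - c) ≠ 0 := by
        intro h0
        have := congrArg Complex.im h0
        simp at this
        exact p.im_pos.ne' this
      have hne2 : (conj (p : ℂ) - c) ≠ 0 := by
        intro h0
        apply hne1
        have := congrArg conj h0
        simpa using this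
      have h3 : (r2 : ℂ) = ((p' : ℂ) - c) * (conj (p : ℂ) - c) := by
        apply Complex.ext
        · simp
          linarith
        · simp
          linarith
      rw [h3, mul_div_cancel_right₀ _ hne2]
      ring
    refine ⟨g, mult z v ?_ ?_, mult v z ?_ ?_⟩
    · rw [e1, e2, hr2]; field_simp; ring
    · rw [e1, e2]; field_simp; ring
    · rw [e1, e2, hr2]; field_simp; ring
    · rw [e1, e2]; field_simp; ring

/-- composed kernel -/
lemma comp_kernel (ρ1 ρ2 : ℝ → ℝ) (z v : ℍ) :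
    ∫ w, kf ρ1 z w * kf ρ2 w v = ∫ w, kf ρ2 z w * kf ρ1 w v := by
  obtain ⟨g, hg1, hg2⟩ := exists_swap z v
  rw [← integral_smul_eq_self (μ := (volume : Measure ℍ)) (fun w => kf ρ1 z w * kf ρ2 w v) (g := g)]
  congr 1
  funext w
  have h1 : kf ρ1 z (g • w) = kf ρ1 w v := by
    rw [← hg2, kf_gl, kf_comm]
  have h2 : kf ρ2 (g • w) v = kf ρ2 z w := by
    rw [← hg1, kf_gl, kf_comm]
  rw [h1, h2]
  ring

lemma Lop_Lop {ρ1 ρ2 : ℝ → ℝ} {R1 R2 : ℝ} (hk1 : Ker ρ1 R1) (hk2 : Ker ρ2 R2) {f : ℍ → ℂ}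
    (hf : Continuous f) {C : ℝ} (hC : ∀ w, ‖f w‖ ≤ C) (z : ℍ) :
    Lop ρ1 (Lop ρ2 f) z = ∫ v, ((∫ w, kf ρ1 z w * kf ρ2 w v : ℝ) : ℂ) * f v := by
  have hC0 : 0 ≤ C := (norm_nonneg _).trans (hC z)
  obtain ⟨B1, hB10, hB1, -⟩ := hk1.lip
  obtain ⟨B2, hB20, hB2, -⟩ := hk2.lip
  have hR1 := hk1.one_le
  have hR2 := hk2.one_le
  set Φ : ℍ → ℍ → ℂ := fun w v => (kf ρ1 z w : ℂ) * ((kf ρ2 w v : ℂ) * f v) with hΦ
  have hΦc : Continuous (Function.uncurry Φ) := by
    have h1 : Continuous (fun x : ℍ × ℍ => ((kf ρ1 z x.1 : ℝ) : ℂ)) :=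
      Complex.continuous_ofReal.comp ((kf_continuous_right hk1.smooth.continuous z).comp continuous_fst)
    have h2 : Continuous (fun x : ℍ × ℍ => ((kf ρ2 x.1 x.2 : ℝ) : ℂ)) :=
      Complex.continuous_ofReal.comp (kf_continuous hk2.smooth.continuous)
    exact h1.mul (h2.mul (hf.comp continuous_snd))
  have hint : Integrable (Function.uncurry Φ) ((volume : Measure ℍ).prod volume) := by
    set E : Set (ℍ × ℍ) := Metric.ball z R1 ×ˢ Metric.ball z (R1 + R2) with hE
    have hEm : MeasurableSet E := (Metric.isOpen_ball.prod Metric.isOpen_ball).measurableSet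
    have hEfin : (volume : Measure ℍ).prod volume E < ⊤ := by
      rw [hE, Measure.prod_prod]
      exact ENNReal.mul_lt_top (vol_ball_lt _ _) (vol_ball_lt _ _)
    have h1 : Integrable (E.indicator (fun _ : ℍ × ℍ => B1 * (B2 * C))) ((volume : Measure ℍ).prod volume) := by
      rw [integrable_indicator_iff hEm]
      exact integrableOn_const hEfin.ne
    refine h1.mono' hΦc.aestronglyMeasurable (Eventually.of_forall fun x => ?_)
    by_cases hx : x ∈ E
    · rw [indicator_of_mem hx]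
      simp only [hΦ, Function.uncurry]
      rw [norm_mul, norm_mul, Complex.norm_real, Complex.norm_real, Real.norm_eq_abs, Real.norm_eq_abs]
      have a1 : |kf ρ1 z x.1| ≤ B1 := hB1 _ (Real.one_le_cosh _)
      have a2 : |kf ρ2 x.1 x.2| ≤ B2 := hB2 _ (Real.one_le_cosh _)
      have a3 := hC x.2
      gcongr
    · rw [indicator_of_notMem hx]
      simp only [hΦ, Function.uncurry]
      by_cases h2 : x.1 ∈ Metric.ball z R1
      · have h3 : x.2 ∉ Metric.ball x.1 R2 := by
          intro h4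
          apply hx
          refine ⟨h2, ?_⟩
          rw [Metric.mem_ball] at h2 h4 ⊢
          calc dist x.2 z ≤ dist x.2 x.1 + dist x.1 z := dist_triangle _ _ _
            _ < R1 + R2 := by linarith
        rw [hk2.supp_ball _ _ h3]; simp
      · rw [hk1.supp_ball _ _ h2]; simp
  have h1 : Lop ρ1 (Lop ρ2 f) z = ∫ w, ∫ v, Φ w v := by
    rw [Lop]
    congr 1
    funext w
    rw [Lop, ← integral_const_mul]
  rw [h1, integral_integral_swap hint]
  congr 1
  funext v
  rw [← integral_complex_ofReal, ← integral_mul_const]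
  congr 1
  funext w
  simp only [hΦ]
  push_cast
  ring

/-- the invariant integral operators commute -/
lemma LS_comm {ρ1 ρ2 : ℝ → ℝ} {R1 R2 : ℝ} (hk1 : Ker ρ1 R1) (hk2 : Ker ρ2 R2) (f : S0) :
    LS hk1 (LS hk2 f) = LS hk2 (LS hk1 f) := by
  apply Subtype.ext
  apply BoundedContinuousFunction.ext
  intro z
  have h1 : ((LS hk1 (LS hk2 f) : S0) : ℍ →ᵇ ℂ) z = Lop ρ1 (Lop ρ2 (f : ℍ →ᵇ ℂ)) z := rfl
  have h2 : ((LS hk2 (LS hk1 f) : S0) : ℍ →ᵇ ℂ) z = Lop ρ2 (Lop ρ1 (f : ℍ →ᵇ ℂ)) z := rfl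
  rw [h1, h2, Lop_Lop hk1 hk2 (f : ℍ →ᵇ ℂ).continuous (fun w => S0_norm f w),
    Lop_Lop hk2 hk1 (f : ℍ →ᵇ ℂ).continuous (fun w => S0_norm f w)]
  congr 1
  funext v
  rw [comp_kernel]

/-- common eigenvectors of commuting families -/
lemma exists_common_eigenvector {ι : Type*} {V : Type*} [AddCommGroup V] [Module ℂ V]
    [FiniteDimensional ℂ V] [Nontrivial V] (T : ι → Module.End ℂ V)
    (hcomm : ∀ i j v, T i (T j v) = T j (T i v)) :
    ∃ v : V, v ≠ 0 ∧ ∀ i, ∃ c : ℂ, T i v = c • v := by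
  classical
  let P : ℕ → Prop := fun n => ∃ W : Submodule ℂ V, W ≠ ⊥ ∧ (∀ i, ∀ v ∈ W, T i v ∈ W) ∧ Module.finrank ℂ W = n
  have hP : ∃ n, P n := ⟨_, ⊤, top_ne_bot, fun _ _ _ => Submodule.mem_top, rfl⟩
  obtain ⟨W, hW0, hWinv, hWn⟩ := Nat.find_spec hP
  have hmin : ∀ W' : Submodule ℂ V, W' ≠ ⊥ → (∀ i, ∀ v ∈ W', T i v ∈ W') → W' ≤ W → W' = W := by
    intro W' h1 h2 h3
    apply Submodule.eq_of_le_of_finrank_le h3
    rw [hWn]
    exact Nat.find_min' hP ⟨W', h1, h2, rfl⟩
  have hscal : ∀ i, ∃ c : ℂ, ∀ v ∈ W, T i v = c • v := by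
    intro i
    have : Nontrivial W := (Submodule.nontrivial_iff_ne_bot).mpr hW0
    obtain ⟨c, hc⟩ := Module.End.exists_eigenvalue ((T i).restrict (hWinv i))
    obtain ⟨u, hu⟩ := hc.exists_hasEigenvector
    refine ⟨c, ?_⟩
    have h1 : (W ⊓ Module.End.eigenspace (T i) c) = W := by
      apply hmin
      · intro hbot
        apply hu.2
        have : (u : V) ∈ W ⊓ Module.End.eigenspace (T i) c := by
          refine ⟨u.2, ?_⟩
          rw [SetLike.mem_coe, Module.End.mem_eigenspace_iff]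
          have h2 := hu.apply_eq_smul
          exact congrArg Subtype.val h2
        rw [hbot, Submodule.mem_bot] at this
        exact Subtype.ext this
      · rintro j v ⟨hv1, hv2⟩
        refine ⟨hWinv j v hv1, ?_⟩
        rw [SetLike.mem_coe, Module.End.mem_eigenspace_iff] at hv2 ⊢
        rw [hcomm, hv2, map_smul]
      · exact inf_le_left
    intro v hv
    rw [← h1] at hv
    exact Module.End.mem_eigenspace_iff.mp hv.2
  obtain ⟨v, hv, hv0⟩ := Submodule.exists_mem_ne_zero_of_ne_bot hW0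
  exact ⟨v, hv0, fun i => by
    obtain ⟨c, hc⟩ := hscal i
    exact ⟨c, hc v hv⟩⟩

end Pool.Agent.H59R3.M17
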