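import Pool.Agent.H59R3.M17.E4a
import Pool.Agent.H59R3.M17.Def

set_option autoImplicit false

open Real Set Filter Topology MeasureTheory UpperHalfPlane
open scoped MatrixGroups Modular BoundedContinuousFunction ENNReal NNReal ComplexConjugate

namespace Pool.Agent.H59R3.M17

/-- affine maps of the upper half plane -/
noncomputable def mv (s t : ℝ) (z : ℍ) : ℍ := pt (s * z.re + t) (s * z.im)

lemma mv_coe {s : ℝ} (hs : 0 < s) (t : ℝ) (z : ℍ) : ((mv s t z : ℍ) : ℂ) = s * z + t := by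
  rw [mv, pt_coe (mul_pos hs z.im_pos)]
  apply Complex.ext <;> simp

lemma mv_gl {s : ℝ} (hs : 0 < s) (t : ℝ) : ∃ g : GL (Fin 2) ℝ, ∀ z : ℍ, mv s t z = g • z := by
  obtain ⟨g, hg⟩ := gl_pos s t 0 1 (by simpa using hs)
  refine ⟨g, fun z => ?_⟩
  apply UpperHalfPlane.ext
  rw [mv_coe hs, hg]
  simp

lemma mv_cont {s : ℝ} (hs : 0 < s) (t : ℝ) : Continuous (mv s t) := by
  obtain ⟨g, hg⟩ := mv_gl hs t
  have : mv s t = fun z : ℍ => g • z := funext hg
  rw [this]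
  exact continuous_const_smul _

lemma mv_mv {s s' : ℝ} (hs : 0 < s) (hs' : 0 < s') (t t' : ℝ) (z : ℍ) :
    mv s t (mv s' t' z) = mv (s * s') (s * t' + t) z := by
  apply UpperHalfPlane.ext
  rw [mv_coe hs, mv_coe hs', mv_coe (mul_pos hs hs')]
  push_cast
  ring

/-- translation invariance -/
lemma S0_trans (f : S0) (k : ℤ) {w w' : ℍ} (h : (w' : ℂ) = w + k) :
    (f : ℍ →ᵇ ℂ) w' = (f : ℍ →ᵇ ℂ) w := by
  rw [← S0_mod f (ModularGroup.T ^ k) w]
  congr 1
  apply UpperHalfPlane.ext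
  rw [h, ModularGroup.coe_T_zpow_smul_eq]

/-- the functions occurring in Hecke operators -/
noncomputable def Y (f : S0) (s : ℝ) (N : ℕ) (m : ℤ) (z : ℍ) : ℂ := (f : ℍ →ᵇ ℂ) (mv s (m / N) z)

lemma Y_congr (f : S0) {s : ℝ} (hs : 0 < s) {N : ℕ} (hN : 0 < N) {m m' : ℤ} (h : (N : ℤ) ∣ m' - m) (z : ℍ) :
    Y f s N m' z = Y f s N m z := by
  obtain ⟨k, hk⟩ := h
  apply S0_trans f k
  rw [mv_coe hs, mv_coe hs]
  have hN' : (N : ℂ) ≠ 0 := by exact_mod_cast hN.ne'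
  have h1 : (m' : ℂ) = m + N * k := by
    have : m' = m + N * k := by linarith
    rw [this]; push_cast; ring
  push_cast
  rw [h1]
  field_simp
  ring

lemma sum_range_zmod (N : ℕ) [NeZero N] (g : ℕ → ℂ) : ∑ b ∈ Finset.range N, g b = ∑ a : ZMod N, g a.val := by
  obtain ⟨n, rfl⟩ : ∃ n, N = n + 1 := ⟨N - 1, by have := NeZero.pos N; omega⟩
  exact Finset.sum_range g

/-- the (unnormalised) Hecke operator -/
noncomputable def HT (p : ℕ) (f : ℍ → ℂ) (z : ℍ) : ℂ :=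
  f (mv p 0 z) + ∑ b ∈ Finset.range p, f (mv (1 / p) (b / p) z)

lemma HT_eq (p : ℕ) [NeZero p] (f : S0) (z : ℍ) :
    HT p (f : ℍ →ᵇ ℂ) z = (f : ℍ →ᵇ ℂ) (mv p 0 z) + ∑ a : ZMod p, Y f (1 / p) p (a.val : ℤ) z := by
  rw [HT, sum_range_zmod]
  congr 1

lemma HT_T (p : ℕ) [NeZero p] (f : S0) (z : ℍ) : HT p (f : ℍ →ᵇ ℂ) (ModularGroup.T • z) = HT p (f : ℍ →ᵇ ℂ) z := by
  have hp : 0 < p := NeZero.pos p
  have hpr : (0:ℝ) < p := by exact_mod_cast hp
  have hpi : (0:ℝ) < 1 / p := by positivity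
  have hpc : (p : ℂ) ≠ 0 := by exact_mod_cast hp.ne'
  have hT : ((ModularGroup.T • z : ℍ) : ℂ) = z + 1 := by
    have := ModularGroup.coe_T_zpow_smul_eq (z := z) (n := 1)
    simpa using this
  rw [HT_eq, HT_eq]
  congr 1
  · apply S0_trans f (p : ℤ)
    rw [mv_coe hpr, mv_coe hpr, hT]
    push_cast; ring
  · have h1 : ∀ a : ZMod p, Y f (1 / p) p (a.val : ℤ) (ModularGroup.T • z) = Y f (1 / p) p ((a + 1).val : ℤ) z := by
      intro a
      have h2 : Y f (1 / p) p (a.val : ℤ) (ModularGroup.T • z) = Y f (1 / p) p ((a.val : ℤ) + 1) z := by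
        rw [Y, Y]
        congr 1
        apply UpperHalfPlane.ext
        rw [mv_coe hpi, mv_coe hpi, hT]
        push_cast
        field_simp
        ring
      rw [h2]
      apply Y_congr f hpi hp
      rw [← ZMod.intCast_zmod_eq_zero_iff_dvd]
      push_cast
      rw [ZMod.natCast_zmod_val, ZMod.natCast_zmod_val]
      ring
    rw [Finset.sum_congr rfl (fun a _ => h1 a)]
    exact Equiv.sum_comp (Equiv.addRight (1 : ZMod p)) (fun a => Y f (1 / p) p (a.val : ℤ) z)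

lemma coe_S (z : ℍ) : ((ModularGroup.S • z : ℍ) : ℂ) = (-(z:ℂ))⁻¹ := by
  rw [modular_S_smul]

lemma HT_S (p : ℕ) (hprime : p.Prime) (f : S0) (z : ℍ) : HT p (f : ℍ →ᵇ ℂ) (ModularGroup.S • z) = HT p (f : ℍ →ᵇ ℂ) z := by
  have hp : 0 < p := hprime.pos
  have : NeZero p := ⟨hp.ne'⟩
  have : Fact p.Prime := ⟨hprime⟩
  have hpr : (0:ℝ) < p := by exact_mod_cast hp
  have hpi : (0:ℝ) < 1 / p := by positivity
  have hpc : (p : ℂ) ≠ 0 := by exact_mod_cast hp.ne'
  have hz : (z : ℂ) ≠ 0 := UpperHalfPlane.ne_zero z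
  rw [HT_eq, HT_eq]
  have h0 : (f : ℍ →ᵇ ℂ) (mv p 0 (ModularGroup.S • z)) = Y f (1 / p) p ((0 : ZMod p).val : ℤ) z := by
    rw [Y, ← S0_mod f ModularGroup.S]
    congr 1
    apply UpperHalfPlane.ext
    rw [coe_S, mv_coe hpr, coe_S, mv_coe hpi]
    rw [ZMod.val_zero]
    push_cast
    field_simp
    ring_nf
    field_simp
  have h1 : Y f (1 / p) p ((0 : ZMod p).val : ℤ) (ModularGroup.S • z) = (f : ℍ →ᵇ ℂ) (mv p 0 z) := by
    rw [Y, ← S0_mod f ModularGroup.S (mv p 0 z)]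
    congr 1
    apply UpperHalfPlane.ext
    rw [mv_coe hpi, coe_S, coe_S, mv_coe hpr]
    rw [ZMod.val_zero]
    push_cast
    field_simp
    ring
  have h2 : ∀ a : ZMod p, a ≠ 0 → Y f (1 / p) p (a.val : ℤ) (ModularGroup.S • z) = Y f (1 / p) p ((-a⁻¹ : ZMod p).val : ℤ) z := by
    intro a ha
    set b : ℤ := (a.val : ℤ) with hb
    set c : ℤ := ((-a⁻¹ : ZMod p).val : ℤ) with hc
    have hbc : (p : ℤ) ∣ b * c + 1 := by
      rw [← ZMod.intCast_zmod_eq_zero_iff_dvd]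
      push_cast
      rw [hb, hc]
      push_cast
      rw [ZMod.natCast_zmod_val, ZMod.natCast_zmod_val]
      field_simp
      ring
    obtain ⟨k, hk⟩ := hbc
    have hdet : Matrix.det !![b, -k; (p:ℤ), -c] = 1 := by
      rw [Matrix.det_fin_two_of]
      linear_combination -hk
    let γ : SL(2, ℤ) := ⟨!![b, -k; (p:ℤ), -c], hdet⟩
    rw [Y, Y, ← S0_mod f γ (mv (1 / p) (c / p) z)]
    congr 1
    apply UpperHalfPlane.ext
    rw [mv_coe hpi, coe_S, coe_specialLinearGroup_apply, mv_coe hpi]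
    simp only [γ, Matrix.of_apply, Matrix.cons_val', Matrix.cons_val_zero,
      Matrix.cons_val_one, Matrix.cons_val_fin_one, algebraMap_int_eq, eq_intCast]
    have hk' : (b : ℂ) * c + 1 = p * k := by exact_mod_cast hk
    push_cast
    have hden : (p : ℂ) * (1 / p * z + c / p) + -c = z := by
      field_simp
      ring
    rw [hden, eq_div_iff hz]
    field_simp
    linear_combination -hk'
  have h3 : ∀ a : ZMod p, Y f (1 / p) p (a.val : ℤ) (ModularGroup.S • z) =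
      Y f (1 / p) p ((-a⁻¹ : ZMod p).val : ℤ) z +
      (if a = 0 then ((f : ℍ →ᵇ ℂ) (mv p 0 z) - Y f (1 / p) p ((0 : ZMod p).val : ℤ) z) else 0) := by
    intro a
    split_ifs with ha
    · subst ha
      rw [h1, inv_zero, neg_zero]
      ring
    · rw [h2 a ha, add_zero]
  rw [h0, Finset.sum_congr rfl (fun a _ => h3 a), Finset.sum_add_distrib, Finset.sum_ite_eq']
  simp only [Finset.mem_univ, if_true]
  have h4 : ∑ a : ZMod p, Y f (1 / p) p ((-a⁻¹ : ZMod p).val : ℤ) z = ∑ a : ZMod p, Y f (1 / p) p (a.val : ℤ) z := by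
    let φ : ZMod p ≃ ZMod p :=
      { toFun := fun a => -a⁻¹
        invFun := fun a => -a⁻¹
        left_inv := fun a => by simp [inv_neg]
        right_inv := fun a => by simp [inv_neg] }
    exact Equiv.sum_comp φ (fun a => Y f (1 / p) p (a.val : ℤ) z)
  rw [h4]
  ring

lemma HT_mod (p : ℕ) (hprime : p.Prime) (f : S0) (γ : SL(2, ℤ)) (z : ℍ) :
    HT p (f : ℍ →ᵇ ℂ) (γ • z) = HT p (f : ℍ →ᵇ ℂ) z := by
  have : NeZero p := ⟨hprime.pos.ne'⟩
  have hmem : γ ∈ Subgroup.closure ({ModularGroup.S, ModularGroup.T} : Set SL(2, ℤ)) := by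
    rw [SpecialLinearGroup.SL2Z_generators]; exact Subgroup.mem_top _
  revert z
  induction hmem using Subgroup.closure_induction with
  | mem x hx =>
    intro z
    rcases hx with rfl | hx
    · exact HT_S p hprime f z
    · rw [mem_singleton_iff.mp hx]; exact HT_T p f z
  | one => intro z; rw [one_smul]
  | mul x y _ _ hx hy => intro z; rw [mul_smul, hx, hy]
  | inv x _ hx => intro z; rw [← hx (x⁻¹ • z), smul_inv_smul]

lemma HT_odd (p : ℕ) (hprime : p.Prime) (f : S0) (z : ℍ) :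
    HT p (f : ℍ →ᵇ ℂ) (J • z) = - HT p (f : ℍ →ᵇ ℂ) z := by
  have hp : 0 < p := hprime.pos
  have : NeZero p := ⟨hp.ne'⟩
  have hpr : (0:ℝ) < p := by exact_mod_cast hp
  have hpi : (0:ℝ) < 1 / p := by positivity
  rw [HT_eq, HT_eq]
  have h1 : (f : ℍ →ᵇ ℂ) (mv p 0 (J • z)) = - (f : ℍ →ᵇ ℂ) (mv p 0 z) := by
    rw [← S0_odd]
    congr 1
    apply UpperHalfPlane.ext
    rw [mv_coe hpr, coe_J_smul, coe_J_smul, mv_coe hpr]
    simp
  have h2 : ∀ a : ZMod p, Y f (1 / p) p (a.val : ℤ) (J • z) = - Y f (1 / p) p ((-a : ZMod p).val : ℤ) z := by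
    intro a
    have h3 : Y f (1 / p) p (a.val : ℤ) (J • z) = - Y f (1 / p) p (-(a.val : ℤ)) z := by
      rw [Y, Y, ← S0_odd]
      congr 1
      apply UpperHalfPlane.ext
      rw [mv_coe hpi, coe_J_smul, coe_J_smul, mv_coe hpi]
      simp
      ring
    rw [h3]
    congr 1
    apply Y_congr f hpi hp
    rw [← ZMod.intCast_zmod_eq_zero_iff_dvd]
    push_cast
    rw [ZMod.natCast_zmod_val, ZMod.natCast_zmod_val]
    ring
  rw [h1, Finset.sum_congr rfl (fun a _ => h2 a), Finset.sum_neg_distrib]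
  have h5 : ∑ a : ZMod p, Y f (1 / p) p ((-a : ZMod p).val : ℤ) z = ∑ a : ZMod p, Y f (1 / p) p (a.val : ℤ) z :=
    Equiv.sum_comp (Equiv.neg (ZMod p)) (fun a => Y f (1 / p) p (a.val : ℤ) z)
  rw [h5]
  ring

end Pool.Agent.H59R3.M17
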