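import Pool.Agent.H59R3.M17.E4b

set_option autoImplicit false

open Real Set Filter Topology MeasureTheory UpperHalfPlane
open scoped MatrixGroups Modular BoundedContinuousFunction ENNReal NNReal ComplexConjugate

namespace Pool.Agent.H59R3.M17

lemma HT_continuous {p : ℕ} (hp : 0 < p) {f : ℍ → ℂ} (hf : Continuous f) : Continuous (HT p f) := by
  have hpr : (0:ℝ) < p := by exact_mod_cast hp
  have hpi : (0:ℝ) < 1 / p := by positivity
  unfold HT
  refine (hf.comp (mv_cont hpr 0)).add (continuous_finsetSum _ fun b _ => hf.comp (mv_cont hpi _))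

lemma HT_bound (p : ℕ) {f : ℍ → ℂ} {C : ℝ} (hC : ∀ w, ‖f w‖ ≤ C) (z : ℍ) : ‖HT p f z‖ ≤ (p + 1) * C := by
  unfold HT
  refine (norm_add_le _ _).trans ?_
  have h1 : ‖∑ b ∈ Finset.range p, f (mv (1 / p) (b / p) z)‖ ≤ p * C := by
    refine (norm_sum_le _ _).trans ?_
    refine (Finset.sum_le_sum fun b _ => hC _).trans ?_
    simp
  have h2 := hC (mv p 0 z)
  linarith

/-- Hecke operator on bounded continuous functions -/
noncomputable def HB {p : ℕ} (hp : p.Prime) (f : S0) : ℍ →ᵇ ℂ :=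
  BoundedContinuousFunction.ofNormedAddCommGroup (HT p (f : ℍ →ᵇ ℂ))
    (HT_continuous hp.pos (f : ℍ →ᵇ ℂ).continuous) ((p + 1) * ‖f‖) (fun z => HT_bound p (fun w => S0_norm f w) z)

/-- Hecke operator on the space of odd automorphic functions -/
noncomputable def HS {p : ℕ} (hp : p.Prime) : Module.End ℂ S0 where
  toFun f := ⟨HB hp f, fun γ z => HT_mod p hp f γ z, fun z => HT_odd p hp f z⟩
  map_add' f g := by
    apply Subtype.ext
    apply BoundedContinuousFunction.ext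
    intro z
    change HT p _ z = HT p _ z + HT p _ z
    simp only [HT, Submodule.coe_add, BoundedContinuousFunction.coe_add, Pi.add_apply, Finset.sum_add_distrib]
    ring
  map_smul' c f := by
    apply Subtype.ext
    apply BoundedContinuousFunction.ext
    intro z
    change HT p _ z = c * HT p _ z
    simp only [HT, Submodule.coe_smul, BoundedContinuousFunction.coe_smul, smul_eq_mul, mul_add,
      Finset.mul_sum]

lemma HS_apply {p : ℕ} (hp : p.Prime) (f : S0) (z : ℍ) :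
    ((HS hp f : S0) : ℍ →ᵇ ℂ) z = HT p (f : ℍ →ᵇ ℂ) z := rfl

lemma Lop_mv (ρ : ℝ → ℝ) (f : ℍ → ℂ) {s : ℝ} (hs : 0 < s) (t : ℝ) (z : ℍ) :
    Lop ρ (fun w => f (mv s t w)) z = Lop ρ f (mv s t z) := by
  obtain ⟨g, hg⟩ := mv_gl hs t
  rw [hg z, Lop_gl]
  congr 1
  funext w
  rw [hg w]

lemma HS_LS {ρ : ℝ → ℝ} {R : ℝ} (hk : Ker ρ R) {p : ℕ} (hp : p.Prime) (f : S0) :
    LS hk (HS hp f) = HS hp (LS hk f) := by
  have hpr : (0:ℝ) < p := by exact_mod_cast hp.pos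
  have hpi : (0:ℝ) < 1 / p := by positivity
  apply Subtype.ext
  apply BoundedContinuousFunction.ext
  intro z
  have h1 : ((LS hk (HS hp f) : S0) : ℍ →ᵇ ℂ) z = Lop ρ (HT p (f : ℍ →ᵇ ℂ)) z := rfl
  have h2 : ((HS hp (LS hk f) : S0) : ℍ →ᵇ ℂ) z = HT p (Lop ρ (f : ℍ →ᵇ ℂ)) z := rfl
  rw [h1, h2]
  have hc : ∀ s : ℝ, 0 < s → ∀ t : ℝ, Continuous (fun w => (f : ℍ →ᵇ ℂ) (mv s t w)) :=
    fun s hs t => (f : ℍ →ᵇ ℂ).continuous.comp (mv_cont hs t)
  have hI : ∀ s : ℝ, 0 < s → ∀ t : ℝ, Integrable (fun w => (kf ρ z w : ℂ) * (f : ℍ →ᵇ ℂ) (mv s t w)) :=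
    fun s hs t => hk.integrable (hc s hs t) (fun w => S0_norm f _) z
  have h3 : Lop ρ (HT p (f : ℍ →ᵇ ℂ)) z = Lop ρ (fun w => (f : ℍ →ᵇ ℂ) (mv p 0 w)) z +
      ∑ b ∈ Finset.range p, Lop ρ (fun w => (f : ℍ →ᵇ ℂ) (mv (1 / p) (b / p) w)) z := by
    unfold Lop
    rw [← integral_finsetSum _ (fun b _ => hI _ hpi _), ← integral_add (hI _ hpr _)
      (integrable_finsetSum _ (fun b _ => hI _ hpi _))]
    congr 1
    funext w
    rw [HT, mul_add, Finset.mul_sum]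
  rw [h3, Lop_mv ρ _ hpr, HT]
  congr 1
  refine Finset.sum_congr rfl fun b _ => ?_
  rw [Lop_mv ρ _ hpi]

lemma digits (p q : ℕ) (g : ℕ → ℂ) :
    ∑ b ∈ Finset.range p, ∑ c ∈ Finset.range q, g (b + p * c) = ∑ m ∈ Finset.range (p * q), g m := by
  rw [Finset.sum_comm]
  induction q with
  | zero => simp
  | succ q ih =>
    rw [Finset.sum_range_succ, ih, mul_add, mul_one, Finset.sum_range_add]
    congr 1
    refine Finset.sum_congr rfl fun b _ => ?_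
    rw [add_comm]

lemma Y_perm (f : S0) {s : ℝ} (hs : 0 < s) {p q : ℕ} (hp : p.Prime) (hpq : Nat.Coprime q p) (z : ℍ) :
    ∑ b ∈ Finset.range p, Y f s p ((q * b : ℕ) : ℤ) z = ∑ b ∈ Finset.range p, Y f s p (b : ℤ) z := by
  have : NeZero p := ⟨hp.ne_zero⟩
  rw [sum_range_zmod p (fun b => Y f s p ((q * b : ℕ) : ℤ) z), sum_range_zmod p (fun b => Y f s p (b : ℤ) z)]
  have h1 : ∀ a : ZMod p, Y f s p ((q * a.val : ℕ) : ℤ) z = Y f s p (((q : ZMod p) * a).val : ℤ) z := by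
    intro a
    apply Y_congr f hs hp.pos
    rw [← ZMod.intCast_zmod_eq_zero_iff_dvd]
    push_cast
    rw [ZMod.natCast_zmod_val, ZMod.natCast_zmod_val]
    ring
  rw [Finset.sum_congr rfl (fun a _ => h1 a)]
  let u : (ZMod p)ˣ := ZMod.unitOfCoprime q hpq
  exact Equiv.sum_comp (Units.mulLeft u) (fun a => Y f s p ((a : ZMod p).val : ℤ) z)

lemma HT_HT (f : S0) {p q : ℕ} (hp : p.Prime) (hq : q.Prime) (hpq : p ≠ q) (z : ℍ) :
    HT p (HT q (f : ℍ →ᵇ ℂ)) z = (f : ℍ →ᵇ ℂ) (mv (p * q) 0 z) +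
      ∑ c ∈ Finset.range q, Y f (p / q) q (c : ℤ) z + ∑ b ∈ Finset.range p, Y f (q / p) p (b : ℤ) z +
      ∑ m ∈ Finset.range (p * q), Y f (1 / (p * q)) (p * q) (m : ℤ) z := by
  have hpr : (0:ℝ) < p := by exact_mod_cast hp.pos
  have hpi : (0:ℝ) < 1 / p := by positivity
  have hqr : (0:ℝ) < q := by exact_mod_cast hq.pos
  have hqi : (0:ℝ) < 1 / q := by positivity
  have hcop : Nat.Coprime q p := (Nat.coprime_primes hq hp).mpr (Ne.symm hpq)
  rw [← Y_perm f (s := q / p) (by positivity) hp hcop z,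
    ← digits p q (fun m => Y f (1 / (p * q)) (p * q) (m : ℤ) z)]
  rw [HT]
  simp only [HT]
  rw [Finset.sum_add_distrib]
  have e1 : (f : ℍ →ᵇ ℂ) (mv q 0 (mv p 0 z)) = (f : ℍ →ᵇ ℂ) (mv (p * q) 0 z) := by
    rw [mv_mv hqr hpr]
    congr 2
    · ring
    · ring
  have e2 : ∀ c : ℕ, (f : ℍ →ᵇ ℂ) (mv (1 / q) (c / q) (mv p 0 z)) = Y f (p / q) q (c : ℤ) z := by
    intro c
    rw [mv_mv hqi hpr, Y]
    congr 2
    · ring
    · push_cast; ring
  have e3 : ∀ b : ℕ, (f : ℍ →ᵇ ℂ) (mv q 0 (mv (1 / p) (b / p) z)) = Y f (q / p) p ((q * b : ℕ) : ℤ) z := by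
    intro b
    rw [mv_mv hqr hpi, Y]
    congr 2
    · ring
    · push_cast; ring
  have e4 : ∀ b c : ℕ, (f : ℍ →ᵇ ℂ) (mv (1 / q) (c / q) (mv (1 / p) (b / p) z)) =
      Y f (1 / (p * q)) (p * q) ((b + p * c : ℕ) : ℤ) z := by
    intro b c
    rw [mv_mv hqi hpi, Y]
    congr 2
    · field_simp
    · push_cast; field_simp
  rw [e1, Finset.sum_congr rfl (fun c _ => e2 c), Finset.sum_congr rfl (fun b _ => e3 b),
    Finset.sum_congr rfl (fun b _ => Finset.sum_congr rfl (fun c _ => e4 b c))]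
  ring

lemma HS_comm {p q : ℕ} (hp : p.Prime) (hq : q.Prime) (f : S0) :
    HS hp (HS hq f) = HS hq (HS hp f) := by
  by_cases hpq : p = q
  · subst hpq; rfl
  apply Subtype.ext
  apply BoundedContinuousFunction.ext
  intro z
  have h1 : ((HS hp (HS hq f) : S0) : ℍ →ᵇ ℂ) z = HT p (HT q (f : ℍ →ᵇ ℂ)) z := rfl
  have h2 : ((HS hq (HS hp f) : S0) : ℍ →ᵇ ℂ) z = HT q (HT p (f : ℍ →ᵇ ℂ)) z := rfl
  rw [h1, h2, HT_HT f hp hq hpq, HT_HT f hq hp (Ne.symm hpq)]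
  have e1 : ((p : ℝ) * q) = q * p := mul_comm _ _
  have e2 : p * q = q * p := mul_comm _ _
  rw [e1, e2]
  ring

/-- A joint eigenfunction of two kernel operators and all Hecke operators. -/
theorem exists_joint {ρ ρ2 : ℝ → ℝ} {R R2 : ℝ} (hk : Ker ρ R) (hk2 : Ker ρ2 R2) (h0 : LS hk f0 ≠ 0) :
    ∃ (f : S0) (κ κ2 : ℂ) (c : ℕ → ℂ), f ≠ 0 ∧ κ ≠ 0 ∧ conj κ = κ ∧ conj κ2 = κ2 ∧
      LS hk f = κ • f ∧ LS hk2 f = κ2 • f ∧
      ∀ p : ℕ, p.Prime → ∀ z, HT p (f : ℍ →ᵇ ℂ) z = c p * (f : ℍ →ᵇ ℂ) z := by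
  obtain ⟨κ, hκ, hev⟩ := exists_eigenvalue hk f0 h0
  have hfd := finDim_eigenspace hk hκ
  set E := Module.End.eigenspace (LS hk : Module.End ℂ S0) κ with hE
  have hnt : Nontrivial E := by
    rw [Submodule.nontrivial_iff_ne_bot]
    exact hev
  have hmem : ∀ v : S0, v ∈ E ↔ LS hk v = κ • v := fun v => Module.End.mem_eigenspace_iff
  have hm1 : ∀ v ∈ E, (LS hk2 : Module.End ℂ S0) v ∈ E := by
    intro v hv
    rw [hmem] at hv ⊢
    change LS hk (LS hk2 v) = κ • LS hk2 v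
    rw [LS_comm, hv, map_smul]
  have hm2 : ∀ (p : {p : ℕ // p.Prime}), ∀ v ∈ E, HS p.2 v ∈ E := by
    intro p v hv
    rw [hmem] at hv ⊢
    rw [HS_LS, hv, map_smul]
  let T : Option {p : ℕ // p.Prime} → Module.End ℂ E := fun i =>
    match i with
    | none => LinearMap.restrict (LS hk2 : Module.End ℂ S0) hm1
    | some p => LinearMap.restrict (HS p.2) (hm2 p)
  have hcomm : ∀ i j v, T i (T j v) = T j (T i v) := by
    intro i j v
    apply Subtype.ext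
    cases i with
    | none =>
      cases j with
      | none => rfl
      | some q => exact HS_LS hk2 q.2 (v : S0)
    | some p =>
      cases j with
      | none => exact (HS_LS hk2 p.2 (v : S0)).symm
      | some q => exact HS_comm p.2 q.2 (v : S0)
  have : FiniteDimensional ℂ E := hfd
  obtain ⟨v, hv0, hv⟩ := exists_common_eigenvector (V := E) T hcomm
  have hv0' : (v : S0) ≠ 0 := fun h => hv0 (Subtype.ext h)
  have hvE : LS hk (v : S0) = κ • (v : S0) := (hmem _).mp v.2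
  obtain ⟨κ2, hκ2⟩ := hv none
  have hκ2' : LS hk2 (v : S0) = κ2 • (v : S0) := congrArg Subtype.val hκ2
  have hex : ∀ p : ℕ, ∃ c : ℂ, p.Prime → ∀ z, HT p ((v : S0) : ℍ →ᵇ ℂ) z = c * ((v : S0) : ℍ →ᵇ ℂ) z := by
    intro p
    by_cases hp : p.Prime
    · obtain ⟨c, hc⟩ := hv (some ⟨p, hp⟩)
      refine ⟨c, fun _ z => ?_⟩
      have h1 : HS hp (v : S0) = c • (v : S0) := congrArg Subtype.val hc
      rw [← HS_apply hp, h1]
      rfl
    · exact ⟨0, fun h => absurd h hp⟩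
  choose c hc using hex
  exact ⟨v, κ, κ2, c, hv0', hκ, eigenvalue_real hk hv0' hvE, eigenvalue_real hk2 hv0' hκ2', hvE, hκ2', hc⟩

end Pool.Agent.H59R3.M17
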