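import Pool.Agent.H59R3.M17.E4b

set_option autoImplicit false

open Real Set Filter Topology MeasureTheory UpperHalfPlane
open scoped MatrixGroups Modular BoundedContinuousFunction ENNReal NNReal ComplexConjugate ContDiff

namespace Pool.Agent.H59R3.M17

/-- the upper half plane in real coordinates -/
def Om : Set (ℝ × ℝ) := {v | 0 < v.2}

lemma Om_open : IsOpen Om := isOpen_lt continuous_const continuous_snd

/-- coordinates of a point -/
noncomputable def cw (w : ℍ) : ℝ × ℝ := (w.re, w.im)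

lemma cw_mem (w : ℍ) : cw w ∈ Om := w.im_pos

lemma cw_cont : Continuous cw := by
  unfold cw
  exact UpperHalfPlane.continuous_re.prodMk UpperHalfPlane.continuous_im

/-- point of given coordinates -/
noncomputable def P (p : ℝ × ℝ) : ℍ := pt p.1 p.2

lemma P_cw (w : ℍ) : P (cw w) = w := pt_of w

lemma P_contAt {p : ℝ × ℝ} (hp : p ∈ Om) : ContinuousAt P p := by
  have h1 : Topology.IsEmbedding (UpperHalfPlane.coe) := UpperHalfPlane.isEmbedding_coe
  rw [h1.continuousAt_iff]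
  have h2 : (UpperHalfPlane.coe ∘ P) =ᶠ[𝓝 p] fun v : ℝ × ℝ => (v.1 : ℂ) + (v.2 : ℂ) * Complex.I := by
    filter_upwards [Om_open.mem_nhds hp] with v hv
    exact pt_coe hv
  apply ContinuousAt.congr _ h2.symm
  fun_prop

/-- admissible kernels with values in a normed space -/
structure Adm {E : Type*} [NormedAddCommGroup E] [NormedSpace ℝ E] (K : (ℝ × ℝ) × (ℝ × ℝ) → E) (R : ℝ) : Prop where
  smooth : ∀ p ∈ Om, ∀ q ∈ Om, ContDiffAt ℝ ∞ K (p, q)
  supp : ∀ p ∈ Om, ∀ q ∈ Om, R ≤ dist (P p) (P q) → K (p, q) = 0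

/-- derivative of a kernel in the first variable -/
noncomputable def dK {E : Type*} [NormedAddCommGroup E] [NormedSpace ℝ E] (K : (ℝ × ℝ) × (ℝ × ℝ) → E) :
    (ℝ × ℝ) × (ℝ × ℝ) → ((ℝ × ℝ) →L[ℝ] E) := fun v => fderiv ℝ (fun p => K (p, v.2)) v.1

section
variable {E : Type*} [NormedAddCommGroup E] [NormedSpace ℝ E] {K : (ℝ × ℝ) × (ℝ × ℝ) → E} {R : ℝ}

lemma Adm.dK (h : Adm K R) : Adm (dK K) (R + 1) where
  smooth := by
    intro p hp q hq
    unfold Pool.Agent.H59R3.M17.dK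
    have h1 : ContDiffAt ℝ ∞ (Function.uncurry (fun (v : (ℝ × ℝ) × (ℝ × ℝ)) (p' : ℝ × ℝ) => K (p', v.2)))
        ((p, q), (fun v : (ℝ × ℝ) × (ℝ × ℝ) => v.1) (p, q)) := by
      have h2 : ContDiffAt ℝ ∞ (fun v : ((ℝ × ℝ) × (ℝ × ℝ)) × (ℝ × ℝ) => (v.2, v.1.2)) ((p, q), p) := by
        fun_prop
      exact ContDiffAt.comp ((p, q), p) (h.smooth p hp q hq) h2
    exact ContDiffAt.fderiv (m := ∞) h1 contDiffAt_fst (by simp)
  supp := by
    intro p hp q hq hd
    unfold Pool.Agent.H59R3.M17.dK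
    have h1 : (fun p' => K (p', q)) =ᶠ[𝓝 p] fun _ => 0 := by
      have h2 := (P_contAt hp).preimage_mem_nhds (Metric.ball_mem_nhds (P p) one_pos)
      filter_upwards [h2, Om_open.mem_nhds hp] with p' hp' hp'2
      apply h.supp p' hp'2 q hq
      have h3 : dist (P p') (P p) < 1 := hp'
      have h4 := dist_triangle (P p) (P p') (P q)
      rw [dist_comm (P p) (P p')] at h4
      linarith
    change fderiv ℝ (fun p' => K (p', q)) p = 0
    rw [h1.fderiv_eq]
    simp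

lemma Adm.hasFDerivAt (h : Adm K R) {p q : ℝ × ℝ} (hp : p ∈ Om) (hq : q ∈ Om) :
    HasFDerivAt (fun p => K (p, q)) (Pool.Agent.H59R3.M17.dK K (p, q)) p := by
  have h1 : ContDiffAt ℝ ∞ (fun p' : ℝ × ℝ => K (p', q)) p := by
    have h2 : ContDiffAt ℝ ∞ (fun v : ℝ × ℝ => (v, q)) p := by fun_prop
    exact ContDiffAt.comp p (h.smooth p hp q hq) h2
  exact (h1.differentiableAt (by simp)).hasFDerivAt

lemma Adm.cont (h : Adm K R) : ContinuousOn (fun v : (ℝ × ℝ) × ℍ => K (v.1, cw v.2)) (Om ×ˢ univ) := by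
  intro v hv
  apply ContinuousAt.continuousWithinAt
  have h1 : ContinuousAt K (v.1, cw v.2) := (h.smooth v.1 hv.1 (cw v.2) (cw_mem _)).continuousAt
  have h2 : ContinuousAt (fun v : (ℝ × ℝ) × ℍ => (v.1, cw v.2)) v := by
    have := cw_cont
    fun_prop
  exact ContinuousAt.comp (f := fun v : (ℝ × ℝ) × ℍ => (v.1, cw v.2)) (x := v) h1 h2

variable [NormedSpace ℂ E]

/-- the integral operator -/
noncomputable def IK (f : ℍ → ℂ) (K : (ℝ × ℝ) × (ℝ × ℝ) → E) (p : ℝ × ℝ) : E := ∫ w, f w • K (p, cw w)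

lemma Adm.local (h : Adm K R) {f : ℍ → ℂ} {C : ℝ} (hC : ∀ w, ‖f w‖ ≤ C) {p : ℝ × ℝ} (hp : p ∈ Om) :
    ∃ N ∈ 𝓝 p, N ⊆ Om ∧ ∃ b : ℍ → ℝ, Integrable b ∧ ∀ p' ∈ N, ∀ w, ‖f w • K (p', cw w)‖ ≤ b w := by
  have h2 := (P_contAt hp).preimage_mem_nhds (Metric.ball_mem_nhds (P p) one_pos)
  obtain ⟨N, hN1, hN2, hN3⟩ := local_compact_nhds (Filter.inter_mem h2 (Om_open.mem_nhds hp))
  refine ⟨N, hN1, fun v hv => (hN2 hv).2, ?_⟩
  set B := Metric.closedBall (P p) (R + 1) with hB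
  have hBc : IsCompact B := isCompact_closedBall _ _
  have hcomp : IsCompact (N ×ˢ B) := hN3.prod hBc
  obtain ⟨M, hM⟩ := hcomp.exists_bound_of_continuousOn
    (h.cont.mono (fun v hv => ⟨(hN2 hv.1).2, mem_univ _⟩))
  have hM0 : 0 ≤ |M| := abs_nonneg _
  refine ⟨B.indicator (fun _ => C * |M|), ?_, ?_⟩
  · rw [integrable_indicator_iff Metric.isClosed_closedBall.measurableSet]
    exact integrableOn_const hBc.measure_lt_top.ne
  · intro p' hp' w
    have hC0 : 0 ≤ C := (norm_nonneg _).trans (hC w)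
    by_cases hw : w ∈ B
    · rw [indicator_of_mem hw, norm_smul]
      have h3 := hM (p', w) ⟨hp', hw⟩
      exact mul_le_mul (hC w) (h3.trans (le_abs_self M)) (norm_nonneg _) hC0
    · rw [indicator_of_notMem hw]
      have h3 : K (p', cw w) = 0 := by
        apply h.supp p' (hN2 hp').2 _ (cw_mem w)
        rw [P_cw]
        have h4 : dist (P p') (P p) < 1 := (hN2 hp').1
        rw [hB, Metric.mem_closedBall, not_le] at hw
        have h5 := dist_triangle w (P p') (P p)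
        rw [dist_comm (P p') w]
        linarith
      rw [h3, smul_zero, norm_zero]

lemma Adm.meas [SecondCountableTopologyEither ℍ E] (h : Adm K R) {f : ℍ → ℂ} (hf : Continuous f)
    {p : ℝ × ℝ} (hp : p ∈ Om) : AEStronglyMeasurable (fun w => f w • K (p, cw w)) (volume : Measure ℍ) := by
  apply Continuous.aestronglyMeasurable
  have h1 : Continuous (fun w : ℍ => K (p, cw w)) := by
    rw [continuous_iff_continuousAt]
    intro w
    have h2 := h.cont.continuousAt (x := (p, w)) ((Om_open.prod isOpen_univ).mem_nhds ⟨hp, mem_univ _⟩)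
    have h3 : ContinuousAt (fun w : ℍ => ((p, w) : (ℝ × ℝ) × ℍ)) w := by fun_prop
    exact ContinuousAt.comp (f := fun w : ℍ => ((p, w) : (ℝ × ℝ) × ℍ)) (x := w) h2 h3
  exact hf.smul h1

lemma Adm.integrable [SecondCountableTopologyEither ℍ E] (h : Adm K R) {f : ℍ → ℂ} (hf : Continuous f) {C : ℝ} (hC : ∀ w, ‖f w‖ ≤ C)
    {p : ℝ × ℝ} (hp : p ∈ Om) : Integrable (fun w => f w • K (p, cw w)) (volume : Measure ℍ) := by
  obtain ⟨N, hN, -, b, hb, hbd⟩ := h.local hC hp
  exact hb.mono' (h.meas hf hp) (Eventually.of_forall fun w => hbd p (mem_of_mem_nhds hN) w)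

lemma Adm.continuousAt_IK (h : Adm K R) {f : ℍ → ℂ} (hf : Continuous f) {C : ℝ} (hC : ∀ w, ‖f w‖ ≤ C)
    {p : ℝ × ℝ} (hp : p ∈ Om) : ContinuousAt (IK f K) p := by
  obtain ⟨N, hN, hNO, b, hb, hbd⟩ := h.local hC hp
  refine continuousAt_of_dominated (bound := b) ?_ ?_ hb ?_
  · filter_upwards [hN] with v hv
    exact h.meas hf (hNO hv)
  · filter_upwards [hN] with v hv
    exact Eventually.of_forall fun w => hbd v hv w
  · refine Eventually.of_forall fun w => ?_
    have h1 : ContinuousAt (fun p' => K (p', cw w)) p := (h.hasFDerivAt hp (cw_mem w)).continuousAt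
    exact continuousAt_const.smul h1

lemma Adm.hasFDerivAt_IK [SMulCommClass ℝ ℂ E] (h : Adm K R) {f : ℍ → ℂ} (hf : Continuous f) {C : ℝ}
    (hC : ∀ w, ‖f w‖ ≤ C) {p : ℝ × ℝ} (hp : p ∈ Om) :
    HasFDerivAt (IK f K) (IK f (Pool.Agent.H59R3.M17.dK K) p) p := by
  obtain ⟨N, hN, hNO, b, hb, hbd⟩ := h.dK.local hC hp
  refine hasFDerivAt_integral_of_dominated_of_fderiv_le (𝕜 := ℝ) (H := ℝ × ℝ) (s := N) (bound := b)
    (F := fun p w => f w • K (p, cw w)) (F' := fun p w => f w • Pool.Agent.H59R3.M17.dK K (p, cw w)) hN ?_ ?_ ?_ ?_ hb ?_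
  · filter_upwards [hN] with v hv
    exact h.meas hf (hNO hv)
  · exact h.integrable hf hC hp
  · exact h.dK.meas hf hp
  · exact Eventually.of_forall fun w v hv => hbd v hv w
  · refine Eventually.of_forall fun w v hv => ?_
    exact (h.hasFDerivAt (hNO hv) (cw_mem w)).const_smul (f w)

end

end Pool.Agent.H59R3.M17
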