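import Pool.Agent.H59R3.M17.E5a

set_option autoImplicit false

open Real Set Filter Topology MeasureTheory UpperHalfPlane
open scoped MatrixGroups Modular BoundedContinuousFunction ENNReal NNReal ComplexConjugate ContDiff

namespace Pool.Agent.H59R3.M17

section
variable {E : Type} [NormedAddCommGroup E] [NormedSpace ℝ E] {K : (ℝ × ℝ) × (ℝ × ℝ) → E} {R : ℝ}
  [NormedSpace ℂ E] [SMulCommClass ℝ ℂ E]

omit [SMulCommClass ℝ ℂ E] in
lemma Adm.continuousOn_IK (h : Adm K R) {f : ℍ → ℂ} (hf : Continuous f) {C : ℝ}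
    (hC : ∀ w, ‖f w‖ ≤ C) : ContinuousOn (IK f K) Om :=
  fun _ hp => (h.continuousAt_IK hf hC hp).continuousWithinAt

lemma Adm.fderiv_IK (h : Adm K R) {f : ℍ → ℂ} (hf : Continuous f) {C : ℝ}
    (hC : ∀ w, ‖f w‖ ≤ C) {p : ℝ × ℝ} (hp : p ∈ Om) : fderiv ℝ (IK f K) p = IK f (Pool.Agent.H59R3.M17.dK K) p :=
  (h.hasFDerivAt_IK hf hC hp).fderiv

lemma Adm.contDiff_one (h : Adm K R) {f : ℍ → ℂ} (hf : Continuous f) {C : ℝ}
    (hC : ∀ w, ‖f w‖ ≤ C) : ContDiffOn ℝ 1 (IK f K) Om := by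
  rw [show (1 : WithTop ℕ∞) = 0 + 1 from rfl, contDiffOn_succ_iff_fderiv_of_isOpen Om_open]
  refine ⟨fun p hp => (h.hasFDerivAt_IK hf hC hp).differentiableAt.differentiableWithinAt, by simp, ?_⟩
  rw [contDiffOn_zero]
  refine (h.dK.continuousOn_IK hf hC).congr fun p hp => ?_
  exact h.fderiv_IK hf hC hp

lemma Adm.contDiff_two (h : Adm K R) {f : ℍ → ℂ} (hf : Continuous f) {C : ℝ}
    (hC : ∀ w, ‖f w‖ ≤ C) : ContDiffOn ℝ 2 (IK f K) Om := by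
  rw [show (2 : WithTop ℕ∞) = 1 + 1 from rfl, contDiffOn_succ_iff_fderiv_of_isOpen Om_open]
  refine ⟨fun p hp => (h.hasFDerivAt_IK hf hC hp).differentiableAt.differentiableWithinAt, by simp, ?_⟩
  refine (h.dK.contDiff_one hf hC).congr fun p hp => ?_
  exact h.fderiv_IK hf hC hp

end

/-- second derivatives along the axes -/
lemma second_x {G : ℝ × ℝ → ℂ} {G1 : ℝ × ℝ → (ℝ × ℝ) →L[ℝ] ℂ} {G2 : (ℝ × ℝ) →L[ℝ] (ℝ × ℝ) →L[ℝ] ℂ} {x y : ℝ}
    (hy : 0 < y) (h1 : ∀ p ∈ Om, HasFDerivAt G (G1 p) p) (h2 : HasFDerivAt G1 G2 (x, y)) :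
    HasDerivAt (fun s => deriv (fun t => G (t, y)) s) (G2 (1, 0) (1, 0)) x := by
  have e1 : ∀ s, deriv (fun t => G (t, y)) s = G1 (s, y) (1, 0) := by
    intro s
    have h3 : HasDerivAt (fun t : ℝ => (t, y)) (1, 0) s := (hasDerivAt_id s).prodMk (hasDerivAt_const s y)
    exact ((h1 (s, y) hy).comp_hasDerivAt s h3).deriv
  simp only [e1]
  have h3 : HasDerivAt (fun t : ℝ => (t, y)) (1, 0) x := (hasDerivAt_id x).prodMk (hasDerivAt_const x y)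
  have h4 : HasDerivAt (fun s => G1 (s, y)) (G2 (1, 0)) x := h2.comp_hasDerivAt x h3
  exact h4.clm_apply (hasDerivAt_const x _) |>.congr_deriv (by simp)

lemma second_y {G : ℝ × ℝ → ℂ} {G1 : ℝ × ℝ → (ℝ × ℝ) →L[ℝ] ℂ} {G2 : (ℝ × ℝ) →L[ℝ] (ℝ × ℝ) →L[ℝ] ℂ} {x y : ℝ}
    (hy : 0 < y) (h1 : ∀ p ∈ Om, HasFDerivAt G (G1 p) p) (h2 : HasFDerivAt G1 G2 (x, y)) :
    HasDerivAt (fun s => deriv (fun t => G (x, t)) s) (G2 (0, 1) (0, 1)) y := by
  have h3 : ∀ s : ℝ, HasDerivAt (fun t : ℝ => (x, t)) (0, 1) s := fun s =>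
    (hasDerivAt_const s x).prodMk (hasDerivAt_id s)
  have e1 : (fun s => deriv (fun t => G (x, t)) s) =ᶠ[𝓝 y] fun s => G1 (x, s) (0, 1) := by
    filter_upwards [lt_mem_nhds hy] with s hs
    exact ((h1 (x, s) hs).comp_hasDerivAt s (h3 s)).deriv
  have h4 : HasDerivAt (fun s => G1 (x, s)) (G2 (0, 1)) y := h2.comp_hasDerivAt y (h3 y)
  have h5 : HasDerivAt (fun s => G1 (x, s) (0, 1)) (G2 (0, 1) (0, 1)) y :=
    h4.clm_apply (hasDerivAt_const y _) |>.congr_deriv (by simp)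
  exact h5.congr_of_eventuallyEq e1

/-- Laplacian of the integral operator -/
lemma Adm.laplace {K : (ℝ × ℝ) × (ℝ × ℝ) → ℂ} {R : ℝ} (h : Adm K R) {f : ℍ → ℂ} (hf : Continuous f) {C : ℝ}
    (hC : ∀ w, ‖f w‖ ≤ C) {x y : ℝ} (hy : 0 < y) :
    deriv (fun s => deriv (fun t => IK f K (t, y)) s) x + deriv (fun s => deriv (fun t => IK f K (x, t)) s) y
     = ∫ w, f w * (deriv (fun s => deriv (fun t => K ((t, y), cw w)) s) x +
        deriv (fun s => deriv (fun t => K ((x, t), cw w)) s) y) := by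
  have hp : (x, y) ∈ Om := hy
  have h1 : ∀ p ∈ Om, HasFDerivAt (IK f K) (IK f (Pool.Agent.H59R3.M17.dK K) p) p := fun p hp =>
    h.hasFDerivAt_IK hf hC hp
  have h2 : HasFDerivAt (IK f (Pool.Agent.H59R3.M17.dK K)) (IK f (Pool.Agent.H59R3.M17.dK (Pool.Agent.H59R3.M17.dK K)) (x, y)) (x, y) :=
    h.dK.hasFDerivAt_IK hf hC hp
  rw [(second_x hy h1 h2).deriv, (second_y hy h1 h2).deriv]
  set D2 := Pool.Agent.H59R3.M17.dK (Pool.Agent.H59R3.M17.dK K) with hD2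
  have hint : Integrable (fun w => f w • D2 ((x, y), cw w)) (volume : Measure ℍ) := h.dK.dK.integrable hf hC hp
  let L : ((ℝ × ℝ) →L[ℝ] (ℝ × ℝ) →L[ℝ] ℂ) →L[ℝ] ℂ :=
    (ContinuousLinearMap.apply ℝ ℂ ((1:ℝ), (0:ℝ))).comp (ContinuousLinearMap.apply ℝ _ ((1:ℝ), (0:ℝ))) +
    (ContinuousLinearMap.apply ℝ ℂ ((0:ℝ), (1:ℝ))).comp (ContinuousLinearMap.apply ℝ _ ((0:ℝ), (1:ℝ)))
  have hL : ∀ A, L A = A (1, 0) (1, 0) + A (0, 1) (0, 1) := fun A => rfl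
  rw [← hL]
  rw [IK, ← ContinuousLinearMap.integral_comp_comm L hint]
  congr 1
  funext w
  rw [hL]
  have h3 : ∀ p ∈ Om, HasFDerivAt (fun p => K (p, cw w)) (Pool.Agent.H59R3.M17.dK K (p, cw w)) p := fun p hp =>
    h.hasFDerivAt hp (cw_mem w)
  have h4 : HasFDerivAt (fun p => Pool.Agent.H59R3.M17.dK K (p, cw w)) (D2 ((x, y), cw w)) (x, y) :=
    h.dK.hasFDerivAt hp (cw_mem w)
  rw [(second_x hy h3 h4).deriv, (second_y hy h3 h4).deriv]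
  simp only [_root_.smul_apply, smul_eq_mul]
  ring

end Pool.Agent.H59R3.M17
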