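import Pool.Agent.H59R3.M17.E5b

set_option autoImplicit false

open Real Set Filter Topology MeasureTheory UpperHalfPlane
open scoped MatrixGroups Modular BoundedContinuousFunction ENNReal NNReal ComplexConjugate ContDiff

namespace Pool.Agent.H59R3.M17

/-- `cosh` of the distance, in coordinates -/
noncomputable def Tt (v : (ℝ × ℝ) × (ℝ × ℝ)) : ℝ :=
  ((v.1.1 - v.2.1) ^ 2 + v.1.2 ^ 2 + v.2.2 ^ 2) / (2 * v.1.2 * v.2.2)

lemma Tt_eq {p q : ℝ × ℝ} (hp : p ∈ Om) (hq : q ∈ Om) : Tt (p, q) = Real.cosh (dist (P p) (P q)) := by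
  have hp' : 0 < p.2 := hp
  have hq' : 0 < q.2 := hq
  rw [UpperHalfPlane.cosh_dist, P, P, pt_coe hp', pt_coe hq', pt_im hp', pt_im hq', Tt, Complex.dist_eq,
    ← Complex.normSq_eq_norm_sq, Complex.normSq_apply]
  simp only [Complex.sub_re, Complex.add_re, Complex.ofReal_re, Complex.mul_re, Complex.I_re, mul_zero,
    Complex.ofReal_im, Complex.I_im, mul_one, sub_self, add_zero, Complex.sub_im, Complex.add_im,
    Complex.mul_im, zero_add]
  field_simp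
  ring

/-- the kernel in coordinates -/
noncomputable def Kr (ρ : ℝ → ℝ) (v : (ℝ × ℝ) × (ℝ × ℝ)) : ℂ := (ρ (Tt v) : ℂ)

lemma Ker.adm {ρ : ℝ → ℝ} {R : ℝ} (hk : Ker ρ R) : Adm (Kr ρ) R where
  smooth := by
    intro p hp q hq
    have hp' : 0 < p.2 := hp
    have hq' : 0 < q.2 := hq
    unfold Kr
    have h1 : ContDiffAt ℝ ∞ Tt (p, q) := by
      unfold Tt
      apply ContDiffAt.div
      · fun_prop
      · fun_prop
      · positivity
    have h2 : ContDiffAt ℝ ∞ (fun v => ρ (Tt v)) (p, q) := hk.smooth.contDiffAt.comp (p, q) h1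
    exact Complex.ofRealCLM.contDiff.contDiffAt.comp (p, q) h2
  supp := by
    intro p hp q hq hd
    have h1 : kf ρ (P p) (P q) = 0 := by
      apply hk.supp_ball
      rw [Metric.mem_ball, not_lt, dist_comm]
      exact hd
    rw [kf, ← Tt_eq hp hq] at h1
    rw [Kr, h1]; simp

lemma IK_Kr (ρ : ℝ → ℝ) (f : ℍ → ℂ) {p : ℝ × ℝ} (hp : p ∈ Om) : IK f (Kr ρ) p = Lop ρ f (P p) := by
  rw [IK, Lop]
  congr 1
  funext w
  rw [Kr, Tt_eq hp (cw_mem w), P_cw, kf, smul_eq_mul, mul_comm]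

lemma second_comp {ρ : ℝ → ℝ} (hρ : ContDiff ℝ ∞ ρ) {T T1 : ℝ → ℝ} {x t2 : ℝ}
    (h1 : ∀ᶠ s in 𝓝 x, HasDerivAt T (T1 s) s) (h2 : HasDerivAt T1 t2 x) :
    deriv (fun s => deriv (fun t => ((ρ (T t) : ℝ) : ℂ)) s) x =
      ((deriv (deriv ρ) (T x) * T1 x ^ 2 + deriv ρ (T x) * t2 : ℝ) : ℂ) := by
  have hρ1 : ∀ t, HasDerivAt ρ (deriv ρ t) t := fun t => (hρ.differentiable (by simp) t).hasDerivAt
  have hρ' : ContDiff ℝ ∞ (deriv ρ) := (contDiff_infty_iff_deriv.mp hρ).2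
  have hρ2 : ∀ t, HasDerivAt (deriv ρ) (deriv (deriv ρ) t) t := fun t => (hρ'.differentiable (by simp) t).hasDerivAt
  have e1 : (fun s => deriv (fun t => ((ρ (T t) : ℝ) : ℂ)) s) =ᶠ[𝓝 x] fun s => ((deriv ρ (T s) * T1 s : ℝ) : ℂ) := by
    filter_upwards [h1] with s hs
    exact (((hρ1 (T s)).comp s hs).ofReal_comp).deriv
  rw [e1.deriv_eq]
  have h3 : HasDerivAt (fun s => deriv ρ (T s) * T1 s)
      (deriv (deriv ρ) (T x) * T1 x * T1 x + deriv ρ (T x) * t2) x :=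
    ((hρ2 (T x)).comp x h1.self_of_nhds).mul h2
  rw [(h3.ofReal_comp).deriv]
  congr 1
  ring

/-- the kernel obtained by applying the Laplacian -/
noncomputable def tld (ρ : ℝ → ℝ) (t : ℝ) : ℝ := (t ^ 2 - 1) * deriv (deriv ρ) t + 2 * t * deriv ρ t

lemma Ker.tld {ρ : ℝ → ℝ} {R : ℝ} (hk : Ker ρ R) : Ker (tld ρ) (R + 1) where
  smooth := by
    have h1 : ContDiff ℝ ∞ (deriv ρ) := (contDiff_infty_iff_deriv.mp hk.smooth).2
    have h2 : ContDiff ℝ ∞ (deriv (deriv ρ)) := (contDiff_infty_iff_deriv.mp h1).2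
    unfold Pool.Agent.H59R3.M17.tld
    fun_prop
  supp := by
    intro t ht
    have h1 : ∀ s, R < s → deriv ρ s = 0 := by
      intro s hs
      have : ρ =ᶠ[𝓝 s] fun _ => 0 := by
        filter_upwards [Ioi_mem_nhds hs] with r hr
        exact hk.supp r (le_of_lt hr)
      rw [this.deriv_eq]; simp
    have h2 : deriv (deriv ρ) t = 0 := by
      have : deriv ρ =ᶠ[𝓝 t] fun _ => 0 := by
        filter_upwards [Ioi_mem_nhds (show R < t by linarith)] with r hr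
        exact h1 r hr
      rw [this.deriv_eq]; simp
    rw [Pool.Agent.H59R3.M17.tld, h2, h1 t (by linarith)]
    ring
  one_le := by have := hk.one_le; linarith

lemma lap_Kr {ρ : ℝ → ℝ} (hρ : ContDiff ℝ ∞ ρ) {x y u v : ℝ} (hy : 0 < y) (hv : 0 < v) :
    (y : ℂ) ^ 2 * (deriv (fun s => deriv (fun t => Kr ρ ((t, y), (u, v))) s) x +
      deriv (fun s => deriv (fun t => Kr ρ ((x, t), (u, v))) s) y) = Kr (tld ρ) ((x, y), (u, v)) := by
  have hy' := hy.ne'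
  have hv' := hv.ne'
  have e1 : deriv (fun s => deriv (fun t => Kr ρ ((t, y), (u, v))) s) x =
      ((deriv (deriv ρ) (Tt ((x, y), (u, v))) * ((x - u) / (y * v)) ^ 2 +
        deriv ρ (Tt ((x, y), (u, v))) * (1 / (y * v)) : ℝ) : ℂ) := by
    refine second_comp hρ (T := fun t => Tt ((t, y), (u, v))) (T1 := fun t => (t - u) / (y * v))
      (Eventually.of_forall fun s => ?_) ?_
    · unfold Tt
      have h1 : HasDerivAt (fun t : ℝ => ((t - u) ^ 2 + y ^ 2 + v ^ 2) / (2 * y * v))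
          ((2 * (s - u)) / (2 * y * v)) s := by
        have h2 : HasDerivAt (fun t : ℝ => (t - u) ^ 2 + y ^ 2 + v ^ 2) (2 * (s - u)) s := by
          have h3 := (((hasDerivAt_id s).sub_const u).pow 2).add_const (y ^ 2) |>.add_const (v ^ 2)
          refine h3.congr_deriv ?_
          simp
        exact h2.div_const _
      refine h1.congr_deriv ?_
      field_simp
    · exact ((hasDerivAt_id x).sub_const u).div_const _
  have e2 : deriv (fun s => deriv (fun t => Kr ρ ((x, t), (u, v))) s) y =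
      ((deriv (deriv ρ) (Tt ((x, y), (u, v))) * ((y ^ 2 - v ^ 2 - (x - u) ^ 2) / (2 * v * y ^ 2)) ^ 2 +
        deriv ρ (Tt ((x, y), (u, v))) * ((v ^ 2 + (x - u) ^ 2) / (v * y ^ 3)) : ℝ) : ℂ) := by
    refine second_comp hρ (T := fun t => Tt ((x, t), (u, v)))
      (T1 := fun t => (t ^ 2 - v ^ 2 - (x - u) ^ 2) / (2 * v * t ^ 2)) ?_ ?_
    · filter_upwards [lt_mem_nhds hy] with s hs
      have hs' := hs.ne'
      unfold Tt
      have h2 : HasDerivAt (fun t : ℝ => (x - u) ^ 2 + t ^ 2 + v ^ 2) (2 * s) s := by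
        have h3 := (((hasDerivAt_id s).pow 2).const_add ((x - u) ^ 2)).add_const (v ^ 2)
        refine h3.congr_deriv ?_
        simp
      have h4 : HasDerivAt (fun t : ℝ => 2 * t * v) (2 * v) s := by
        have := ((hasDerivAt_id s).const_mul 2).mul_const v
        refine this.congr_deriv ?_
        simp
      have h5 := h2.div h4 (by positivity)
      refine h5.congr_deriv ?_
      field_simp
      ring
    · have h2 : HasDerivAt (fun t : ℝ => t ^ 2 - v ^ 2 - (x - u) ^ 2) (2 * y) y := by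
        have h3 := (((hasDerivAt_id y).pow 2).sub_const (v ^ 2)).sub_const ((x - u) ^ 2)
        refine h3.congr_deriv ?_
        simp
      have h4 : HasDerivAt (fun t : ℝ => 2 * v * t ^ 2) (2 * v * (2 * y)) y := by
        have := ((hasDerivAt_id y).pow 2).const_mul (2 * v)
        refine this.congr_deriv ?_
        simp
      have h5 := h2.div h4 (by positivity)
      refine h5.congr_deriv ?_
      field_simp
      ring
  rw [e1, e2, Kr, Pool.Agent.H59R3.M17.tld]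
  have hT : Tt ((x, y), (u, v)) = ((x - u) ^ 2 + y ^ 2 + v ^ 2) / (2 * y * v) := rfl
  have key : y ^ 2 * ((deriv (deriv ρ) (Tt ((x, y), (u, v))) * ((x - u) / (y * v)) ^ 2 +
        deriv ρ (Tt ((x, y), (u, v))) * (1 / (y * v))) +
      (deriv (deriv ρ) (Tt ((x, y), (u, v))) * ((y ^ 2 - v ^ 2 - (x - u) ^ 2) / (2 * v * y ^ 2)) ^ 2 +
        deriv ρ (Tt ((x, y), (u, v))) * ((v ^ 2 + (x - u) ^ 2) / (v * y ^ 3)))) =
      (Tt ((x, y), (u, v)) ^ 2 - 1) * deriv (deriv ρ) (Tt ((x, y), (u, v))) +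
        2 * Tt ((x, y), (u, v)) * deriv ρ (Tt ((x, y), (u, v))) := by
    set A := deriv (deriv ρ) (Tt ((x, y), (u, v)))
    set B := deriv ρ (Tt ((x, y), (u, v)))
    rw [hT]
    field_simp
    ring
  rw [← key]
  push_cast
  ring

/-- joint eigenfunctions are smooth eigenfunctions of the Laplacian -/
theorem lap_eigen {ρ : ℝ → ℝ} {R : ℝ} (hk : Ker ρ R) (f : S0) {κ κ2 : ℂ} (hκ : κ ≠ 0) (h1 : LS hk f = κ • f)
    (h2 : LS hk.tld f = κ2 • f) :
    ContDiffOn ℝ 2 (fun v : ℝ × ℝ => (f : ℍ →ᵇ ℂ) (pt v.1 v.2)) {v | 0 < v.2} ∧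
    ∀ x y : ℝ, 0 < y → (y : ℂ) ^ 2 * (deriv (fun s => deriv (fun t => (f : ℍ →ᵇ ℂ) (pt t y)) s) x
      + deriv (fun s => deriv (fun t => (f : ℍ →ᵇ ℂ) (pt x t)) s) y) = (κ2 / κ) * (f : ℍ →ᵇ ℂ) (pt x y) := by
  have hfc := (f : ℍ →ᵇ ℂ).continuous
  have hC : ∀ w, ‖(f : ℍ →ᵇ ℂ) w‖ ≤ ‖f‖ := fun w => S0_norm f w
  have e1 : ∀ p ∈ Om, (f : ℍ →ᵇ ℂ) (P p) = κ⁻¹ * IK (f : ℍ →ᵇ ℂ) (Kr ρ) p := by
    intro p hp
    rw [IK_Kr ρ _ hp, ← LS_apply hk, h1]
    change _ = κ⁻¹ * (κ * _)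
    rw [inv_mul_cancel_left₀ hκ]
    rfl
  have e2 : ∀ p ∈ Om, IK (f : ℍ →ᵇ ℂ) (Kr (tld ρ)) p = κ2 * (f : ℍ →ᵇ ℂ) (P p) := by
    intro p hp
    rw [IK_Kr _ _ hp, ← LS_apply hk.tld, h2]
    rfl
  constructor
  · have h3 := (hk.adm.contDiff_two hfc hC)
    have h4 : ContDiffOn ℝ 2 (fun p => κ⁻¹ • IK (f : ℍ →ᵇ ℂ) (Kr ρ) p) Om := h3.const_smul κ⁻¹
    exact h4.congr fun p hp => e1 p hp
  · intro x y hy
    have d1 : deriv (fun s => deriv (fun t => (f : ℍ →ᵇ ℂ) (pt t y)) s) x =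
        κ⁻¹ * deriv (fun s => deriv (fun t => IK (f : ℍ →ᵇ ℂ) (Kr ρ) (t, y)) s) x := by
      have a1 : (fun t => (f : ℍ →ᵇ ℂ) (pt t y)) = fun t => κ⁻¹ * IK (f : ℍ →ᵇ ℂ) (Kr ρ) (t, y) := by
        funext t
        exact e1 (t, y) hy
      rw [a1]
      simp only [deriv_const_mul_field']
    have d2 : deriv (fun s => deriv (fun t => (f : ℍ →ᵇ ℂ) (pt x t)) s) y =
        κ⁻¹ * deriv (fun s => deriv (fun t => IK (f : ℍ →ᵇ ℂ) (Kr ρ) (x, t)) s) y := by
      have a1 : ∀ s, 0 < s → (fun t => (f : ℍ →ᵇ ℂ) (pt x t)) =ᶠ[𝓝 s] fun t => κ⁻¹ * IK (f : ℍ →ᵇ ℂ) (Kr ρ) (x, t) := by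
        intro s hs
        filter_upwards [lt_mem_nhds hs] with t ht
        exact e1 (x, t) ht
      have a2 : (fun s => deriv (fun t => (f : ℍ →ᵇ ℂ) (pt x t)) s) =ᶠ[𝓝 y]
          fun s => κ⁻¹ * deriv (fun t => IK (f : ℍ →ᵇ ℂ) (Kr ρ) (x, t)) s := by
        filter_upwards [lt_mem_nhds hy] with s hs
        rw [(a1 s hs).deriv_eq]
        simp only [deriv_const_mul_field']
      rw [a2.deriv_eq]
      simp only [deriv_const_mul_field']
    rw [d1, d2, ← mul_add, hk.adm.laplace hfc hC hy]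
    have a3 : (y : ℂ) ^ 2 * (∫ w, (f : ℍ →ᵇ ℂ) w * (deriv (fun s => deriv (fun t => Kr ρ ((t, y), cw w)) s) x +
        deriv (fun s => deriv (fun t => Kr ρ ((x, t), cw w)) s) y)) = IK (f : ℍ →ᵇ ℂ) (Kr (tld ρ)) (x, y) := by
      rw [IK, ← integral_const_mul]
      congr 1
      funext w
      rw [smul_eq_mul]
      have := lap_Kr hk.smooth (x := x) (u := w.re) hy w.im_pos
      rw [cw, ← this]
      ring
    have a4 : (f : ℍ →ᵇ ℂ) (P (x, y)) = (f : ℍ →ᵇ ℂ) (pt x y) := rfl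
    calc _ = κ⁻¹ * ((y : ℂ) ^ 2 * (∫ w, (f : ℍ →ᵇ ℂ) w * (deriv (fun s => deriv (fun t => Kr ρ ((t, y), cw w)) s) x +
        deriv (fun s => deriv (fun t => Kr ρ ((x, t), cw w)) s) y))) := by ring
      _ = _ := by rw [a3, e2 (x, y) hy, a4, div_eq_inv_mul, mul_assoc]

end Pool.Agent.H59R3.M17
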