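import Pool.Agent.H59R3.M17.E4c
import Pool.Agent.H59R3.M17.E5c

set_option autoImplicit false

open Real Set Filter Topology MeasureTheory UpperHalfPlane
open scoped MatrixGroups Modular BoundedContinuousFunction ENNReal NNReal ComplexConjugate ContDiff

namespace Pool.Agent.H59R3.M17

/-- Chebyshev recursion -/
noncomputable def Uc (x : ℂ) : ℕ → ℂ
  | 0 => 1
  | 1 => x
  | (k + 2) => x * Uc x (k + 1) - Uc x k

/-- Hecke eigenvalues from those at primes -/
noncomputable def ext (α : ℕ → ℂ) (n : ℕ) : ℂ := n.factorization.prod fun p k => Uc (α p) k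

lemma ext_one (α : ℕ → ℂ) : ext α 1 = 1 := by simp [ext]

lemma ext_mul (α : ℕ → ℂ) {a b : ℕ} (h : Nat.Coprime a b) : ext α (a * b) = ext α a * ext α b := by
  rw [ext, Nat.factorization_mul_of_coprime h, Finsupp.prod_add_index_of_disjoint, ext, ext]
  exact h.disjoint_primeFactors

lemma ext_pow (α : ℕ → ℂ) {p : ℕ} (hp : p.Prime) (k : ℕ) : ext α (p ^ k) = Uc (α p) k := by
  rw [ext, hp.factorization_pow, Finsupp.prod_single_index rfl]

lemma ext_prime (α : ℕ → ℂ) {p : ℕ} (hp : p.Prime) : ext α p = α p := by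
  have := ext_pow α hp 1
  rw [pow_one] at this
  rw [this]; rfl

lemma ext_rec (α : ℕ → ℂ) {p : ℕ} (hp : p.Prime) (m : ℕ) (hm : 0 < m) :
    ext α (p * m) = ext α p * ext α m - if p ∣ m then ext α (m / p) else 0 := by
  obtain ⟨k, m', hm', rfl⟩ := Nat.exists_eq_pow_mul_and_not_dvd hm.ne' p hp.ne_one
  have hc : ∀ j, Nat.Coprime (p ^ j) m' := fun j => ((Nat.Prime.coprime_iff_not_dvd hp).mpr hm').pow_left j
  have h1 : p * (p ^ k * m') = p ^ (k + 1) * m' := by ring
  rw [h1, ext_mul α (hc _), ext_mul α (hc _), ext_pow α hp, ext_pow α hp, ext_prime α hp]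
  cases k with
  | zero =>
    rw [pow_zero, one_mul, if_neg hm']
    simp [Uc]
  | succ k =>
    have h2 : p ∣ p ^ (k + 1) * m' := Dvd.intro _ (by ring : p * (p ^ k * m') = _)
    have h3 : p ^ (k + 1) * m' / p = p ^ k * m' := by
      rw [show p ^ (k + 1) * m' = p * (p ^ k * m') by ring, Nat.mul_div_cancel_left _ hp.pos]
    rw [if_pos h2, h3, ext_mul α (hc _), ext_pow α hp]
    have h4 : Uc (α p) (k + 1 + 1) = α p * Uc (α p) (k + 1) - Uc (α p) k := rfl
    rw [h4]
    ring

/-- **Existence of odd Hecke–Maass cusp forms of level one.** -/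
theorem exists_oddMaass : ∃ (f : ℍ → ℂ) (lam : ℝ) (a : ℕ → ℂ), OddMaass f lam a := by
  obtain ⟨ρ, R, hk, h0⟩ := exists_kernel
  obtain ⟨f, κ, κ2, c, hf, hκ, hκr, hκ2r, hf1, hf2, hH⟩ := exists_joint hk hk.tld h0
  obtain ⟨hsm, hlap⟩ := lap_eigen hk f hκ hf1 hf2
  refine ⟨(f : ℍ →ᵇ ℂ), -(κ2 / κ).re, ext (fun p => c p / (Real.sqrt p : ℂ)), ?_⟩
  have hreal : (((κ2 / κ).re : ℝ) : ℂ) = κ2 / κ := by
    rw [← Complex.conj_eq_iff_re, map_div₀, hκr, hκ2r]
  exact
    { smooth := hsm
      laplace := by
        intro x y hy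
        rw [hlap x y hy]
        push_cast
        rw [hreal]
        ring
      modular := S0_mod f
      odd := by
        intro x y hy
        rw [← S0_odd f]
        congr 1
        symm
        apply pt_ext hy
        rw [coe_J_smul, pt_coe hy]
        simp
        ring
      bounded := ⟨‖f‖, fun z => S0_norm f z⟩
      nonzero := by
        by_contra hc
        push Not at hc
        exact hf (Subtype.ext (BoundedContinuousFunction.ext hc))
      hecke := by
        intro p hp x y hy
        have hpr : (0:ℝ) < p := by exact_mod_cast hp.pos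
        have h1 := hH p hp (pt x y)
        have hs : (Real.sqrt p : ℂ) ≠ 0 := by
          exact_mod_cast (Real.sqrt_pos.mpr hpr).ne'
        rw [ext_prime _ hp, mul_div_cancel₀ _ hs, ← h1, HT]
        congr 1
        · rw [mv, pt_re hy, pt_im hy, add_zero]
        · refine Finset.sum_congr rfl fun b _ => ?_
          rw [mv, pt_re hy, pt_im hy]
          congr 2
          · field_simp
          · field_simp
      a_one := ext_one _
      a_mul := fun p hp m hm => ext_rec _ hp m hm }

end Pool.Agent.H59R3.M17
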