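import Pool.Agent.H59R3.M17.Def

set_option autoImplicit false

open Real Set Filter Topology MeasureTheory

namespace Pool.Agent.H59R3.M17

/-- `e n x = exp (2 π i n x)` -/
noncomputable def e (n : ℤ) (x : ℝ) : ℂ := Complex.exp (2 * π * Complex.I * n * x)

lemma e_continuous (n : ℤ) : Continuous (e n) := by unfold e; fun_prop

lemma norm_e (n : ℤ) (x : ℝ) : ‖e n x‖ = 1 := by
  have h : (2 * π * Complex.I * n * x : ℂ) = ((2 * π * n * x : ℝ) : ℂ) * Complex.I := by
    push_cast; ring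
  rw [e, h, Complex.norm_exp_ofReal_mul_I]

lemma e_add (n : ℤ) (x y : ℝ) : e n (x + y) = e n x * e n y := by
  rw [e, e, e, ← Complex.exp_add]
  congr 1
  push_cast
  ring

lemma e_int (n m : ℤ) : e n m = 1 := by
  rw [e, Complex.exp_eq_one_iff]
  exact ⟨n * m, by push_cast; ring⟩

lemma e_nat (n : ℤ) (m : ℕ) : e n m = 1 := by
  have := e_int n m
  simpa using this

lemma e_add_int (n m : ℤ) (x : ℝ) : e n (x + m) = e n x := by rw [e_add, e_int, mul_one]

lemma e_add_one (n : ℤ) (x : ℝ) : e n (x + 1) = e n x := by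
  have := e_add_int n 1 x
  simpa using this

lemma e_zero (x : ℝ) : e 0 x = 1 := by simp [e]

lemma e_zero_right (n : ℤ) : e n 0 = 1 := by simp [e]

lemma e_neg_right (n : ℤ) (x : ℝ) : e n (-x) = e (-n) x := by
  rw [e, e]; congr 1; push_cast; ring

lemma e_mul (n m : ℤ) (x : ℝ) : e (n * m) x = e n (m * x) := by
  rw [e, e]; congr 1; push_cast; ring

lemma e_hasDerivAt (n : ℤ) (x : ℝ) : HasDerivAt (e n) (2 * π * Complex.I * n * e n x) x := by
  have h1 : HasDerivAt (fun x : ℝ => 2 * π * Complex.I * n * (x : ℂ)) (2 * π * Complex.I * n * 1) x :=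
    (Complex.ofRealCLM.hasDerivAt (x := x)).const_mul _
  have h2 := h1.cexp
  refine h2.congr_deriv ?_
  rw [e]; ring

/-- Fourier expansion of a periodic continuous function. -/
lemma fourier_hasSum {g : ℝ → ℂ} (hg : Continuous g) (hp : ∀ x, g (x + 1) = g x)
    (hs : Summable fun n : ℤ => ∫ x in (0:ℝ)..1, e (-n) x * g x) (x : ℝ) :
    HasSum (fun n : ℤ => (∫ x in (0:ℝ)..1, e (-n) x * g x) * e n x) (g x) := by
  have hper : Function.Periodic g 1 := hp
  let G : C(AddCircle (1:ℝ), ℂ) := ⟨hper.lift, continuous_coinduced_dom.mpr hg⟩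
  have hfact : Fact ((0:ℝ) < 1) := ⟨one_pos⟩
  have hc : ∀ n : ℤ, fourierCoeff G n = ∫ x in (0:ℝ)..1, e (-n) x * g x := by
    intro n
    rw [fourierCoeff_eq_intervalIntegral _ n 0]
    simp only [div_one, one_smul, zero_add, smul_eq_mul, G, ContinuousMap.coe_mk, Function.Periodic.lift_coe,
      fourier_coe_apply, Complex.ofReal_one, e]
  have hs' : Summable (fourierCoeff G) := by
    refine hs.congr fun n => ?_
    rw [hc]
  have := has_pointwise_sum_fourier_series_of_summable hs' (x : AddCircle (1:ℝ))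
  have h2 : (fun n : ℤ => (∫ x in (0:ℝ)..1, e (-n) x * g x) * e n x) =
      (fun i : ℤ => fourierCoeff G i • (fourier i) (x : AddCircle (1:ℝ))) := by
    funext n
    rw [hc]
    simp only [smul_eq_mul, fourier_coe_apply, Complex.ofReal_one, div_one, e]
  rw [h2]
  simpa [G] using this

/-- differentiation under the integral sign over `[0,1]` -/
lemma hasDerivAt_int {G G' : ℝ → ℝ → ℂ}
    (hG : ContinuousOn (fun v : ℝ × ℝ => G v.1 v.2) {v | 0 < v.2})
    (hG' : ContinuousOn (fun v : ℝ × ℝ => G' v.1 v.2) {v | 0 < v.2})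
    (hd : ∀ x y, 0 < y → HasDerivAt (fun t => G x t) (G' x y) y) (y : ℝ) (hy : 0 < y) :
    HasDerivAt (fun t => ∫ x in (0:ℝ)..1, G x t) (∫ x in (0:ℝ)..1, G' x y) y := by
  -- bound on the compact set [0,1] × [y/2, 2y]
  have hK : IsCompact (Icc (0:ℝ) 1 ×ˢ Icc (y / 2) (2 * y)) := isCompact_Icc.prod isCompact_Icc
  have hsub : (Icc (0:ℝ) 1 ×ˢ Icc (y / 2) (2 * y)) ⊆ {v : ℝ × ℝ | 0 < v.2} := by
    intro v hv
    have := hv.2.1
    change 0 < v.2
    linarith
  obtain ⟨B, hB⟩ := hK.exists_bound_of_continuousOn (hG'.mono hsub)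
  have hslice : ∀ t, 0 < t → Continuous (fun x => G x t) := by
    intro t ht
    rw [← continuousOn_univ]
    exact hG.comp (f := fun x : ℝ => (x, t)) (by fun_prop) (fun x _ => ht)
  have hslice' : ∀ t, 0 < t → Continuous (fun x => G' x t) := by
    intro t ht
    rw [← continuousOn_univ]
    exact hG'.comp (f := fun x : ℝ => (x, t)) (by fun_prop) (fun x _ => ht)
  have := intervalIntegral.hasDerivAt_integral_of_dominated_loc_of_deriv_le (μ := volume)
    (F := fun t x => G x t) (F' := fun t x => G' x t) (x₀ := y) (a := 0) (b := 1)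
    (s := Ioo (y / 2) (2 * y)) (bound := fun _ => B)
    (Ioo_mem_nhds (by linarith) (by linarith)) ?_ ?_ ?_ ?_ ?_ ?_
  · exact this.2
  · filter_upwards [Ioi_mem_nhds hy] with t ht
    exact (hslice t ht).aestronglyMeasurable
  · exact (hslice y hy).intervalIntegrable _ _
  · exact (hslice' y hy).aestronglyMeasurable
  · refine Eventually.of_forall fun x hx t ht => ?_
    rw [uIoc_of_le zero_le_one] at hx
    exact hB (x, t) ⟨⟨hx.1.le, hx.2⟩, ⟨ht.1.le, ht.2.le⟩⟩
  · exact _root_.intervalIntegrable_const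
  · refine Eventually.of_forall fun x hx t ht => ?_
    exact hd x t (by linarith [ht.1])

/-- partial derivatives of a `C²` function on the upper half plane -/
lemma partials {Φ : ℝ × ℝ → ℂ} (h : ContDiffOn ℝ 2 Φ {v | 0 < v.2}) :
    ∃ Px Py Pxx Pyy : ℝ → ℝ → ℂ,
      ContinuousOn (fun v : ℝ × ℝ => Px v.1 v.2) {v | 0 < v.2} ∧
      ContinuousOn (fun v : ℝ × ℝ => Py v.1 v.2) {v | 0 < v.2} ∧
      ContinuousOn (fun v : ℝ × ℝ => Pxx v.1 v.2) {v | 0 < v.2} ∧
      ContinuousOn (fun v : ℝ × ℝ => Pyy v.1 v.2) {v | 0 < v.2} ∧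
      (∀ x y, 0 < y → HasDerivAt (fun t => Φ (t, y)) (Px x y) x) ∧
      (∀ x y, 0 < y → HasDerivAt (fun t => Φ (x, t)) (Py x y) y) ∧
      (∀ x y, 0 < y → HasDerivAt (fun t => Px t y) (Pxx x y) x) ∧
      (∀ x y, 0 < y → HasDerivAt (fun t => Py x t) (Pyy x y) y) := by
  have hopen : IsOpen {v : ℝ × ℝ | 0 < v.2} := isOpen_lt continuous_const continuous_snd
  have h1 : ContDiffOn ℝ 1 (fderiv ℝ Φ) {v | 0 < v.2} := h.fderiv_of_isOpen hopen (by norm_num)
  have key : ∀ (Ψ : ℝ × ℝ → ℂ) (n : WithTop ℕ∞), ContDiffOn ℝ n Ψ {v | 0 < v.2} → 1 ≤ n →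
      (∀ x y, 0 < y → HasDerivAt (fun t => Ψ (t, y)) (fderiv ℝ Ψ (x, y) (1, 0)) x) ∧
      (∀ x y, 0 < y → HasDerivAt (fun t => Ψ (x, t)) (fderiv ℝ Ψ (x, y) (0, 1)) y) := by
    intro Ψ n hΨ hn
    have hdiff : ∀ x y, 0 < y → HasFDerivAt Ψ (fderiv ℝ Ψ (x, y)) (x, y) := by
      intro x y hy
      have : DifferentiableAt ℝ Ψ (x, y) :=
        (hΨ.differentiableOn (by
          intro h0; rw [h0] at hn; exact absurd hn (by norm_num))).differentiableAt (hopen.mem_nhds hy)
      exact this.hasFDerivAt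
    constructor
    · intro x y hy
      have hc : HasDerivAt (fun t : ℝ => (t, y)) ((1 : ℝ), (0 : ℝ)) x :=
        (hasDerivAt_id x).prodMk (hasDerivAt_const x y)
      exact (hdiff x y hy).comp_hasDerivAt x hc
    · intro x y hy
      have hc : HasDerivAt (fun t : ℝ => (x, t)) ((0 : ℝ), (1 : ℝ)) y :=
        (hasDerivAt_const y x).prodMk (hasDerivAt_id y)
      exact (hdiff x y hy).comp_hasDerivAt y hc
  have hX : ContDiffOn ℝ 1 (fun v => fderiv ℝ Φ v (1, 0)) {v | 0 < v.2} :=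
    h1.clm_apply contDiffOn_const
  have hY : ContDiffOn ℝ 1 (fun v => fderiv ℝ Φ v (0, 1)) {v | 0 < v.2} :=
    h1.clm_apply contDiffOn_const
  have hXX : ContinuousOn (fun v => fderiv ℝ (fun v => fderiv ℝ Φ v (1, 0)) v (1, 0)) {v | 0 < v.2} :=
    ((hX.fderiv_of_isOpen hopen (m := 0) (by norm_num)).clm_apply contDiffOn_const).continuousOn
  have hYY : ContinuousOn (fun v => fderiv ℝ (fun v => fderiv ℝ Φ v (0, 1)) v (0, 1)) {v | 0 < v.2} :=
    ((hY.fderiv_of_isOpen hopen (m := 0) (by norm_num)).clm_apply contDiffOn_const).continuousOn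
  exact ⟨fun x y => fderiv ℝ Φ (x, y) (1, 0), fun x y => fderiv ℝ Φ (x, y) (0, 1),
    fun x y => fderiv ℝ (fun v => fderiv ℝ Φ v (1, 0)) (x, y) (1, 0),
    fun x y => fderiv ℝ (fun v => fderiv ℝ Φ v (0, 1)) (x, y) (0, 1),
    hX.continuousOn, hY.continuousOn, hXX, hYY,
    (key Φ 2 h (by norm_num)).1, (key Φ 2 h (by norm_num)).2,
    (key _ 1 hX le_rfl).1, (key _ 1 hY le_rfl).2⟩

end Pool.Agent.H59R3.M17
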