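import Pool.Agent.H59R3.M17.Ode2

set_option autoImplicit false

open Real Set Filter Topology MeasureTheory

namespace Pool.Agent.H59R3.M17

/-- complex solutions -/
structure SolC (lam : ℝ) (W W1 : ℝ → ℂ) : Prop where
  d1 : ∀ y, 0 < y → HasDerivAt W (W1 y) y
  d2 : ∀ y, 0 < y → HasDerivAt W1 (((4 * π ^ 2 - lam / y ^ 2 : ℝ) : ℂ) * W y) y
  bd : ∃ C, ∀ y, 0 < y → ‖W y‖ ≤ C

lemma SolC.re {lam : ℝ} {W W1 : ℝ → ℂ} (S : SolC lam W W1) :
    Sol lam (fun y => (W y).re) (fun y => (W1 y).re) where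
  d1 := fun y hy => by
    have := Complex.reCLM.hasFDerivAt.comp_hasDerivAt y (S.d1 y hy)
    exact this
  d2 := fun y hy => by
    have := Complex.reCLM.hasFDerivAt.comp_hasDerivAt y (S.d2 y hy)
    refine this.congr_deriv ?_
    simp only [Complex.reCLM_apply, Complex.re_ofReal_mul]
  bd := by
    obtain ⟨C, hC⟩ := S.bd
    exact ⟨C, fun y hy => (Complex.abs_re_le_norm _).trans (hC y hy)⟩

lemma SolC.im {lam : ℝ} {W W1 : ℝ → ℂ} (S : SolC lam W W1) :
    Sol lam (fun y => (W y).im) (fun y => (W1 y).im) where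
  d1 := fun y hy => by
    have := Complex.imCLM.hasFDerivAt.comp_hasDerivAt y (S.d1 y hy)
    exact this
  d2 := fun y hy => by
    have := Complex.imCLM.hasFDerivAt.comp_hasDerivAt y (S.d2 y hy)
    refine this.congr_deriv ?_
    simp only [Complex.imCLM_apply, Complex.im_ofReal_mul]
  bd := by
    obtain ⟨C, hC⟩ := S.bd
    exact ⟨C, fun y hy => (Complex.abs_im_le_norm _).trans (hC y hy)⟩

lemma SolC.decay {lam : ℝ} {W W1 : ℝ → ℂ} (S : SolC lam W W1) :
    ∃ C, 0 ≤ C ∧ ∀ y, 0 < y → ‖W y‖ ≤ C * exp (-(y / 8)) := by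
  obtain ⟨C, hC0, hC⟩ := S.re.decay
  obtain ⟨D, hD0, hD⟩ := S.im.decay
  refine ⟨C + D, by positivity, fun y hy => ?_⟩
  calc ‖W y‖ ≤ |(W y).re| + |(W y).im| := Complex.norm_le_abs_re_add_abs_im _
    _ ≤ C * exp (-(y / 8)) + D * exp (-(y / 8)) := add_le_add (hC y hy) (hD y hy)
    _ = _ := by ring

lemma SolC.deriv_bound {lam : ℝ} {W W1 : ℝ → ℂ} (S : SolC lam W W1) :
    ∃ D, 0 ≤ D ∧ ∀ y, 0 < y → ‖W1 y‖ ≤ D * exp (-(y / 8)) * (1 / y + y) := by
  obtain ⟨C, hC0, hC⟩ := S.re.deriv_bound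
  obtain ⟨D, hD0, hD⟩ := S.im.deriv_bound
  refine ⟨C + D, by positivity, fun y hy => ?_⟩
  calc ‖W1 y‖ ≤ |(W1 y).re| + |(W1 y).im| := Complex.norm_le_abs_re_add_abs_im _
    _ ≤ _ := add_le_add (hC y hy) (hD y hy)
    _ = _ := by ring

lemma SolC.continuousOn {lam : ℝ} {W W1 : ℝ → ℂ} (S : SolC lam W W1) :
    ContinuousOn W (Ioi 0) :=
  fun y hy => (S.d1 y hy).continuousAt.continuousWithinAt

/-- general Mellin convergence for continuous functions with exponential decay -/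
lemma isBigO_top {g : ℝ → ℂ} {C : ℝ} (hg : ∀ y, 0 < y → ‖g y‖ ≤ C * exp (-(y / 8))) :
    g =O[atTop] fun t => exp (-(1/8) * t) := by
  refine Asymptotics.IsBigO.of_bound C ?_
  filter_upwards [eventually_gt_atTop 0] with y hy
  rw [Real.norm_of_nonneg (exp_pos _).le]
  have : exp (-(1/8) * y) = exp (-(y / 8)) := by congr 1; ring
  rw [this]
  exact hg y hy

lemma isBigO_bot {g : ℝ → ℂ} {C : ℝ} (hC : 0 ≤ C) (hg : ∀ y, 0 < y → ‖g y‖ ≤ C * exp (-(y / 8))) :
    g =O[𝓝[>] 0] (fun t : ℝ => t ^ (-(0:ℝ))) := by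
  refine Asymptotics.IsBigO.of_bound C ?_
  filter_upwards [self_mem_nhdsWithin] with y hy
  have hy : 0 < y := hy
  simp only [neg_zero, rpow_zero, norm_one, mul_one]
  refine (hg y hy).trans ?_
  apply mul_le_of_le_one_right hC
  rw [exp_le_one_iff]
  linarith

lemma SolC.mellinConv {lam : ℝ} {W W1 : ℝ → ℂ} (S : SolC lam W W1) {w : ℂ} (hw : 0 < w.re) :
    MellinConvergent W w := by
  obtain ⟨C, hC0, hC⟩ := S.decay
  exact mellinConvergent_of_isBigO_rpow_exp (a := 1/8) (b := 0) (by norm_num)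
    (S.continuousOn.locallyIntegrableOn measurableSet_Ioi) (isBigO_top hC) (isBigO_bot hC0 hC) hw

lemma SolC.mellinDiff {lam : ℝ} {W W1 : ℝ → ℂ} (S : SolC lam W W1) {w : ℂ} (hw : 0 < w.re) :
    DifferentiableAt ℂ (mellin W) w := by
  obtain ⟨C, hC0, hC⟩ := S.decay
  exact mellin_differentiableAt_of_isBigO_rpow_exp (a := 1/8) (b := 0) (by norm_num)
    (S.continuousOn.locallyIntegrableOn measurableSet_Ioi) (isBigO_top hC) (isBigO_bot hC0 hC) hw

lemma SolC.recursion {lam : ℝ} {W W1 : ℝ → ℂ} (S : SolC lam W W1) {w : ℂ} (hw : 0 < w.re) :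
    4 * (π : ℂ) ^ 2 * mellin W (w + 2) = (w * (w + 1) + lam) * mellin W w := by
  obtain ⟨C, hC0, hC⟩ := S.decay
  obtain ⟨D, hD0, hD⟩ := S.deriv_bound
  set Φ : ℝ → ℂ := fun t => W1 t * (t : ℂ) ^ (w + 1) - (w + 1) * (W t * (t : ℂ) ^ w) with hΦ
  set φ : ℝ → ℂ := fun t => 4 * (π : ℂ) ^ 2 * ((t : ℂ) ^ (w + 2 - 1) • W t) -
    (w * (w + 1) + lam) * ((t : ℂ) ^ (w - 1) • W t) with hφ
  have hw0 : w ≠ 0 := by rintro rfl; simp at hw
  have hw1 : w + 1 ≠ 0 := by
    intro h
    have := congrArg Complex.re h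
    simp at this
    linarith
  have hder : ∀ t ∈ Ioi (0:ℝ), HasDerivAt Φ (φ t) t := by
    intro t ht
    have ht : 0 < t := ht
    have ht' : (t : ℂ) ≠ 0 := by exact_mod_cast ht.ne'
    have a1 : HasDerivAt (fun s : ℝ => (s : ℂ) ^ (w + 1)) ((w + 1) * (t : ℂ) ^ w) t := by
      have := hasDerivAt_ofReal_cpow_const' (x := t) ht.ne' (r := w) (by
        intro h; apply hw1; rw [h]; ring)
      have h2 := this.const_mul (w + 1)
      refine (h2.congr_of_eventuallyEq ?_)
      filter_upwards with s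
      field_simp
    have a2 : HasDerivAt (fun s : ℝ => (s : ℂ) ^ w) (w * (t : ℂ) ^ (w - 1)) t := by
      have := hasDerivAt_ofReal_cpow_const' (x := t) ht.ne' (r := w - 1) (by
        intro h; apply hw0; linear_combination h)
      have h2 := this.const_mul w
      refine (h2.congr_of_eventuallyEq ?_)
      filter_upwards with s
      rw [sub_add_cancel]
      field_simp
    have a3 := (S.d2 t ht).mul a1
    have a4 := ((S.d1 t ht).mul a2).const_mul (w + 1)
    have a5 := a3.sub a4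
    refine a5.congr_deriv ?_
    simp only [hφ, smul_eq_mul]
    have e1 : (t : ℂ) ^ (w + 1) = (t : ℂ) ^ (w - 1) * (t : ℂ) ^ 2 := by
      rw [← Complex.cpow_natCast, ← Complex.cpow_add _ _ ht']
      congr 1
      push_cast
      ring
    have e2 : (t : ℂ) ^ (w + 2 - 1) = (t : ℂ) ^ (w - 1) * (t : ℂ) ^ 2 := by
      rw [← Complex.cpow_natCast, ← Complex.cpow_add _ _ ht']
      congr 1
      push_cast
      ring
    rw [e1, e2]
    push_cast
    field_simp
    ring
  have hint : IntegrableOn φ (Ioi 0) := by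
    have h1 := S.mellinConv (w := w + 2) (by simp; linarith)
    have h2 := S.mellinConv hw
    exact (Integrable.const_mul h1 _).sub (Integrable.const_mul h2 _)
  have hΦ0 : Φ 0 = 0 := by
    simp only [hΦ, Complex.ofReal_zero, Complex.zero_cpow hw0, Complex.zero_cpow hw1]
    ring
  have hΦb : ∀ t, 0 < t → ‖Φ t‖ ≤ (D * (1 + t ^ 2) * t ^ w.re + ‖w + 1‖ * C * t ^ w.re) * exp (-(t/8)) := by
    intro t ht
    have b1 := hD t ht
    have b2 := hC t ht
    have n1 : ‖(t : ℂ) ^ (w + 1)‖ = t ^ w.re * t := by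
      rw [Complex.norm_cpow_eq_rpow_re_of_pos ht, Complex.add_re, Complex.one_re,
        Real.rpow_add ht, Real.rpow_one]
    have n2 : ‖(t : ℂ) ^ w‖ = t ^ w.re := Complex.norm_cpow_eq_rpow_re_of_pos ht _
    calc ‖Φ t‖ ≤ ‖W1 t * (t : ℂ) ^ (w + 1)‖ + ‖(w + 1) * (W t * (t : ℂ) ^ w)‖ := norm_sub_le _ _
      _ = ‖W1 t‖ * (t ^ w.re * t) + ‖w + 1‖ * (‖W t‖ * t ^ w.re) := by
          rw [norm_mul, norm_mul, norm_mul, n1, n2]
      _ ≤ (D * exp (-(t / 8)) * (1 / t + t)) * (t ^ w.re * t) +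
            ‖w + 1‖ * (C * exp (-(t / 8)) * t ^ w.re) := by gcongr
      _ = _ := by field_simp
  have hcont : ContinuousWithinAt Φ (Ici 0) 0 := by
    rw [ContinuousWithinAt, hΦ0]
    rw [tendsto_zero_iff_norm_tendsto_zero]
    have hlim : Tendsto (fun t : ℝ => (D * (1 + t ^ 2) * t ^ w.re + ‖w + 1‖ * C * t ^ w.re) * exp (-(t/8)))
        (𝓝[Ici 0] 0) (𝓝 0) := by
      have hc : ContinuousAt (fun t : ℝ => (D * (1 + t ^ 2) * t ^ w.re + ‖w + 1‖ * C * t ^ w.re) * exp (-(t/8))) 0 := by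
        have : ContinuousAt (fun t : ℝ => t ^ w.re) 0 := Real.continuousAt_rpow_const _ _ (Or.inr hw.le)
        fun_prop
      have := hc.tendsto
      simp only [Real.zero_rpow hw.ne'] at this
      simp only [mul_zero, add_zero, zero_mul] at this
      exact this.mono_left nhdsWithin_le_nhds
    refine squeeze_zero' (Eventually.of_forall fun _ => norm_nonneg _) ?_ hlim
    filter_upwards [self_mem_nhdsWithin] with t ht
    rcases (mem_Ici.mp ht).eq_or_lt with h | h
    · rw [← h, hΦ0, norm_zero]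
      positivity
    · exact hΦb t h
  have htop : Tendsto Φ atTop (𝓝 0) := by
    rw [tendsto_zero_iff_norm_tendsto_zero]
    have hlim : Tendsto (fun t : ℝ => (D * (1 + t ^ 2) * t ^ w.re + ‖w + 1‖ * C * t ^ w.re) * exp (-(t/8)))
        atTop (𝓝 0) := by
      have t1 := tendsto_rpow_mul_exp_neg_mul_atTop_nhds_zero (w.re) (1/8) (by norm_num)
      have t2 := tendsto_rpow_mul_exp_neg_mul_atTop_nhds_zero (w.re + 2) (1/8) (by norm_num)
      have t3 := ((t1.const_mul (D + ‖w + 1‖ * C)).add (t2.const_mul D))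
      simp only [mul_zero, add_zero] at t3
      refine t3.congr' ?_
      filter_upwards [eventually_gt_atTop 0] with t ht
      rw [Real.rpow_add ht]
      have : exp (-(1/8) * t) = exp (-(t / 8)) := by congr 1; ring
      rw [this]
      norm_num
      ring
    refine squeeze_zero' (Eventually.of_forall fun _ => norm_nonneg _) ?_ hlim
    filter_upwards [eventually_gt_atTop 0] with t ht
    exact hΦb t ht
  have hftc := integral_Ioi_of_hasDerivAt_of_tendsto hcont hder hint htop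
  rw [hΦ0, sub_zero] at hftc
  have h1 := S.mellinConv (w := w + 2) (by simp; linarith)
  have h2 := S.mellinConv hw
  rw [hφ, integral_sub (Integrable.const_mul h1 _) (Integrable.const_mul h2 _),
    integral_const_mul, integral_const_mul] at hftc
  exact sub_eq_zero.mp hftc

lemma SolC.mellin_ne_zero {lam : ℝ} {W W1 : ℝ → ℂ} (S : SolC lam W W1)
    (hne : ∃ y, 0 < y ∧ W y ≠ 0) (m : ℕ) (hm : 1 ≤ m) : mellin W (m : ℂ) ≠ 0 := by
  intro h0
  have hall : ∀ k : ℕ, mellin W ((m + 2 * k : ℕ) : ℂ) = 0 := by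
    intro k
    induction k with
    | zero => simpa using h0
    | succ k ih =>
      have hpos : 0 < (((m + 2 * k : ℕ) : ℂ)).re := by
        rw [Complex.natCast_re]
        exact_mod_cast (show 0 < m + 2 * k by omega)
      have := S.recursion hpos
      rw [ih, mul_zero] at this
      have h2 : ((m + 2 * (k + 1) : ℕ) : ℂ) = ((m + 2 * k : ℕ) : ℂ) + 2 := by push_cast; ring
      rw [h2]
      have hpi : (4 * (π : ℂ) ^ 2) ≠ 0 := by
        have : (π : ℂ) ≠ 0 := by exact_mod_cast Real.pi_ne_zero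
        exact mul_ne_zero (by norm_num) (pow_ne_zero _ this)
      exact (mul_eq_zero.mp this).resolve_left hpi
  have hmom : ∀ k : ℕ, ∫ t in Ioi (0:ℝ), ((t ^ (m + 2 * k - 1) : ℝ) : ℂ) * W t = 0 := by
    intro k
    rw [← hall k, mellin]
    refine setIntegral_congr_fun measurableSet_Ioi fun t ht => ?_
    have ht : 0 < t := ht
    simp only [smul_eq_mul]
    congr 1
    have h3 : ((m + 2 * k : ℕ) : ℂ) - 1 = ((m + 2 * k - 1 : ℕ) : ℂ) := by
      rw [Nat.cast_sub (by omega)]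
      simp
    rw [h3, Complex.cpow_natCast]
    push_cast
    rfl
  have hint : ∀ n : ℕ, IntegrableOn (fun t => ((t ^ n : ℝ) : ℂ) * W t) (Ioi 0) := by
    intro n
    have := S.mellinConv (w := ((n + 1 : ℕ) : ℂ)) (by
      rw [Complex.natCast_re]
      positivity)
    refine IntegrableOn.congr_fun this ?_ measurableSet_Ioi
    intro t ht
    simp only [smul_eq_mul]
    congr 1
    push_cast
    rw [add_sub_cancel_right, Complex.cpow_natCast]
  obtain ⟨y, hy, hWy⟩ := hne
  apply hWy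
  apply Complex.ext
  · refine S.re.moments (fun N => ⟨m + 2 * N - 1, by omega, ?_⟩) y hy
    have h2 : Complex.reCLM (∫ t in Ioi (0:ℝ), ((t ^ (m + 2 * N - 1) : ℝ) : ℂ) * W t) = 0 := by
      rw [hmom N, map_zero]
    have h3 := Complex.reCLM.integral_comp_comm (hint (m + 2 * N - 1))
    rw [h2] at h3
    simpa only [Complex.reCLM_apply, Complex.re_ofReal_mul] using h3
  · refine S.im.moments (fun N => ⟨m + 2 * N - 1, by omega, ?_⟩) y hy
    have h2 : Complex.imCLM (∫ t in Ioi (0:ℝ), ((t ^ (m + 2 * N - 1) : ℝ) : ℂ) * W t) = 0 := by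
      rw [hmom N, map_zero]
    have h3 := Complex.imCLM.integral_comp_comm (hint (m + 2 * N - 1))
    rw [h2] at h3
    simpa only [Complex.imCLM_apply, Complex.im_ofReal_mul] using h3

end Pool.Agent.H59R3.M17
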