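import Pool.Agent.H59R3.M17.Four1
import Pool.Agent.H59R3.M17.Ode3

set_option autoImplicit false

open Real Set Filter Topology MeasureTheory UpperHalfPlane

namespace Pool.Agent.H59R3.M17

/-- Fourier coefficients of `f` along horizontal lines -/
noncomputable def A (f : ℍ → ℂ) (n : ℤ) (y : ℝ) : ℂ := ∫ x in (0:ℝ)..1, e (-n) x * f (pt x y)

/-- normalised coefficients -/
noncomputable def co (a : ℕ → ℂ) (n : ℕ) : ℂ := a n / (Real.sqrt n : ℂ)

variable {f : ℍ → ℂ} {lam : ℝ} {a : ℕ → ℂ}

lemma OddMaass.cont (h : OddMaass f lam a) {y : ℝ} (hy : 0 < y) :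
    Continuous (fun x => f (pt x y)) := by
  rw [← continuousOn_univ]
  exact h.smooth.continuousOn.comp (f := fun x : ℝ => (x, y)) (by fun_prop) (fun x _ => hy)

lemma OddMaass.per (h : OddMaass f lam a) (x : ℝ) {y : ℝ} (hy : 0 < y) :
    f (pt (x + 1) y) = f (pt x y) := by
  have := periodic_of_modular h.modular x hy 1
  simpa using this

lemma OddMaass.A_bound (h : OddMaass f lam a) :
    ∃ C, 0 ≤ C ∧ ∀ n y, ‖A f n y‖ ≤ C := by
  obtain ⟨C, hC⟩ := h.bounded
  refine ⟨C, (norm_nonneg _).trans (hC (pt 0 1)), fun n y => ?_⟩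
  have := intervalIntegral.norm_integral_le_of_norm_le_const (a := 0) (b := 1) (C := C)
    (f := fun x => e (-n) x * f (pt x y)) (fun x _ => by
      rw [norm_mul, norm_e, one_mul]; exact hC _)
  simpa [A] using this

/-- integral of a derivative of a periodic function vanishes -/
lemma int_deriv_periodic {g g' : ℝ → ℂ} (hg : ∀ x, HasDerivAt g (g' x) x) (hg' : Continuous g')
    (hp : g 1 = g 0) : ∫ x in (0:ℝ)..1, g' x = 0 := by
  rw [intervalIntegral.integral_eq_sub_of_hasDerivAt (fun x _ => hg x) (hg'.intervalIntegrable _ _),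
    hp, sub_self]

lemma OddMaass.solC (h : OddMaass f lam a) : ∃ W1, SolC lam (A f 1) W1 := by
  obtain ⟨Px, Py, Pxx, Pyy, cx, cy, cxx, cyy, dx, dy, dxx, dyy⟩ := partials h.smooth
  have hcE : ContinuousOn (fun v : ℝ × ℝ => e (-1) v.1) {v | 0 < v.2} :=
    ((e_continuous (-1)).comp continuous_fst).continuousOn
  refine ⟨fun y => ∫ x in (0:ℝ)..1, e (-1) x * Py x y, ?_, ?_, ?_⟩
  · intro y hy
    have := hasDerivAt_int (G := fun x y => e (-1) x * f (pt x y)) (G' := fun x y => e (-1) x * Py x y)
      (hcE.mul h.smooth.continuousOn) (hcE.mul cy)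
      (fun x y hy => (dy x y hy).const_mul _) y hy
    exact this
  · intro y hy
    have h1 := hasDerivAt_int (G := fun x y => e (-1) x * Py x y) (G' := fun x y => e (-1) x * Pyy x y)
      (hcE.mul cy) (hcE.mul cyy)
      (fun x y hy => (dyy x y hy).const_mul _) y hy
    refine h1.congr_deriv ?_
    -- Laplace equation
    have hlap : ∀ x, Pyy x y = - Pxx x y - (lam / y ^ 2 : ℂ) * f (pt x y) := by
      intro x
      have e1 := h.laplace x y hy
      have e2 : deriv (fun s => deriv (fun t => f (pt t y)) s) x = Pxx x y := by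
        have : (fun s => deriv (fun t => f (pt t y)) s) = fun s => Px s y := by
          funext s
          exact (dx s y hy).deriv
        rw [this]
        exact (dxx x y hy).deriv
      have e3 : deriv (fun s => deriv (fun t => f (pt x t)) s) y = Pyy x y := by
        have : (fun s => deriv (fun t => f (pt x t)) s) =ᶠ[𝓝 y] fun s => Py x s := by
          filter_upwards [Ioi_mem_nhds hy] with s hs
          exact (dy x s hs).deriv
        rw [this.deriv_eq]
        exact (dyy x y hy).deriv
      rw [e2, e3] at e1
      have hy' : (y : ℂ) ≠ 0 := by exact_mod_cast hy.ne'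
      field_simp
      linear_combination e1
    have hcx : Continuous (fun x => Px x y) := by
      rw [← continuousOn_univ]
      exact cx.comp (f := fun x : ℝ => (x, y)) (by fun_prop) (fun x _ => hy)
    have hcxx : Continuous (fun x => Pxx x y) := by
      rw [← continuousOn_univ]
      exact cxx.comp (f := fun x : ℝ => (x, y)) (by fun_prop) (fun x _ => hy)
    have hcf := h.cont hy
    -- periodicity of Px
    have hPper : Px 1 y = Px 0 y := by
      have h2 := dx 1 y hy
      have h3 := dx 0 y hy
      have h4 : HasDerivAt (fun t => f (pt (t - 1 + 1) y)) (Px 0 y) 1 := by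
        have h5 : HasDerivAt (fun t => f (pt (t - 1) y)) (Px 0 y) 1 := by
          have : HasDerivAt (fun t => f (pt t y)) (Px 0 y) ((1:ℝ) - 1) := by simpa using h3
          exact HasDerivAt.comp_sub_const 1 1 this
        refine h5.congr_of_eventuallyEq (Eventually.of_forall fun t => ?_)
        exact h.per (t - 1) hy
      have h6 : HasDerivAt (fun t => f (pt t y)) (Px 0 y) 1 := by
        refine h4.congr_of_eventuallyEq (Eventually.of_forall fun t => ?_)
        simp only [sub_add_cancel]
      exact h2.unique h6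
    -- first integration by parts : ∫ (e(-x) Px)' = 0
    have i1 : ∫ x in (0:ℝ)..1, ((2 * π * Complex.I * ((-1:ℤ):ℂ) * e (-1) x) * Px x y + e (-1) x * Pxx x y) = 0 := by
      apply int_deriv_periodic (g := fun x => e (-1) x * Px x y)
      · intro x
        exact (e_hasDerivAt (-1) x).mul (dxx x y hy)
      · have := e_continuous (-1)
        fun_prop
      · have : e (-1) 1 = e (-1) 0 := by
          have := e_add_one (-1) 0
          simpa using this
        simp only [this, hPper]
    have i2 : ∫ x in (0:ℝ)..1, ((2 * π * Complex.I * ((-1:ℤ):ℂ) * e (-1) x) * f (pt x y) + e (-1) x * Px x y) = 0 := by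
      apply int_deriv_periodic (g := fun x => e (-1) x * f (pt x y))
      · intro x
        exact (e_hasDerivAt (-1) x).mul (dx x y hy)
      · have := e_continuous (-1)
        exact ((continuous_const.mul this).mul hcf).add (this.mul hcx)
      · have : e (-1) 1 = e (-1) 0 := by
          have := e_add_one (-1) 0
          simpa using this
        have h7 := h.per 0 hy
        simp only [zero_add] at h7
        simp only [this, h7]
    have ce := e_continuous (-1)
    have I1 : IntervalIntegrable (fun x => e (-1) x * Pxx x y) volume 0 1 :=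
      (ce.mul hcxx).intervalIntegrable _ _
    have I2 : IntervalIntegrable (fun x => e (-1) x * Px x y) volume 0 1 :=
      (ce.mul hcx).intervalIntegrable _ _
    have I3 : IntervalIntegrable (fun x => e (-1) x * f (pt x y)) volume 0 1 :=
      (ce.mul hcf).intervalIntegrable _ _
    have j1 : (2 * π * Complex.I * ((-1:ℤ):ℂ)) * (∫ x in (0:ℝ)..1, e (-1) x * Px x y) +
        ∫ x in (0:ℝ)..1, e (-1) x * Pxx x y = 0 := by
      rw [← intervalIntegral.integral_const_mul, ← intervalIntegral.integral_add (I2.const_mul _) I1, ← i1]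
      congr 1
      funext x
      ring
    have j2 : (2 * π * Complex.I * ((-1:ℤ):ℂ)) * (∫ x in (0:ℝ)..1, e (-1) x * f (pt x y)) +
        ∫ x in (0:ℝ)..1, e (-1) x * Px x y = 0 := by
      rw [← intervalIntegral.integral_const_mul, ← intervalIntegral.integral_add (I3.const_mul _) I2, ← i2]
      congr 1
      funext x
      ring
    have I1n : IntervalIntegrable (fun x => -(e (-1) x * Pxx x y)) volume 0 1 := I1.neg
    have j3 : ∫ x in (0:ℝ)..1, e (-1) x * Pyy x y =
        - (∫ x in (0:ℝ)..1, e (-1) x * Pxx x y) - (lam / y ^ 2 : ℂ) * ∫ x in (0:ℝ)..1, e (-1) x * f (pt x y) := by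
      rw [← intervalIntegral.integral_const_mul, ← intervalIntegral.integral_neg,
        ← intervalIntegral.integral_sub I1n (I3.const_mul _)]
      congr 1
      funext x
      rw [hlap x]
      ring
    rw [j3, A]
    have k1 : ∫ x in (0:ℝ)..1, e (-1) x * Px x y = (2 * π * Complex.I) * ∫ x in (0:ℝ)..1, e (-1) x * f (pt x y) := by
      push_cast at j2
      linear_combination j2
    have k2 : ∫ x in (0:ℝ)..1, e (-1) x * Pxx x y = (2 * π * Complex.I) ^ 2 * ∫ x in (0:ℝ)..1, e (-1) x * f (pt x y) := by
      push_cast at j1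
      rw [k1] at j1
      linear_combination j1
    rw [k2]
    push_cast
    have hI : Complex.I ^ 2 = -1 := Complex.I_sq
    linear_combination (-(2 * π) ^ 2 * ∫ x in (0:ℝ)..1, e (-1) x * f (pt x y)) * hI
  · obtain ⟨C, hC0, hC⟩ := h.A_bound
    exact ⟨C, fun y _ => hC 1 y⟩

lemma int_shift {g : ℝ → ℂ} (hp : ∀ x, g (x + 1) = g x) (t : ℝ) :
    ∫ x in t..t + 1, g x = ∫ x in (0:ℝ)..1, g x := by
  have := Function.Periodic.intervalIntegral_add_eq (f := g) (T := 1) hp t 0
  simpa using this

lemma OddMaass.A_neg (h : OddMaass f lam a) (n : ℤ) {y : ℝ} (hy : 0 < y) :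
    A f (-n) y = - A f n y := by
  have h1 : A f (-n) y = ∫ x in (-1:ℝ)..0, e (-n) x * f (pt (-x) y) := by
    rw [A]
    have := intervalIntegral.integral_comp_neg (a := -1) (b := 0) (f := fun x => e (- -n) x * f (pt x y))
    simp only [neg_neg, neg_zero] at this ⊢
    rw [← this]
    congr 1
    funext x
    rw [e_neg_right]
  rw [h1]
  have h2 : ∫ x in (-1:ℝ)..0, e (-n) x * f (pt (-x) y) = - ∫ x in (-1:ℝ)..0, e (-n) x * f (pt x y) := by
    rw [← intervalIntegral.integral_neg]
    congr 1
    funext x
    rw [h.odd x y hy]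
    ring
  rw [h2, A]
  congr 1
  have := int_shift (g := fun x => e (-n) x * f (pt x y)) (fun x => by
    rw [e_add_one, h.per x hy]) (-1)
  simpa using this

lemma OddMaass.A_zero (h : OddMaass f lam a) {y : ℝ} (hy : 0 < y) : A f 0 y = 0 := by
  have := h.A_neg 0 hy
  rw [neg_zero] at this
  have h2 : (2:ℂ) * A f 0 y = 0 := by linear_combination this
  exact (mul_eq_zero.mp h2).resolve_left two_ne_zero

/-- Fourier coefficients of the Hecke operator -/
lemma OddMaass.A_hecke (h : OddMaass f lam a) (p : ℕ) (hp : p.Prime) (n : ℕ) {y : ℝ} (hy : 0 < y) :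
    (Real.sqrt p : ℂ) * a p * A f n y = p * A f ((p * n : ℕ) : ℤ) (y / p) +
      if p ∣ n then A f ((n / p : ℕ) : ℤ) (p * y) else 0 := by
  have hp0 : (0:ℝ) < p := by exact_mod_cast hp.pos
  have hyp : 0 < y / p := by positivity
  have hpy : 0 < p * y := by positivity
  have ce := e_continuous (-(n:ℤ))
  have c1 : Continuous (fun x : ℝ => f (pt (p * x) (p * y))) :=
    (h.cont hpy).comp (continuous_const.mul continuous_id)
  have c2 : ∀ b : ℕ, Continuous (fun x : ℝ => f (pt ((x + b) / p) (y / p))) := fun b =>
    (h.cont hyp).comp (by fun_prop : Continuous fun x : ℝ => (x + b) / p)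
  have e1 : (Real.sqrt p : ℂ) * a p * A f n y =
      (∫ x in (0:ℝ)..1, e (-n) x * f (pt (p * x) (p * y))) +
      ∑ b ∈ Finset.range p, ∫ x in (0:ℝ)..1, e (-n) x * f (pt ((x + b) / p) (y / p)) := by
    have J1 : ∀ b ∈ Finset.range p, IntervalIntegrable
        (fun x => e (-(n:ℤ)) x * f (pt ((x + b) / p) (y / p))) volume 0 1 :=
      fun b _ => (ce.mul (c2 b)).intervalIntegrable _ _
    have J2 : IntervalIntegrable (fun x => e (-(n:ℤ)) x * f (pt (p * x) (p * y))) volume 0 1 :=
      (ce.mul c1).intervalIntegrable _ _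
    have J3 : IntervalIntegrable (fun x => ∑ b ∈ Finset.range p,
        e (-(n:ℤ)) x * f (pt ((x + b) / p) (y / p))) volume 0 1 :=
      Continuous.intervalIntegrable (by
          apply continuous_finsetSum
          intro b _
          exact ce.mul (c2 b)) _ _
    rw [A, ← intervalIntegral.integral_const_mul, ← intervalIntegral.integral_finsetSum J1,
      ← intervalIntegral.integral_add J2 J3]
    congr 1
    funext x
    rw [← Finset.mul_sum, ← mul_add, h.hecke p hp x y hy]
    ring
  rw [e1, add_comm]
  congr 1
  · -- sum over b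
    have e2 : ∀ b ∈ Finset.range p, ∫ x in (0:ℝ)..1, e (-n) x * f (pt ((x + b) / p) (y / p)) =
        ∫ x in ((b:ℕ):ℝ)..((b + 1 : ℕ) : ℝ), e (-n) x * f (pt (x / p) (y / p)) := by
      intro b _
      have := intervalIntegral.integral_comp_add_right (a := 0) (b := 1)
        (f := fun x => e (-n) x * f (pt (x / p) (y / p))) (b : ℝ)
      rw [zero_add] at this
      push_cast
      rw [add_comm (b:ℝ) 1, ← this]
      congr 1
      funext x
      have h3 := e_add_int (-(n:ℤ)) (b : ℤ) x
      rw [Int.cast_natCast] at h3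
      rw [h3]
    rw [Finset.sum_congr rfl e2]
    have c3 : Continuous (fun x : ℝ => e (-n) x * f (pt (x / p) (y / p))) :=
      ce.mul ((h.cont hyp).comp (by fun_prop : Continuous fun x : ℝ => x / p))
    rw [intervalIntegral.sum_integral_adjacent_intervals (a := fun k : ℕ => (k : ℝ))
      (fun k _ => c3.intervalIntegrable _ _)]
    have e3 := intervalIntegral.integral_comp_mul_left (a := 0) (b := 1) (c := (p:ℝ))
      (fun x => e (-n) x * f (pt (x / p) (y / p))) hp0.ne'
    simp only [mul_zero, mul_one] at e3
    rw [Nat.cast_zero]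
    have e4 : ∫ x in (0:ℝ)..p, e (-n) x * f (pt (x / p) (y / p)) =
        p * ∫ x in (0:ℝ)..1, e (-n) (p * x) * f (pt (p * x / p) (y / p)) := by
      rw [e3]
      have hpc : (p : ℂ) ≠ 0 := by exact_mod_cast hp0.ne'
      rw [Complex.real_smul]
      push_cast
      field_simp
    rw [e4, A]
    congr 2
    funext x
    rw [mul_div_cancel_left₀ _ hp0.ne']
    congr 1
    rw [e, e]
    congr 1
    push_cast
    ring
  · -- first term
    split_ifs with hd
    · obtain ⟨m, rfl⟩ := hd
      rw [Nat.mul_div_cancel_left _ hp.pos, A]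
      set g : ℝ → ℂ := fun x => e (-(m:ℤ)) x * f (pt x (p * y)) with hg
      have hgp : ∀ x, g (x + 1) = g x := fun x => by
        simp only [hg]; rw [e_add_one, h.per x hpy]
      have hgc : Continuous g := (e_continuous _).mul (h.cont hpy)
      have e3 := intervalIntegral.integral_comp_mul_left (a := 0) (b := 1) (c := (p:ℝ)) g hp0.ne'
      simp only [mul_zero, mul_one] at e3
      have e5 := Function.Periodic.intervalIntegral_add_zsmul_eq (f := g) (T := 1) hgp (p : ℤ) 0
        (fun _ _ => hgc.intervalIntegrable _ _)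
      simp only [zero_add, zsmul_eq_mul, Int.cast_natCast, mul_one] at e5
      have e6 : ∫ x in (0:ℝ)..1, e (-((p * m : ℕ) : ℤ)) x * f (pt (p * x) (p * y)) =
          ∫ x in (0:ℝ)..1, g (p * x) := by
        congr 1
        funext x
        simp only [hg]
        congr 1
        rw [e, e]
        congr 1
        push_cast
        ring
      rw [e6, e3, e5]
      have hpc : (p : ℂ) ≠ 0 := by exact_mod_cast hp0.ne'
      rw [Complex.real_smul]
      push_cast
      field_simp
    · -- not divisible
      set φ : ℝ → ℂ := fun x => e (-(n:ℤ)) x * f (pt (p * x) (p * y)) with hφ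
      have hφp : ∀ x, φ (x + 1) = φ x := fun x => by
        simp only [hφ]
        rw [e_add_one]
        congr 1
        have := periodic_nat h.modular (p * x) hpy p
        rw [← this]
        congr 2
        ring
      have e3 : ∫ x in (0:ℝ)..1, φ (x + 1 / p) = ∫ x in (0:ℝ)..1, φ x := by
        rw [intervalIntegral.integral_comp_add_right, zero_add, add_comm (1:ℝ), int_shift hφp]
      have e4 : ∫ x in (0:ℝ)..1, φ (x + 1 / p) = e (-(n:ℤ)) (1 / p) * ∫ x in (0:ℝ)..1, φ x := by
        rw [← intervalIntegral.integral_const_mul]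
        congr 1
        funext x
        simp only [hφ]
        rw [e_add]
        have : f (pt (p * (x + 1 / p)) (p * y)) = f (pt (p * x) (p * y)) := by
          rw [← h.per (p * x) hpy]
          congr 2
          field_simp
        rw [this]
        ring
      have e5 : e (-(n:ℤ)) (1 / p) ≠ 1 := by
        intro h1
        rw [e, Complex.exp_eq_one_iff] at h1
        obtain ⟨k, hk⟩ := h1
        apply hd
        have hpc : (p : ℂ) ≠ 0 := by exact_mod_cast hp0.ne'
        have hpi : (2 * π * Complex.I : ℂ) ≠ 0 := Complex.two_pi_I_ne_zero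
        have h6 : (2 * π * Complex.I : ℂ) * (-(n:ℂ)) = (2 * π * Complex.I : ℂ) * (k * p) := by
          push_cast at hk
          have hk2 : (2 * ↑π * Complex.I * -↑n * (1 / ↑p)) * (p:ℂ) = (k * (2 * π * Complex.I)) * p :=
            congrArg (· * (p:ℂ)) hk
          have : (2 * ↑π * Complex.I * -↑n * (1 / ↑p)) * (p:ℂ) = 2 * ↑π * Complex.I * -↑n := by
            field_simp
          rw [this] at hk2
          rw [hk2]
          ring
        have h7 : (-(n:ℂ)) = (k * p) := mul_left_cancel₀ hpi h6
        have h8 : (-(n:ℤ)) = k * p := by exact_mod_cast h7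
        have h9 : (p:ℤ) ∣ (n:ℤ) := ⟨-k, by linarith [h8, mul_comm k (p:ℤ)]⟩
        exact_mod_cast h9
      rw [e3] at e4
      have e6 : (1 - e (-(n:ℤ)) (1 / p)) * ∫ x in (0:ℝ)..1, φ x = 0 := by
        linear_combination e4
      exact (mul_eq_zero.mp e6).resolve_left (fun h0 => e5 (by linear_combination -h0))

/-- all Fourier coefficients are determined by the first one -/
lemma OddMaass.A_eq (h : OddMaass f lam a) (n : ℕ) (hn : 0 < n) :
    ∀ y : ℝ, 0 < y → A f n y = co a n * A f 1 (n * y) := by
  induction n using Nat.strong_induction_on with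
  | _ n ih =>
    rcases Nat.eq_or_lt_of_le (show 1 ≤ n from hn) with h1 | h1
    · subst h1
      intro y _
      simp [co, h.a_one]
    · intro y hy
      obtain ⟨p, hp, m, rfl⟩ := Nat.exists_prime_and_dvd (show n ≠ 1 by omega)
      have hm : 0 < m := Nat.pos_of_mul_pos_left hn |> fun _ => by
        rcases Nat.eq_zero_or_pos m with h0 | h0
        · rw [h0, mul_zero] at hn; exact absurd hn (lt_irrefl _)
        · exact h0
      have hp0 : (0:ℝ) < p := by exact_mod_cast hp.pos
      have hpc : (p : ℂ) ≠ 0 := by exact_mod_cast hp0.ne'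
      have hpy : 0 < p * y := by positivity
      have hml : m < p * m := by
        have := hp.one_lt
        nlinarith
      have key := h.A_hecke p hp m hpy
      rw [mul_div_cancel_left₀ y hp0.ne'] at key
      have ih1 := ih m hml hm (p * y) hpy
      have hsp : (Real.sqrt p : ℂ) ≠ 0 := by
        have : Real.sqrt p ≠ 0 := (Real.sqrt_pos.mpr hp0).ne'
        exact_mod_cast this
      have hsm : (Real.sqrt m : ℂ) ≠ 0 := by
        have : Real.sqrt m ≠ 0 := (Real.sqrt_pos.mpr (by exact_mod_cast hm)).ne'
        exact_mod_cast this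
      have hsq : (Real.sqrt p : ℂ) * (Real.sqrt p : ℂ) = p := by
        exact_mod_cast Real.mul_self_sqrt hp0.le
      have hspm : (Real.sqrt ((p * m : ℕ) : ℝ) : ℂ) = (Real.sqrt p : ℂ) * (Real.sqrt m : ℂ) := by
        rw [Nat.cast_mul, Real.sqrt_mul hp0.le]
        push_cast
        rfl
      have hyy : ((m : ℕ) : ℝ) * (p * y) = ((p * m : ℕ) : ℝ) * y := by push_cast; ring
      rw [ih1, hyy] at key
      split_ifs at key with hd
      · obtain ⟨k, rfl⟩ := hd
        rw [Nat.mul_div_cancel_left _ hp.pos] at key
        have hk : 0 < k := by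
          rcases Nat.eq_zero_or_pos k with h0 | h0
          · rw [h0, mul_zero] at hm; exact absurd hm (lt_irrefl _)
          · exact h0
        have hkl : k < p * (p * k) := by
          have := hp.one_lt
          have h2 : k < p * k := by nlinarith
          have h3 : p * k ≤ p * (p * k) := Nat.le_mul_of_pos_left _ hp.pos
          omega
        have ih2 := ih k hkl hk (p * (p * y)) (by positivity)
        have hyy2 : (k : ℝ) * (p * (p * y)) = ((p * (p * k) : ℕ) : ℝ) * y := by push_cast; ring
        rw [hyy2] at ih2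
        rw [ih2] at key
        have ham := h.a_mul p hp (p * k) hm
        rw [if_pos (Dvd.intro k rfl), Nat.mul_div_cancel_left _ hp.pos] at ham
        have hsk : (Real.sqrt k : ℂ) ≠ 0 := by
          have : Real.sqrt k ≠ 0 := (Real.sqrt_pos.mpr (by exact_mod_cast hk)).ne'
          exact_mod_cast this
        have hspk : (Real.sqrt ((p * k : ℕ) : ℝ) : ℂ) = (Real.sqrt p : ℂ) * (Real.sqrt k : ℂ) := by
          rw [Nat.cast_mul, Real.sqrt_mul hp0.le]
          push_cast
          rfl
        unfold co at key ⊢
        rw [hspm, ham, hspk]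
        rw [hspk] at key
        set X := A f 1 (((p * (p * k) : ℕ) : ℝ) * y)
        have key2 : (p:ℂ) * A f ((p * (p * k) : ℕ) : ℤ) y =
            (Real.sqrt p : ℂ) * a p * (a (p * k) / ((Real.sqrt p : ℂ) * (Real.sqrt k : ℂ)) * X) -
            a k / (Real.sqrt k : ℂ) * X := by
          linear_combination -key
        apply mul_left_cancel₀ hpc
        rw [key2, ← hsq]
        field_simp
      · have ham := h.a_mul p hp m hm
        rw [if_neg hd, sub_zero] at ham
        unfold co at key ⊢
        rw [hspm, ham]
        rw [add_zero] at key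
        apply mul_left_cancel₀ hpc
        rw [← key, ← hsq]
        field_simp

end Pool.Agent.H59R3.M17
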