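import Pool.Agent.H59R3.M17.Four2

set_option autoImplicit false

open Real Set Filter Topology MeasureTheory UpperHalfPlane

namespace Pool.Agent.H59R3.M17

variable {f : ℍ → ℂ} {lam : ℝ} {a : ℕ → ℂ}

lemma OddMaass.W_ne (h : OddMaass f lam a) : ∃ y, 0 < y ∧ A f 1 y ≠ 0 := by
  by_contra hc
  push Not at hc
  obtain ⟨z, hz⟩ := h.nonzero
  apply hz
  have hy := z.im_pos
  have h1 : ∀ n : ℕ, A f n z.im = 0 := by
    intro n
    rcases Nat.eq_zero_or_pos n with h0 | h0
    · rw [h0]; exact h.A_zero hy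
    · rw [h.A_eq n h0 _ hy, hc _ (by positivity), mul_zero]
  have h2 : ∀ n : ℤ, A f n z.im = 0 := by
    intro n
    rcases Int.eq_nat_or_neg n with ⟨m, rfl | rfl⟩
    · exact h1 m
    · rw [h.A_neg _ hy, h1 m, neg_zero]
  have h3 : ∀ n : ℤ, ∫ x in (0:ℝ)..1, e (-n) x * f (pt x z.im) = 0 := h2
  have h4 := fourier_hasSum (h.cont hy) (fun x => h.per x hy) (by simp only [h3]; exact summable_zero) z.re
  simp only [h3, zero_mul] at h4
  have h5 := h4.unique hasSum_zero
  rwa [pt_of] at h5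

lemma OddMaass.co_bound (h : OddMaass f lam a) : ∃ K, 0 ≤ K ∧ ∀ n, ‖co a n‖ ≤ K := by
  obtain ⟨y, hy, hW⟩ := h.W_ne
  obtain ⟨C, hC0, hC⟩ := h.A_bound
  have hWn : 0 < ‖A f 1 y‖ := norm_pos_iff.mpr hW
  refine ⟨C / ‖A f 1 y‖, by positivity, fun n => ?_⟩
  rcases Nat.eq_zero_or_pos n with h0 | h0
  · subst h0
    simp only [co, Nat.cast_zero, Real.sqrt_zero, Complex.ofReal_zero, div_zero, norm_zero]
    positivity
  · have hn : (0:ℝ) < n := by exact_mod_cast h0
    have := h.A_eq n h0 (y / n) (by positivity)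
    rw [mul_div_cancel₀ _ hn.ne'] at this
    rw [le_div_iff₀ hWn, ← norm_mul, ← this]
    exact hC _ _

lemma OddMaass.W_decay (h : OddMaass f lam a) :
    ∃ C, 0 ≤ C ∧ ∀ y, 0 < y → ‖A f 1 y‖ ≤ C * exp (-(y / 8)) := by
  obtain ⟨W1, hS⟩ := h.solC
  exact hS.decay

/-- geometric domination of the terms -/
lemma OddMaass.term_bound (h : OddMaass f lam a) :
    ∃ K, 0 ≤ K ∧ ∀ (n : ℕ) (y : ℝ), 0 < y → ‖co a n * A f 1 (n * y)‖ ≤ K * exp (-(y / 8)) ^ n := by
  obtain ⟨K, hK0, hK⟩ := h.co_bound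
  obtain ⟨C, hC0, hC⟩ := h.W_decay
  refine ⟨K * C, by positivity, fun n y hy => ?_⟩
  rcases Nat.eq_zero_or_pos n with h0 | h0
  · subst h0
    simp only [co, Nat.cast_zero, Real.sqrt_zero, Complex.ofReal_zero, div_zero, zero_mul, norm_zero]
    positivity
  · have hn : (0:ℝ) < n := by exact_mod_cast h0
    rw [norm_mul]
    have h1 := hC (n * y) (by positivity)
    have h2 : exp (-(n * y / 8)) = exp (-(y / 8)) ^ n := by
      rw [← exp_nat_mul]; congr 1; ring
    rw [h2] at h1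
    calc ‖co a n‖ * ‖A f 1 (n * y)‖ ≤ K * (C * exp (-(y / 8)) ^ n) := by
          gcongr
          exact hK n
      _ = _ := by ring

lemma summable_exp_pow {y : ℝ} (hy : 0 < y) : Summable (fun n : ℕ => exp (-(y / 8)) ^ n) :=
  summable_geometric_of_lt_one (exp_pos _).le (by rw [exp_lt_one_iff]; linarith)

/-- Fourier expansion of an odd Hecke–Maass form -/
lemma OddMaass.expansion (h : OddMaass f lam a) (x : ℝ) {y : ℝ} (hy : 0 < y) :
    HasSum (fun n : ℕ => co a n * A f 1 (n * y) * (e n x - e (-n) x)) (f (pt x y)) := by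
  obtain ⟨K, hK0, hK⟩ := h.term_bound
  have hA : ∀ n : ℕ, A f n y = co a n * A f 1 (n * y) := by
    intro n
    rcases Nat.eq_zero_or_pos n with h0 | h0
    · subst h0
      have := h.A_zero hy
      simp only [Nat.cast_zero, co, Real.sqrt_zero, Complex.ofReal_zero, div_zero, zero_mul]
      exact this
    · exact h.A_eq n h0 y hy
  have hs1 : Summable (fun n : ℕ => A f n y) := by
    refine Summable.of_norm_bounded ((summable_exp_pow hy).mul_left K) (fun n => ?_)
    rw [hA n]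
    exact hK n y hy
  have hs : Summable (fun n : ℤ => A f n y) := by
    refine Summable.of_nat_of_neg hs1 ?_
    refine (hs1.neg).congr fun n => ?_
    rw [h.A_neg _ hy]
  have h4 := fourier_hasSum (h.cont hy) (fun x => h.per x hy) hs x
  have h5 := h4.nat_add_neg
  have h6 : (∫ x in (0:ℝ)..1, e (-0) x * f (pt x y)) = 0 := h.A_zero hy
  rw [h6, zero_mul, add_zero] at h5
  convert h5 using 1
  funext n
  have h7 : (∫ x in (0:ℝ)..1, e (-(n:ℤ)) x * f (pt x y)) = A f n y := rfl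
  have h8 : (∫ x in (0:ℝ)..1, e (-(-(n:ℤ))) x * f (pt x y)) = A f (-n) y := rfl
  rw [h7, h8, h.A_neg _ hy, hA n]
  ring

end Pool.Agent.H59R3.M17
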