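import Mathlib

set_option autoImplicit false

open Real Set Filter Topology MeasureTheory

namespace Pool.Agent.H59R3.M17

/-- a convex bounded function on a half line is nonincreasing -/
lemma deriv_nonpos_of_convex_bdd (h h1 h2 : ℝ → ℝ) (y0 C : ℝ)
    (H1 : ∀ y, y0 ≤ y → HasDerivAt h (h1 y) y)
    (H2 : ∀ y, y0 ≤ y → HasDerivAt h1 (h2 y) y)
    (H3 : ∀ y, y0 ≤ y → 0 ≤ h2 y)
    (hb : ∀ y, y0 ≤ y → |h y| ≤ C) (y1 : ℝ) (hy1 : y0 ≤ y1) : h1 y1 ≤ 0 := by
  by_contra hc
  push Not at hc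
  set c := h1 y1 with hcdef
  have key : ∀ y, y1 < y → h y1 + c * (y - y1) ≤ h y := by
    intro y hy
    obtain ⟨ξ, ⟨hξ1, hξ2⟩, hξ⟩ := exists_hasDerivAt_eq_slope h h1 hy
      (fun x hx => (H1 x (hy1.trans hx.1)).continuousAt.continuousWithinAt)
      (fun x hx => H1 x (hy1.trans hx.1.le))
    obtain ⟨η, ⟨hη1, hη2⟩, hη⟩ := exists_hasDerivAt_eq_slope h1 h2 hξ1
      (fun x hx => (H2 x (hy1.trans hx.1)).continuousAt.continuousWithinAt)
      (fun x hx => H2 x (hy1.trans hx.1.le))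
    have h2η : 0 ≤ h2 η := H3 η (hy1.trans hη1.le)
    rw [hη] at h2η
    have hpos : 0 < ξ - y1 := by linarith
    have h3 : 0 ≤ h1 ξ - h1 y1 := by
      by_contra h4
      push Not at h4
      have := div_neg_of_neg_of_pos h4 hpos
      linarith
    have h5 : h1 ξ * (y - y1) = h y - h y1 := by
      rw [hξ]
      exact div_mul_cancel₀ _ (by linarith)
    nlinarith
  have hC : 0 ≤ C := le_trans (abs_nonneg _) (hb y1 hy1)
  have h6 := key (y1 + (2 * C + 1) / c) (by
    have : 0 < (2 * C + 1) / c := by positivity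
    linarith)
  have h7 : c * (y1 + (2 * C + 1) / c - y1) = 2 * C + 1 := by
    field_simp
    ring
  rw [h7] at h6
  have h8 := hb (y1 + (2 * C + 1) / c) (by
    have : 0 < (2 * C + 1) / c := by positivity
    linarith)
  have h9 := hb y1 hy1
  rw [abs_le] at h8 h9
  linarith [h8.2, h9.1]

/-- decay of nonnegative bounded solutions of `h'' ≥ 2 h` -/
lemma decay_aux (h h1 h2 : ℝ → ℝ) (y0 C : ℝ)
    (H1 : ∀ y, y0 ≤ y → HasDerivAt h (h1 y) y)
    (H2 : ∀ y, y0 ≤ y → HasDerivAt h1 (h2 y) y)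
    (H0 : ∀ y, y0 ≤ y → 0 ≤ h y)
    (H3 : ∀ y, y0 ≤ y → 2 * h y ≤ h2 y)
    (hb : ∀ y, y0 ≤ y → h y ≤ C) :
    (∀ y z, y0 ≤ y → y ≤ z → h z ≤ h y) ∧
    ∀ k : ℕ, ∀ y, y0 + 2 * k ≤ y → h y ≤ C * (1 / 2) ^ k := by
  have hneg : ∀ y, y0 ≤ y → h1 y ≤ 0 := fun y hy =>
    deriv_nonpos_of_convex_bdd h h1 h2 y0 C H1 H2
      (fun y hy => le_trans (by have := H0 y hy; positivity) (H3 y hy))
      (fun y hy => by rw [abs_of_nonneg (H0 y hy)]; exact hb y hy) y hy
  have hanti : ∀ y z, y0 ≤ y → y ≤ z → h z ≤ h y := by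
    intro y z hy hyz
    rcases hyz.eq_or_lt with rfl | hlt
    · exact le_rfl
    obtain ⟨ξ, ⟨hξ1, hξ2⟩, hξ⟩ := exists_hasDerivAt_eq_slope h h1 hlt
      (fun x hx => (H1 x (hy.trans hx.1)).continuousAt.continuousWithinAt)
      (fun x hx => H1 x (hy.trans hx.1.le))
    have h3 := hneg ξ (hy.trans hξ1.le)
    rw [hξ] at h3
    have hpos : 0 < z - y := by linarith
    by_contra h4
    push Not at h4
    have : 0 < (h z - h y) / (z - y) := by apply div_pos <;> linarith
    linarith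
  refine ⟨hanti, ?_⟩
  have step : ∀ y, y0 ≤ y → h (y + 2) ≤ h y / 2 := by
    intro y hy
    obtain ⟨ξ, ⟨hξ1, hξ2⟩, hξ⟩ := exists_hasDerivAt_eq_slope h h1 (show y < y + 1 by linarith)
      (fun x hx => (H1 x (hy.trans hx.1)).continuousAt.continuousWithinAt)
      (fun x hx => H1 x (hy.trans hx.1.le))
    obtain ⟨η, ⟨hη1, hη2⟩, hη⟩ := exists_hasDerivAt_eq_slope h1 h2 hξ2
      (fun x hx => (H2 x (hy.trans (hξ1.le.trans hx.1))).continuousAt.continuousWithinAt)
      (fun x hx => H2 x (hy.trans (hξ1.le.trans hx.1.le)))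
    obtain ⟨ζ, ⟨hζ1, hζ2⟩, hζ⟩ := exists_hasDerivAt_eq_slope h1 h2 (show y + 1 < y + 2 by linarith)
      (fun x hx => (H2 x (by linarith [hx.1])).continuousAt.continuousWithinAt)
      (fun x hx => H2 x (by linarith [hx.1]))
    have a1 : 0 ≤ h2 η := le_trans (by have := H0 η (by linarith); positivity) (H3 η (by linarith))
    rw [hη] at a1
    have a2 : h1 ξ ≤ h1 (y + 1) := by
      by_contra h4
      push Not at h4
      have : (h1 (y + 1) - h1 ξ) / (y + 1 - ξ) < 0 := by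
        apply div_neg_of_neg_of_pos <;> linarith
      linarith
    have a3 : h1 ξ = h (y + 1) - h y := by
      rw [hξ]
      have : y + 1 - y = 1 := by ring
      rw [this, div_one]
    have a4 : h2 ζ = h1 (y + 2) - h1 (y + 1) := by
      rw [hζ]
      have : y + 2 - (y + 1) = 1 := by ring
      rw [this, div_one]
    have a5 := H3 ζ (by linarith)
    have a6 := hanti ζ (y + 2) (by linarith) hζ2.le
    have a7 := hneg (y + 2) (by linarith)
    have a8 := H0 (y + 1) (by linarith)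
    linarith
  intro k
  induction k with
  | zero =>
    intro y hy
    simp only [Nat.cast_zero, mul_zero, add_zero] at hy
    simpa using hb y hy
  | succ k ih =>
    intro y hy
    push_cast at hy
    have h1' := ih (y - 2) (by linarith)
    have h2' := step (y - 2) (by
      have : (0:ℝ) ≤ 2 * k := by positivity
      linarith)
    have : y - 2 + 2 = y := by ring
    rw [this] at h2'
    rw [pow_succ]
    linarith

/-- The ODE satisfied by the Whittaker-type functions. -/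
structure Sol (lam : ℝ) (U U1 : ℝ → ℝ) : Prop where
  d1 : ∀ y, 0 < y → HasDerivAt U (U1 y) y
  d2 : ∀ y, 0 < y → HasDerivAt U1 ((4 * π ^ 2 - lam / y ^ 2) * U y) y
  bd : ∃ C, ∀ y, 0 < y → |U y| ≤ C

/-- threshold -/
noncomputable def thr (lam : ℝ) : ℝ := 1 + |lam|

lemma thr_pos (lam : ℝ) : 0 < thr lam := by unfold thr; positivity

lemma one_le_thr (lam : ℝ) : 1 ≤ thr lam := by unfold thr; linarith [abs_nonneg lam]

lemma q_ge (lam y : ℝ) (hy : thr lam ≤ y) : 1 ≤ 4 * π ^ 2 - lam / y ^ 2 := by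
  have h1 : 1 ≤ y := (one_le_thr lam).trans hy
  have h2 : |lam| ≤ y := by unfold thr at hy; linarith
  have h3 : lam / y ^ 2 ≤ 1 := by
    rw [div_le_one (by positivity)]
    calc lam ≤ |lam| := le_abs_self _
      _ ≤ y := h2
      _ ≤ y ^ 2 := by nlinarith
  have h4 : (3:ℝ) < π := pi_gt_three
  nlinarith

lemma Sol.sq {lam : ℝ} {U U1 : ℝ → ℝ} (S : Sol lam U U1) :
    ∃ C, 0 ≤ C ∧ (∀ y, thr lam ≤ y → U y ^ 2 ≤ C) ∧
    (∀ y z, thr lam ≤ y → y ≤ z → U z ^ 2 ≤ U y ^ 2) ∧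
    ∀ k : ℕ, ∀ y, thr lam + 2 * k ≤ y → U y ^ 2 ≤ C * (1 / 2) ^ k := by
  obtain ⟨C, hC⟩ := S.bd
  have hC0 : 0 ≤ C := le_trans (abs_nonneg _) (hC 1 one_pos)
  have hb : ∀ y, thr lam ≤ y → U y ^ 2 ≤ C ^ 2 := by
    intro y hy
    have := hC y ((thr_pos lam).trans_le hy)
    rw [← sq_abs]
    exact pow_le_pow_left₀ (abs_nonneg _) this 2
  have := decay_aux (fun y => U y ^ 2) (fun y => 2 * U y * U1 y)
    (fun y => 2 * (U1 y * U1 y + U y * ((4 * π ^ 2 - lam / y ^ 2) * U y))) (thr lam) (C ^ 2)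
    (fun y hy => by
      have := (S.d1 y ((thr_pos lam).trans_le hy)).fun_pow 2
      refine this.congr_deriv ?_
      norm_num)
    (fun y hy => by
      have h1 := (S.d1 y ((thr_pos lam).trans_le hy))
      have h2 := (S.d2 y ((thr_pos lam).trans_le hy))
      have := (h1.mul h2).const_mul 2
      refine this.congr_of_eventuallyEq ?_
      filter_upwards with t
      simp only [Pi.mul_apply]
      ring)
    (fun y hy => by positivity)
    (fun y hy => by
      have h1 := q_ge lam y hy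
      have h2 : 0 ≤ U1 y * U1 y := mul_self_nonneg _
      have h3 : 0 ≤ U y * U y := mul_self_nonneg _
      have h4 : U y * U y ≤ (4 * π ^ 2 - lam / y ^ 2) * (U y * U y) := by
        nlinarith
      have h5 : U y * ((4 * π ^ 2 - lam / y ^ 2) * U y) = (4 * π ^ 2 - lam / y ^ 2) * (U y * U y) := by
        ring
      rw [h5]
      nlinarith)
    hb
  exact ⟨C ^ 2, by positivity, hb, this.1, this.2⟩

lemma Sol.decay {lam : ℝ} {U U1 : ℝ → ℝ} (S : Sol lam U U1) :
    ∃ C, 0 ≤ C ∧ ∀ y, 0 < y → |U y| ≤ C * exp (-(y / 8)) := by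
  obtain ⟨C, hC0, hC, hanti, hdec⟩ := S.sq
  obtain ⟨B, hB⟩ := S.bd
  have hB0 : 0 ≤ B := le_trans (abs_nonneg _) (hB 1 one_pos)
  set y0 := thr lam with hy0
  refine ⟨B * exp (y0 / 8) + sqrt (2 * C) * exp (y0 / 8), by positivity, ?_⟩
  intro y hy
  rcases lt_or_ge y y0 with h | h
  · have h1 := hB y hy
    have h2 : 1 ≤ exp (y0 / 8) * exp (-(y / 8)) := by
      rw [← exp_add]
      apply one_le_exp
      linarith
    have h3 : 0 ≤ sqrt (2 * C) * exp (y0 / 8) * exp (-(y / 8)) := by positivity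
    calc |U y| ≤ B := h1
      _ ≤ B * (exp (y0 / 8) * exp (-(y / 8))) := le_mul_of_one_le_right hB0 h2
      _ ≤ (B * exp (y0 / 8) + sqrt (2 * C) * exp (y0 / 8)) * exp (-(y / 8)) := by
          ring_nf at h3 ⊢
          linarith
  · set k := ⌊(y - y0) / 2⌋₊ with hk
    have hk1 : (k : ℝ) ≤ (y - y0) / 2 := Nat.floor_le (by linarith)
    have hk2 : (y - y0) / 2 < k + 1 := Nat.lt_floor_add_one _
    have h1 := hdec k y (by linarith)
    have h2 : ((1:ℝ) / 2) ^ k ≤ 2 * exp (-((y - y0) / 4)) := by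
      have e1 : ((1:ℝ) / 2) ≤ exp (-(1/2)) := by
        rw [exp_neg, one_div]
        apply inv_anti₀ (exp_pos _)
        have h5 := exp_one_lt_d9
        have h6 : exp (1/2) ^ 2 = exp 1 := by
          rw [← exp_nat_mul]; norm_num
        nlinarith [exp_pos (1/2 : ℝ)]
      have e2 : ((1:ℝ) / 2) ^ k = 2 * (1/2) ^ (k+1) := by rw [pow_succ]; ring
      rw [e2]
      have e3 : ((1:ℝ) / 2) ^ (k+1) ≤ exp (-((y - y0) / 4)) := by
        calc ((1:ℝ) / 2) ^ (k+1) ≤ exp (-(1/2)) ^ (k+1) := by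
              apply pow_le_pow_left₀ (by norm_num) e1
          _ = exp (((k+1 : ℕ) : ℝ) * (-(1/2))) := by rw [exp_nat_mul]
          _ ≤ exp (-((y - y0) / 4)) := by
              apply exp_le_exp.mpr
              push_cast
              linarith
      linarith
    have h3 : U y ^ 2 ≤ (sqrt (2 * C) * exp (-((y - y0) / 8))) ^ 2 := by
      rw [mul_pow, sq_sqrt (by positivity)]
      have : exp (-((y - y0) / 8)) ^ 2 = exp (-((y - y0) / 4)) := by
        rw [← exp_nat_mul]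
        congr 1
        push_cast
        ring
      rw [this]
      calc U y ^ 2 ≤ C * (1/2)^k := h1
        _ ≤ C * (2 * exp (-((y - y0) / 4))) := by gcongr
        _ = _ := by ring
    have h4 : |U y| ≤ sqrt (2 * C) * exp (-((y - y0) / 8)) :=
      abs_le_of_sq_le_sq h3 (by positivity)
    have h5 : exp (-((y - y0) / 8)) = exp (y0 / 8) * exp (-(y / 8)) := by
      rw [← exp_add]; congr 1; ring
    rw [h5] at h4
    have h6 : 0 ≤ B * exp (y0 / 8) * exp (-(y / 8)) := by positivity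
    calc |U y| ≤ sqrt (2 * C) * (exp (y0 / 8) * exp (-(y / 8))) := h4
      _ ≤ _ := by ring_nf at h6 ⊢; linarith

end Pool.Agent.H59R3.M17
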