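import Pool.Agent.H59R3.M17.Ode

set_option autoImplicit false

open Real Set Filter Topology MeasureTheory

namespace Pool.Agent.H59R3.M17

lemma Sol.deriv_bound {lam : ℝ} {U U1 : ℝ → ℝ} (S : Sol lam U U1) :
    ∃ D, 0 ≤ D ∧ ∀ y, 0 < y → |U1 y| ≤ D * exp (-(y / 8)) * (1 / y + y) := by
  obtain ⟨C, hC0, hC⟩ := S.decay
  refine ⟨C * (2 + 4 * π ^ 2 + |lam|), by positivity, ?_⟩
  intro y hy
  have hC' : ∀ t, y ≤ t → |U t| ≤ C * exp (-(y / 8)) := by
    intro t ht
    refine (hC t (hy.trans_le ht)).trans ?_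
    gcongr
  set E := C * exp (-(y / 8)) with hE
  have hE0 : 0 ≤ E := by positivity
  obtain ⟨ξ, ⟨hξ1, hξ2⟩, hξ⟩ := exists_hasDerivAt_eq_slope U U1 (show y < 2 * y by linarith)
    (fun x hx => (S.d1 x (hy.trans_le hx.1)).continuousAt.continuousWithinAt)
    (fun x hx => S.d1 x (hy.trans hx.1))
  obtain ⟨η, ⟨hη1, hη2⟩, hη⟩ := exists_hasDerivAt_eq_slope U1
    (fun y => (4 * π ^ 2 - lam / y ^ 2) * U y) hξ1
    (fun x hx => (S.d2 x (hy.trans_le hx.1)).continuousAt.continuousWithinAt)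
    (fun x hx => S.d2 x (hy.trans hx.1))
  have hη0 : 0 < η := hy.trans hη1
  have e1 : |U1 ξ| ≤ 2 * E / y := by
    rw [hξ, abs_div, abs_of_pos (show 0 < 2 * y - y by linarith)]
    have : 2 * y - y = y := by ring
    rw [this]
    gcongr
    calc |U (2 * y) - U y| ≤ |U (2 * y)| + |U y| := abs_sub _ _
      _ ≤ E + E := add_le_add (hC' _ (by linarith)) (hC' _ le_rfl)
      _ = 2 * E := by ring
  have e2 : |(4 * π ^ 2 - lam / η ^ 2) * U η| ≤ (4 * π ^ 2 + |lam| / y ^ 2) * E := by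
    rw [abs_mul]
    gcongr
    · calc |4 * π ^ 2 - lam / η ^ 2| ≤ |4 * π ^ 2| + |lam / η ^ 2| := abs_sub _ _
        _ = 4 * π ^ 2 + |lam| / η ^ 2 := by
            rw [abs_of_pos (by positivity : (0:ℝ) < 4 * π ^ 2), abs_div,
              abs_of_pos (by positivity : (0:ℝ) < η ^ 2)]
        _ ≤ _ := by gcongr
    · exact hC' _ hη1.le
  have e3 : U1 y = U1 ξ - (4 * π ^ 2 - lam / η ^ 2) * U η * (ξ - y) := by
    have : (4 * π ^ 2 - lam / η ^ 2) * U η * (ξ - y) = U1 ξ - U1 y := by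
      rw [hη]
      exact div_mul_cancel₀ _ (by linarith)
    linarith
  rw [e3]
  calc |U1 ξ - (4 * π ^ 2 - lam / η ^ 2) * U η * (ξ - y)|
      ≤ |U1 ξ| + |(4 * π ^ 2 - lam / η ^ 2) * U η * (ξ - y)| := abs_sub _ _
    _ = |U1 ξ| + |(4 * π ^ 2 - lam / η ^ 2) * U η| * |ξ - y| := by rw [abs_mul _ (ξ - y)]
    _ ≤ 2 * E / y + (4 * π ^ 2 + |lam| / y ^ 2) * E * y := by
        gcongr
        rw [abs_of_pos (by linarith)]
        linarith
    _ = E * (2 / y + 4 * π ^ 2 * y + |lam| / y) := by field_simp; ring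
    _ ≤ E * ((2 + 4 * π ^ 2 + |lam|) * (1 / y + y)) := by
        gcongr
        have : (2 + 4 * π ^ 2 + |lam|) * (1 / y + y) - (2 / y + 4 * π ^ 2 * y + |lam| / y)
          = (4 * π ^ 2) / y + (2 + |lam|) * y := by
          field_simp
          ring
        have h2 : 0 ≤ (4 * π ^ 2) / y + (2 + |lam|) * y := by positivity
        linarith
    _ = _ := by rw [hE]; ring

/-- uniqueness -/
lemma Sol.eq_zero_of_right {lam : ℝ} {U U1 : ℝ → ℝ} (S : Sol lam U U1) (y2 : ℝ)
    (h0 : U y2 = 0) (h1 : U1 y2 = 0) (y : ℝ) (hy : 0 < y) (hy2 : y ≤ y2) : U y = 0 := by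
  set K := 1 + (4 * π ^ 2 + |lam| / y ^ 2) with hK
  set E : ℝ → ℝ := fun t => (U t ^ 2 + U1 t ^ 2) * exp (K * t) with hE
  set q : ℝ → ℝ := fun t => 4 * π ^ 2 - lam / t ^ 2 with hq
  have hder : ∀ t, 0 < t → HasDerivAt E ((2 * U t * U1 t + 2 * U1 t * (q t * U t)) * exp (K * t)
      + (U t ^ 2 + U1 t ^ 2) * (K * exp (K * t))) t := by
    intro t ht
    have a1 := (S.d1 t ht).fun_pow 2
    have a2 := (S.d2 t ht).fun_pow 2
    have a3 : HasDerivAt (fun t => exp (K * t)) (K * exp (K * t)) t := by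
      have := ((hasDerivAt_id t).const_mul K).exp
      simp only [id, mul_one] at this
      convert this using 1
      ring
    have a4 := (a1.add a2).mul a3
    refine a4.congr_deriv ?_
    simp only [hq, Pi.add_apply]
    norm_num
  have hmono : MonotoneOn E (Icc y y2) := by
    apply monotoneOn_of_deriv_nonneg (convex_Icc y y2)
    · intro t ht
      exact (hder t (hy.trans_le ht.1)).continuousAt.continuousWithinAt
    · intro t ht
      rw [interior_Icc] at ht
      exact (hder t (hy.trans ht.1)).differentiableAt.differentiableWithinAt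
    · intro t ht
      rw [interior_Icc] at ht
      rw [(hder t (hy.trans ht.1)).deriv]
      have ht0 : 0 < t := hy.trans ht.1
      have hq' : |q t| ≤ 4 * π ^ 2 + |lam| / y ^ 2 := by
        calc |4 * π ^ 2 - lam / t ^ 2| ≤ |4 * π ^ 2| + |lam / t ^ 2| := abs_sub _ _
          _ = 4 * π ^ 2 + |lam| / t ^ 2 := by
            rw [abs_of_pos (by positivity : (0:ℝ) < 4 * π ^ 2), abs_div,
              abs_of_pos (by positivity : (0:ℝ) < t ^ 2)]
          _ ≤ _ := by
            have := ht.1.le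
            gcongr
      have h5 : 0 ≤ (2 * U t * U1 t + 2 * U1 t * (q t * U t)) + (U t ^ 2 + U1 t ^ 2) * K := by
        have h6 : -(K * (U t ^ 2 + U1 t ^ 2)) ≤ (1 + q t) * (2 * (U t * U1 t)) := by
          have h7 : |1 + q t| ≤ K := by
            calc |1 + q t| ≤ |1| + |q t| := abs_add_le _ _
              _ ≤ K := by rw [abs_one, hK]; linarith
          have h8 : |2 * (U t * U1 t)| ≤ U t ^ 2 + U1 t ^ 2 := by
            rw [abs_le]
            constructor <;> nlinarith [sq_nonneg (U t + U1 t), sq_nonneg (U t - U1 t)]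
          have h9 : |(1 + q t) * (2 * (U t * U1 t))| ≤ K * (U t ^ 2 + U1 t ^ 2) := by
            rw [abs_mul]
            exact mul_le_mul h7 h8 (abs_nonneg _) ((abs_nonneg _).trans h7)
          exact (abs_le.mp h9).1
        nlinarith
      have h6 : (2 * U t * U1 t + 2 * U1 t * (q t * U t)) * exp (K * t)
          + (U t ^ 2 + U1 t ^ 2) * (K * exp (K * t)) =
          ((2 * U t * U1 t + 2 * U1 t * (q t * U t)) + (U t ^ 2 + U1 t ^ 2) * K) * exp (K * t) := by
        ring
      rw [h6]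
      positivity
  have h3 := hmono ⟨le_rfl, hy2⟩ ⟨hy2, le_rfl⟩ hy2
  simp only [hE, h0, h1] at h3
  have h4 : (U y ^ 2 + U1 y ^ 2) * exp (K * y) ≤ 0 := by
    refine h3.trans (le_of_eq ?_)
    ring
  have h5 : U y ^ 2 + U1 y ^ 2 ≤ 0 := by
    by_contra h
    push Not at h
    have : 0 < (U y ^ 2 + U1 y ^ 2) * exp (K * y) := by positivity
    linarith
  have h6 : U y ^ 2 = 0 := by nlinarith [sq_nonneg (U y), sq_nonneg (U1 y)]
  exact pow_eq_zero_iff (two_ne_zero) |>.mp h6

lemma Sol.ne_zero_of_thr {lam : ℝ} {U U1 : ℝ → ℝ} (S : Sol lam U U1)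
    (hne : ∃ y, 0 < y ∧ U y ≠ 0) (y : ℝ) (hy : thr lam ≤ y) : U y ≠ 0 := by
  intro h0
  obtain ⟨C, hC0, hC, hanti, hdec⟩ := S.sq
  have hz : ∀ z, y ≤ z → U z = 0 := by
    intro z hz
    have := hanti y z hy hz
    rw [h0] at this
    have h6 : U z ^ 2 = 0 := by nlinarith [sq_nonneg (U z)]
    exact pow_eq_zero_iff (two_ne_zero) |>.mp h6
  obtain ⟨w, hw0, hw⟩ := hne
  apply hw
  rcases le_total y w with h | h
  · exact hz w h
  have h1 : U1 (y + 1) = 0 := by
    have hd := S.d1 (y + 1) (by linarith [thr_pos lam])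
    have : HasDerivAt U 0 (y + 1) := by
      refine (hasDerivAt_const (y + 1) (0:ℝ)).congr_of_eventuallyEq ?_
      filter_upwards [Ioi_mem_nhds (show y < y + 1 by linarith)] with t ht
      exact hz t (le_of_lt ht)
    exact hd.unique this
  exact S.eq_zero_of_right (y + 1) (hz _ (by linarith)) h1 w hw0 (by linarith)

lemma Sol.neg {lam : ℝ} {U U1 : ℝ → ℝ} (S : Sol lam U U1) :
    Sol lam (fun y => - U y) (fun y => - U1 y) where
  d1 := fun y hy => (S.d1 y hy).fun_neg
  d2 := fun y hy => by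
    refine (S.d2 y hy).fun_neg.congr_deriv ?_
    ring
  bd := by
    obtain ⟨C, hC⟩ := S.bd
    exact ⟨C, fun y hy => by rw [abs_neg]; exact hC y hy⟩

lemma Sol.continuousOn {lam : ℝ} {U U1 : ℝ → ℝ} (S : Sol lam U U1) :
    ContinuousOn U (Ioi 0) :=
  fun y hy => (S.d1 y hy).continuousAt.continuousWithinAt

lemma Sol.integrable {lam : ℝ} {U U1 : ℝ → ℝ} (S : Sol lam U U1) (m : ℕ) :
    IntegrableOn (fun t => t ^ m * U t) (Ioi 0) := by
  obtain ⟨C, hC0, hC⟩ := S.decay
  have h1 : IntegrableOn (fun t : ℝ => C * (t ^ m * exp (-((1/8) * t)))) (Ioi 0) := by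
    apply Integrable.const_mul
    have := integrableOn_rpow_mul_exp_neg_mul_rpow (p := 1) (s := m) (b := 1/8)
      (by have : (0:ℝ) ≤ m := by positivity
          linarith) one_pos (by norm_num)
    refine this.congr_fun ?_ measurableSet_Ioi
    intro t ht
    simp only [rpow_natCast, rpow_one, neg_mul]
  refine Integrable.mono' h1 ?_ ?_
  · apply ContinuousOn.aestronglyMeasurable _ measurableSet_Ioi
    exact ((continuous_pow m).continuousOn).mul S.continuousOn
  · rw [ae_restrict_iff' measurableSet_Ioi]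
    filter_upwards with t ht
    have ht : 0 < t := ht
    rw [norm_mul, norm_pow, Real.norm_of_nonneg ht.le, Real.norm_eq_abs]
    have := hC t ht
    have h2 : exp (-(1 / 8 * t)) = exp (-(t / 8)) := by congr 1; ring
    rw [h2]
    calc t ^ m * |U t| ≤ t ^ m * (C * exp (-(t/8))) := by gcongr
      _ = _ := by ring

/-- if arbitrarily large moments vanish then the solution vanishes -/
lemma Sol.moments_pos {lam : ℝ} {U U1 : ℝ → ℝ} (S : Sol lam U U1)
    (hpos : ∀ y, thr lam ≤ y → 0 < U y)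
    (hm : ∀ N : ℕ, ∃ m : ℕ, N ≤ m ∧ ∫ t in Ioi (0:ℝ), t ^ m * U t = 0) : False := by
  set a := thr lam with ha
  have ha0 : 0 < a := thr_pos lam
  obtain ⟨C, hC⟩ := S.bd
  have hC0 : 0 ≤ C := le_trans (abs_nonneg _) (hC 1 one_pos)
  -- δ
  set δ := ∫ t in Ioi a, U t with hδ
  have hint0 : IntegrableOn U (Ioi 0) := by
    have := S.integrable 0
    simpa using this
  have hinta : IntegrableOn U (Ioi a) := hint0.mono_set (Ioi_subset_Ioi ha0.le)
  have hδ0 : 0 < δ := by
    rw [hδ, setIntegral_pos_iff_support_of_nonneg_ae]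
    · have : Ioi a ⊆ Function.support U ∩ Ioi a := by
        intro t ht
        exact ⟨(hpos t (le_of_lt ht)).ne', ht⟩
      refine lt_of_lt_of_le ?_ (measure_mono this)
      simp
    · rw [EventuallyLE, ae_restrict_iff' measurableSet_Ioi]
      filter_upwards with t ht
      exact (hpos t (le_of_lt ht)).le
    · exact hinta
  obtain ⟨N, hN⟩ := exists_nat_gt (C * a / δ)
  obtain ⟨m, hNm, hm0⟩ := hm N
  -- split
  have hsplit : ∫ t in Ioi (0:ℝ), t ^ m * U t =
      (∫ t in Ioc 0 a, t ^ m * U t) + ∫ t in Ioi a, t ^ m * U t := by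
    rw [← setIntegral_union (Ioc_disjoint_Ioi le_rfl) measurableSet_Ioi
      ((S.integrable m).mono_set Ioc_subset_Ioi_self)
      ((S.integrable m).mono_set (Ioi_subset_Ioi ha0.le)), Ioc_union_Ioi_eq_Ioi ha0.le]
  have h1 : a ^ m * δ ≤ ∫ t in Ioi a, t ^ m * U t := by
    rw [hδ, ← integral_const_mul]
    apply setIntegral_mono_on (hinta.const_mul _)
      ((S.integrable m).mono_set (Ioi_subset_Ioi ha0.le)) measurableSet_Ioi
    intro t ht
    have ht' : a < t := ht
    have := hpos t ht'.le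
    gcongr
  have h2 : |∫ t in Ioc 0 a, t ^ m * U t| ≤ C * (a ^ (m + 1) / (m + 1)) := by
    have h3 : ∫ t in Ioc 0 a, C * t ^ m = C * (a ^ (m + 1) / (m + 1)) := by
      rw [integral_const_mul, ← intervalIntegral.integral_of_le ha0.le, integral_pow]
      simp
    rw [← h3, ← Real.norm_eq_abs]
    apply norm_integral_le_of_norm_le
    · apply Integrable.const_mul
      have : IntervalIntegrable (fun t : ℝ => t ^ m) volume 0 a :=
        (continuous_pow m).intervalIntegrable _ _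
      rw [intervalIntegrable_iff_integrableOn_Ioc_of_le ha0.le] at this
      exact this
    · rw [ae_restrict_iff' measurableSet_Ioc]
      filter_upwards with t ht
      rw [norm_mul, norm_pow, Real.norm_of_nonneg ht.1.le, Real.norm_eq_abs, mul_comm]
      have := hC t ht.1
      have ht0 := ht.1.le
      gcongr
  rw [hm0] at hsplit
  have h4 : a ^ m * δ ≤ C * (a ^ (m + 1) / (m + 1)) := by
    have := (abs_le.mp h2).1
    linarith
  have h5 : a ^ m * (δ * (m + 1)) ≤ a ^ m * (C * a) := by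
    have h6 : a ^ m * (δ * (m + 1)) = (a ^ m * δ) * (m + 1) := by ring
    have h7 : a ^ m * (C * a) = (C * (a ^ (m + 1) / (m + 1))) * (m + 1) := by
      field_simp
      ring
    rw [h6, h7]
    gcongr
  have h6 : δ * (m + 1) ≤ C * a := le_of_mul_le_mul_left h5 (by positivity)
  have h7 : C * a < δ * N := by
    rw [div_lt_iff₀ hδ0] at hN
    linarith
  have h8 : (N : ℝ) ≤ m := by exact_mod_cast hNm
  nlinarith

lemma Sol.moments {lam : ℝ} {U U1 : ℝ → ℝ} (S : Sol lam U U1)
    (hm : ∀ N : ℕ, ∃ m : ℕ, N ≤ m ∧ ∫ t in Ioi (0:ℝ), t ^ m * U t = 0) (y : ℝ) (hy : 0 < y) :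
    U y = 0 := by
  by_contra hne
  have hnz := S.ne_zero_of_thr ⟨y, hy, hne⟩
  have hcont : ContinuousOn U (Ici (thr lam)) := S.continuousOn.mono
    (fun t ht => (thr_pos lam).trans_le ht)
  have hconn : IsPreconnected (Ici (thr lam)) := isPreconnected_Ici
  rcases lt_or_gt_of_ne (hnz _ le_rfl) with hlt | hgt
  · refine S.neg.moments_pos (fun z hz => ?_) ?_
    · by_contra h
      push Not at h
      have hz0 : 0 ≤ U z := by linarith
      obtain ⟨c, hc1, hc2⟩ := hconn.intermediate_value (mem_Ici.mpr (le_refl (thr lam))) hz hcont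
        ⟨hlt.le, hz0⟩
      exact hnz c hc1 hc2
    · intro N
      obtain ⟨m, h1, h2⟩ := hm N
      refine ⟨m, h1, ?_⟩
      simp only [mul_neg, integral_neg, h2, neg_zero]
  · refine S.moments_pos (fun z hz => ?_) hm
    by_contra h
    push Not at h
    obtain ⟨c, hc1, hc2⟩ := hconn.intermediate_value hz (mem_Ici.mpr (le_refl (thr lam))) hcont
      ⟨h, hgt.le⟩
    exact hnz c hc1 hc2

end Pool.Agent.H59R3.M17
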