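import Pool.Agent.H59R3.M17.Four3

set_option autoImplicit false

open Real Set Filter Topology MeasureTheory UpperHalfPlane

namespace Pool.Agent.H59R3.M17

variable {f : ℍ → ℂ} {lam : ℝ} {a : ℕ → ℂ} {q : ℕ} [NeZero q]

/-- the Gauss sum -/
noncomputable def tau (χ : DirichletCharacter ℂ q) : ℂ := gaussSum χ (ZMod.stdAddChar (N := q))

lemma tau_ne_zero {χ : DirichletCharacter ℂ q} (hχ : χ.IsPrimitive) : tau χ ≠ 0 := by
  intro h
  have h1 : ZMod.dft (χ : ZMod q → ℂ) = 0 := by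
    funext k
    rw [hχ.fourierTransform_eq_inv_mul_gaussSum]
    rw [tau] at h
    rw [h, mul_zero]
    rfl
  have h2 : (χ : ZMod q → ℂ) = 0 := (LinearEquiv.map_eq_zero_iff _).mp h1
  have h3 := congrFun h2 1
  rw [map_one] at h3
  exact one_ne_zero h3

/-- exponential sums with a primitive quadratic character -/
lemma char_sum {χ : DirichletCharacter ℂ q} (hχ : χ.IsPrimitive) (hχ2 : χ ^ 2 = 1) (n : ℤ) :
    ∑ u : (ZMod q)ˣ, χ u * e n ((((u : ZMod q).val : ℕ) : ℝ) / q) = χ (n : ZMod q) * tau χ := by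
  have h1 := gaussSum_mulShift_of_isPrimitive (ZMod.stdAddChar (N := q)) hχ (n : ZMod q)
  have h2 : χ⁻¹ = χ := by
    rw [inv_eq_iff_mul_eq_one, ← sq, hχ2]
  rw [h2] at h1
  rw [tau, ← h1, gaussSum]
  refine Fintype.sum_of_injective (fun u : (ZMod q)ˣ => (u : ZMod q)) Units.val_injective _ _ ?_ ?_
  · intro b hb
    rw [MulChar.map_nonunit _ (fun hu => hb ⟨hu.unit, hu.unit_spec⟩), zero_mul]
  · intro u
    congr 1
    rw [AddChar.mulShift_apply]
    have h3 : (n : ZMod q) * (u : ZMod q) = ((n * ((u : ZMod q).val : ℤ) : ℤ) : ZMod q) := by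
      push_cast
      rw [ZMod.natCast_zmod_val]
    rw [h3, ZMod.stdAddChar_coe, e]
    congr 1
    push_cast
    ring

/-- the twisted form -/
noncomputable def G (f : ℍ → ℂ) (χ : DirichletCharacter ℂ q) (x y : ℝ) : ℂ :=
  ∑ u : (ZMod q)ˣ, χ u * f (pt ((((u : ZMod q).val : ℕ) : ℝ) / q + x) y)

/-- automorphy of the twisted form -/
lemma G_transf (hm : ∀ (γ : Matrix.SpecialLinearGroup (Fin 2) ℤ) (z : ℍ), f (γ • z) = f z)
    {χ : DirichletCharacter ℂ q} (hχ2 : χ ^ 2 = 1) (x : ℝ) {y : ℝ} (hy : 0 < y) :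
    G f χ x y = χ (-1) * G f χ (-(x / (q ^ 2 * (x ^ 2 + y ^ 2)))) (y / (q ^ 2 * (x ^ 2 + y ^ 2))) := by
  have hq0 : 0 < q := Nat.pos_of_ne_zero (NeZero.ne q)
  have hqr : (0:ℝ) < q := by exact_mod_cast hq0
  have hY : 0 < y / (q ^ 2 * (x ^ 2 + y ^ 2)) := by positivity
  rw [G, G, Finset.mul_sum]
  let φ : (ZMod q)ˣ ≃ (ZMod q)ˣ :=
    { toFun := fun u => -u⁻¹
      invFun := fun u => -u⁻¹
      left_inv := fun u => by simp
      right_inv := fun u => by simp }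
  refine Fintype.sum_equiv φ _ _ ?_
  intro u
  have h1 : χ u = χ (-1) * χ ((φ u : (ZMod q)ˣ) : ZMod q) := by
    have e1 : ((φ u : (ZMod q)ˣ) : ZMod q) = (-1) * ((u⁻¹ : (ZMod q)ˣ) : ZMod q) := by
      simp [φ]
    rw [e1, map_mul, ← mul_assoc]
    have e2 : χ (-1) * χ (-1) = 1 := by
      rw [← map_mul]; simp
    rw [e2, one_mul]
    have e3 : χ (u : ZMod q) * χ ((u⁻¹ : (ZMod q)ˣ) : ZMod q) = 1 := by
      rw [← map_mul]; simp
    have e4 : χ ((u⁻¹ : (ZMod q)ˣ) : ZMod q) * χ ((u⁻¹ : (ZMod q)ˣ) : ZMod q) = 1 := by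
      have := DFunLike.congr_fun hχ2 ((u⁻¹ : (ZMod q)ˣ) : ZMod q)
      rw [sq, MulChar.mul_apply, MulChar.one_apply_coe] at this
      exact this
    have hne : χ ((u⁻¹ : (ZMod q)ˣ) : ZMod q) ≠ 0 := by
      intro h0
      rw [h0, mul_zero] at e4
      exact zero_ne_one e4
    exact mul_right_cancel₀ hne (e3.trans e4.symm)
  rw [← mul_assoc, ← h1]
  congr 1
  set b : ℕ := (u : ZMod q).val with hb
  set c : ℕ := ((u⁻¹ : (ZMod q)ˣ) : ZMod q).val with hc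
  have hbc : ((q : ℤ)) ∣ (b : ℤ) * (c : ℤ) - 1 := by
    rw [← ZMod.intCast_zmod_eq_zero_iff_dvd]
    push_cast
    rw [hb, hc, ZMod.natCast_zmod_val, ZMod.natCast_zmod_val]
    simp
  have h2 := transf hm (q : ℤ) (b : ℤ) (c : ℤ) (by exact_mod_cast hq0) hbc x hy
  push_cast at h2
  rw [h2]
  have h3 : ∃ k : ℤ, (((φ u : (ZMod q)ˣ) : ZMod q).val : ℤ) = -(c:ℤ) + q * k := by
    have : (q : ℤ) ∣ (((φ u : (ZMod q)ˣ) : ZMod q).val : ℤ) - (-(c:ℤ)) := by
      rw [← ZMod.intCast_zmod_eq_zero_iff_dvd]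
      push_cast
      rw [hc, ZMod.natCast_zmod_val, ZMod.natCast_zmod_val]
      simp [φ]
    obtain ⟨k, hk⟩ := this
    exact ⟨k, by linarith⟩
  obtain ⟨k, hk⟩ := h3
  have h4 : ((((φ u : (ZMod q)ˣ) : ZMod q).val : ℕ) : ℝ) = -(c:ℝ) + q * k := by
    exact_mod_cast hk
  rw [h4, ← periodic_of_modular hm (-(↑c / ↑q) - x / (↑q ^ 2 * (x ^ 2 + y ^ 2))) hY k]
  congr 2
  field_simp
  ring

/-- Fourier expansion of the twisted form -/
lemma OddMaass.G_expansion (h : OddMaass f lam a) {χ : DirichletCharacter ℂ q}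
    (hχ : χ.IsPrimitive) (hχ2 : χ ^ 2 = 1) (x : ℝ) {y : ℝ} (hy : 0 < y) :
    HasSum (fun n : ℕ => tau χ * (co a n * χ n * A f 1 (n * y) * (e n x - χ (-1) * e (-n) x)))
      (G f χ x y) := by
  have h1 : HasSum (fun n : ℕ => ∑ u : (ZMod q)ˣ, χ u * (co a n * A f 1 (n * y) *
      (e n ((((u : ZMod q).val : ℕ) : ℝ) / q + x) - e (-n) ((((u : ZMod q).val : ℕ) : ℝ) / q + x))))
      (G f χ x y) :=
    hasSum_sum fun u _ => (h.expansion _ hy).mul_left _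
  convert h1 using 1
  funext n
  have c1 := char_sum hχ hχ2 (n : ℤ)
  have c2 := char_sum hχ hχ2 (-(n : ℤ))
  have c3 : χ ((-(n:ℤ) : ℤ) : ZMod q) = χ (-1) * χ (n : ZMod q) := by
    rw [← map_mul]; congr 1; push_cast; ring
  rw [c3] at c2
  have c4 : ((n : ℤ) : ZMod q) = (n : ZMod q) := by push_cast; rfl
  rw [c4] at c1
  have : ∀ u : (ZMod q)ˣ, χ u * (co a n * A f 1 (n * y) *
      (e n ((((u : ZMod q).val : ℕ) : ℝ) / q + x) - e (-n) ((((u : ZMod q).val : ℕ) : ℝ) / q + x))) =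
      (co a n * A f 1 (n * y)) * (e n x * (χ u * e n ((((u : ZMod q).val : ℕ) : ℝ) / q)) -
        e (-n) x * (χ u * e (-n) ((((u : ZMod q).val : ℕ) : ℝ) / q))) := by
    intro u
    rw [e_add, e_add]
    ring
  rw [Finset.sum_congr rfl (fun u _ => this u), ← Finset.mul_sum, Finset.sum_sub_distrib,
    ← Finset.mul_sum, ← Finset.mul_sum, c1, c2]
  ring

end Pool.Agent.H59R3.M17
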