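import Pool.Agent.H59R3.M17.Twist1

set_option autoImplicit false

open Real Set Filter Topology MeasureTheory UpperHalfPlane

namespace Pool.Agent.H59R3.M17

/-! ### Abstract theta-like series -/

section abstract_series

variable {V : ℝ → ℂ} {c : ℕ → ℂ} {K C : ℝ}

lemma ser_bound (hc : ∀ n, ‖c n‖ ≤ K) (hc0 : c 0 = 0) (hK : 0 ≤ K) (hC : 0 ≤ C)
    (hV : ∀ t, 0 < t → ‖V t‖ ≤ C * exp (-(t / 16))) (n : ℕ) {y : ℝ} (hy : 0 < y) :
    ‖c n * V (n * y)‖ ≤ K * C * exp (-(y / 16)) ^ n := by
  rcases Nat.eq_zero_or_pos n with h0 | h0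
  · subst h0
    rw [hc0, zero_mul, norm_zero]; positivity
  · have hn : (0:ℝ) < n := by exact_mod_cast h0
    rw [norm_mul]
    have h1 := hV (n * y) (by positivity)
    have h2 : exp (-(n * y / 16)) = exp (-(y / 16)) ^ n := by
      rw [← exp_nat_mul]; congr 1; ring
    rw [h2] at h1
    calc ‖c n‖ * ‖V (n * y)‖ ≤ K * (C * exp (-(y / 16)) ^ n) := by
          gcongr
          exact hc n
      _ = _ := by ring

lemma exp_lt_one' {y : ℝ} (hy : 0 < y) : exp (-(y / 16)) < 1 := by
  rw [exp_lt_one_iff]; linarith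

lemma ser_summable (hc : ∀ n, ‖c n‖ ≤ K) (hc0 : c 0 = 0) (hK : 0 ≤ K) (hC : 0 ≤ C)
    (hV : ∀ t, 0 < t → ‖V t‖ ≤ C * exp (-(t / 16))) {y : ℝ} (hy : 0 < y) :
    Summable (fun n : ℕ => c n * V (n * y)) :=
  Summable.of_norm_bounded
    ((summable_geometric_of_lt_one (exp_pos _).le (exp_lt_one' hy)).mul_left (K * C))
    (fun n => ser_bound hc hc0 hK hC hV n hy)

/-- the series -/
noncomputable def ser (c : ℕ → ℂ) (V : ℝ → ℂ) (y : ℝ) : ℂ := ∑' n : ℕ, c n * V (n * y)

lemma ser_norm_le (hc : ∀ n, ‖c n‖ ≤ K) (hc0 : c 0 = 0) (hK : 0 ≤ K) (hC : 0 ≤ C)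
    (hV : ∀ t, 0 < t → ‖V t‖ ≤ C * exp (-(t / 16))) {y : ℝ} (hy : 1 ≤ y) :
    ‖ser c V y‖ ≤ K * C / (1 - exp (-(1 / 16))) * exp (-(y / 16)) := by
  have hy0 : 0 < y := by linarith
  have hr1 := exp_lt_one' hy0
  have hr2 : exp (-(1/16 : ℝ)) < 1 := by rw [exp_lt_one_iff]; norm_num
  have hs := (summable_geometric_of_lt_one (exp_pos _).le hr1)
  have hb : ∀ n : ℕ, ‖c n * V (n * y)‖ ≤ K * C * exp (-(y / 16)) * exp (-(y / 16)) ^ (n - 1) := by
    intro n
    rcases Nat.eq_zero_or_pos n with h0 | h0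
    · subst h0
      rw [hc0, zero_mul, norm_zero]; positivity
    · refine (ser_bound hc hc0 hK hC hV n hy0).trans (le_of_eq ?_)
      rw [mul_assoc (K * C), ← pow_succ', Nat.sub_add_cancel h0]
  -- drop n = 0
  have hsum : HasSum (fun n : ℕ => c (n + 1) * V ((n + 1 : ℕ) * y)) (ser c V y) := by
    have h1 := (ser_summable hc hc0 hK hC hV hy0).hasSum
    have h2 := (hasSum_nat_add_iff' 1).mpr h1
    simpa [hc0, ser] using h2
  have h3 : HasSum (fun n : ℕ => K * C * exp (-(y / 16)) * exp (-(y / 16)) ^ n)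
      (K * C * exp (-(y / 16)) * (1 - exp (-(y / 16)))⁻¹) :=
    (hasSum_geometric_of_lt_one (exp_pos _).le hr1).mul_left _
  have h4 : ‖ser c V y‖ ≤ K * C * exp (-(y / 16)) * (1 - exp (-(y / 16)))⁻¹ := by
    rw [← hsum.tsum_eq, ← h3.tsum_eq]
    refine tsum_of_norm_bounded h3.summable.hasSum (fun n => ?_)
    have := hb (n + 1)
    simpa using this
  refine h4.trans ?_
  have h5 : exp (-(y / 16)) ≤ exp (-(1/16)) := exp_le_exp.mpr (by linarith)
  have h6 : 0 < 1 - exp (-(1/16 : ℝ)) := by linarith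
  calc K * C * exp (-(y / 16)) * (1 - exp (-(y / 16)))⁻¹
      ≤ K * C * exp (-(y / 16)) * (1 - exp (-(1 / 16)))⁻¹ :=
        mul_le_mul_of_nonneg_left (inv_anti₀ h6 (by linarith)) (by positivity)
    _ = _ := by ring

lemma ser_continuousOn (hc : ∀ n, ‖c n‖ ≤ K) (hc0 : c 0 = 0) (hK : 0 ≤ K) (hC : 0 ≤ C)
    (hV : ∀ t, 0 < t → ‖V t‖ ≤ C * exp (-(t / 16))) (hVc : ContinuousOn V (Ioi 0)) :
    ContinuousOn (ser c V) (Ioi 0) := by
  intro y hy
  have hy : 0 < y := hy
  have hopen : Ioi (y / 2) ∈ 𝓝 y := Ioi_mem_nhds (by linarith)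
  have : ContinuousOn (ser c V) (Ioi (y / 2)) := by
    have hy2 : 0 < y / 2 := by linarith
    refine continuousOn_tsum (u := fun n => K * C * exp (-(y / 2 / 16)) ^ n) ?_
      ((summable_geometric_of_lt_one (exp_pos _).le (exp_lt_one' hy2)).mul_left (K * C)) ?_
    · intro n
      rcases Nat.eq_zero_or_pos n with h0 | h0
      · subst h0
        simp only [hc0, zero_mul]
        exact continuousOn_const
      · have hn : (0:ℝ) < n := by exact_mod_cast h0
        refine continuousOn_const.mul (hVc.comp (by fun_prop) ?_)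
        intro t ht
        have ht' : y / 2 < t := ht
        have : 0 < t := by linarith
        exact mul_pos hn this
    · intro n t ht
      have ht' : y / 2 < t := ht
      refine (ser_bound hc hc0 hK hC hV n (by linarith)).trans ?_
      have : exp (-(t / 16)) ≤ exp (-(y / 2 / 16)) := exp_le_exp.mpr (by linarith)
      gcongr
  exact (this.continuousAt hopen).continuousWithinAt

/-- Mellin transform of the series -/
lemma ser_mellin (hc : ∀ n, ‖c n‖ ≤ K) (hc0 : c 0 = 0) (hK : 0 ≤ K) (hC : 0 ≤ C)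
    (hV : ∀ t, 0 < t → ‖V t‖ ≤ C * exp (-(t / 16))) (hVc : ContinuousOn V (Ioi 0))
    {w : ℂ} (hw : 1 < w.re) :
    HasSum (fun n : ℕ => c n * (n : ℂ) ^ (-w) * mellin V w) (mellin (ser c V) w) := by
  have hw0 : 0 < w.re := by linarith
  -- bound of each integral
  have hint : ∀ n : ℕ, 0 < n → IntegrableOn (fun t : ℝ => (K * C) * (t ^ (w.re - 1) * exp (-(n / 16 * t)))) (Ioi 0) := by
    intro n hn
    have hn' : (0:ℝ) < n := by exact_mod_cast hn
    apply Integrable.const_mul
    have := integrableOn_rpow_mul_exp_neg_mul_rpow (p := 1) (s := w.re - 1) (b := n / 16)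
      (by linarith) one_pos (by positivity)
    refine this.congr_fun ?_ measurableSet_Ioi
    intro t ht
    simp only [rpow_one, neg_mul]
  have hnorm : ∀ n : ℕ, 0 < n → ∀ t : ℝ, 0 < t → ‖(t : ℂ) ^ (w - 1) • (c n * V (n * t))‖ ≤
      (K * C) * (t ^ (w.re - 1) * exp (-(n / 16 * t))) := by
    intro n hn t ht
    have hn' : (0:ℝ) < n := by exact_mod_cast hn
    rw [norm_smul, Complex.norm_cpow_eq_rpow_re_of_pos ht, Complex.sub_re, Complex.one_re, norm_mul]
    have h1 := hV (n * t) (by positivity)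
    have h2 : exp (-(n * t / 16)) = exp (-(n / 16 * t)) := by congr 1; ring
    rw [h2] at h1
    calc t ^ (w.re - 1) * (‖c n‖ * ‖V (n * t)‖) ≤ t ^ (w.re - 1) * (K * (C * exp (-(n / 16 * t)))) := by
          gcongr
          exact hc n
      _ = _ := by ring
  have hcont : ∀ n : ℕ, 0 < n → ContinuousOn (fun t : ℝ => (t : ℂ) ^ (w - 1) • (c n * V (n * t))) (Ioi 0) := by
    intro n hn
    have hn' : (0:ℝ) < n := by exact_mod_cast hn
    intro t ht
    have ht : 0 < t := ht
    have h1 : ContinuousAt (fun t : ℝ => (t : ℂ) ^ (w - 1)) t :=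
      Complex.continuousAt_ofReal_cpow_const _ _ (Or.inr ht.ne')
    have h2 : ContinuousAt (fun t : ℝ => V (n * t)) t := by
      have h3 : ContinuousAt V (n * t) := hVc.continuousAt (Ioi_mem_nhds (by positivity))
      exact ContinuousAt.comp (f := fun t : ℝ => n * t) h3 (by fun_prop)
    exact (h1.smul (continuousAt_const.mul h2)).continuousWithinAt
  have hF : ∀ n : ℕ, Integrable (fun t : ℝ => (t : ℂ) ^ (w - 1) • (c n * V (n * t))) (volume.restrict (Ioi 0)) := by
    intro n
    rcases Nat.eq_zero_or_pos n with h0 | h0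
    · subst h0
      simp only [hc0, zero_mul, smul_zero]
      exact integrable_zero _ _ _
    · refine Integrable.mono' (hint n h0) ((hcont n h0).aestronglyMeasurable measurableSet_Ioi) ?_
      rw [ae_restrict_iff' measurableSet_Ioi]
      exact Eventually.of_forall fun t ht => hnorm n h0 t ht
  have hsumnorm : Summable (fun n : ℕ => ∫ t in Ioi (0:ℝ), ‖(t : ℂ) ^ (w - 1) • (c n * V (n * t))‖) := by
    have hbd : ∀ n : ℕ, (∫ t in Ioi (0:ℝ), ‖(t : ℂ) ^ (w - 1) • (c n * V (n * t))‖) ≤
        (K * C * Real.Gamma w.re * 16 ^ w.re) * (1 / (n : ℝ) ^ w.re) := by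
      intro n
      rcases Nat.eq_zero_or_pos n with h0 | h0
      · subst h0
        simp only [hc0, zero_mul, smul_zero, norm_zero, integral_zero]
        have := Real.Gamma_pos_of_pos hw0
        positivity
      · have hn' : (0:ℝ) < n := by exact_mod_cast h0
        have h1 : (∫ t in Ioi (0:ℝ), ‖(t : ℂ) ^ (w - 1) • (c n * V (n * t))‖) ≤
            ∫ t in Ioi (0:ℝ), (K * C) * (t ^ (w.re - 1) * exp (-(n / 16 * t))) := by
          apply setIntegral_mono_on (hF n).norm (hint n h0) measurableSet_Ioi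
          intro t ht
          exact hnorm n h0 t ht
        refine h1.trans (le_of_eq ?_)
        rw [integral_const_mul, Real.integral_rpow_mul_exp_neg_mul_Ioi hw0 (by positivity)]
        rw [one_div_div, Real.div_rpow (by norm_num) hn'.le]
        ring
    refine Summable.of_nonneg_of_le (fun n => integral_nonneg fun _ => norm_nonneg _) hbd ?_
    exact (Real.summable_one_div_nat_rpow.mpr hw).mul_left _
  have key := hasSum_integral_of_summable_integral_norm hF hsumnorm
  have h1 : (∫ t in Ioi (0:ℝ), ∑' n : ℕ, (t : ℂ) ^ (w - 1) • (c n * V (n * t))) = mellin (ser c V) w := by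
    rw [mellin]
    refine setIntegral_congr_fun measurableSet_Ioi fun t ht => ?_
    simp only [ser, smul_eq_mul]
    rw [tsum_mul_left]
  rw [h1] at key
  have hkey : (fun n : ℕ => c n * (n : ℂ) ^ (-w) * mellin V w) =
      fun n : ℕ => ∫ t in Ioi (0:ℝ), (t : ℂ) ^ (w - 1) • (c n * V (n * t)) := ?_
  · rw [hkey]; exact key
  funext n
  rcases Nat.eq_zero_or_pos n with h0 | h0
  · subst h0
    simp only [hc0, zero_mul, smul_zero, integral_zero]
  · have hn' : (0:ℝ) < n := by exact_mod_cast h0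
    have h2 := mellin_comp_mul_left V w hn'
    have h3 : (∫ t in Ioi (0:ℝ), (t : ℂ) ^ (w - 1) • (c n * V (n * t))) =
        c n * mellin (fun t => V (n * t)) w := by
      rw [mellin, ← integral_const_mul]
      refine setIntegral_congr_fun measurableSet_Ioi fun t ht => ?_
      simp only [smul_eq_mul]
      ring
    rw [h3, h2, smul_eq_mul]
    push_cast
    ring

end abstract_series

/-! ### Functions with an odd functional equation -/

lemma mellin_of_fe {g : ℝ → ℂ} {N : ℝ} (hN : 0 < N) (hgc : ContinuousOn g (Ioi 0)) {B : ℝ}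
    (hdec : ∀ y, 1 ≤ y → ‖g y‖ ≤ B * exp (-(y / 16)))
    (hfe : ∀ y, 0 < y → g y = - g (1 / (N * y))) :
    (∀ s : ℂ, DifferentiableAt ℂ (mellin g) s) ∧ mellin g 0 = 0 := by
  have htop : ∀ r : ℝ, g =O[atTop] (fun t : ℝ => t ^ (-r)) := by
    intro r
    have h1 : g =O[atTop] fun t => exp (-(1/16) * t) := by
      refine Asymptotics.IsBigO.of_bound B ?_
      filter_upwards [eventually_ge_atTop 1] with y hy
      rw [Real.norm_of_nonneg (exp_pos _).le]
      have : exp (-(1/16) * y) = exp (-(y / 16)) := by congr 1; ring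
      rw [this]
      exact hdec y hy
    exact h1.trans (isLittleO_exp_neg_mul_rpow_atTop (by norm_num) _).isBigO
  have hbot : ∀ r : ℝ, g =O[𝓝[>] 0] (fun t : ℝ => t ^ (-r)) := by
    intro r
    have h1 := htop (-r)
    have h2 : Tendsto (fun t : ℝ => 1 / (N * t)) (𝓝[>] 0) atTop := by
      have h3 : Tendsto (fun t : ℝ => t⁻¹) (𝓝[>] 0) atTop := tendsto_inv_nhdsGT_zero
      have h4 := h3.const_mul_atTop (show 0 < 1 / N by positivity)
      refine h4.congr' ?_
      filter_upwards [self_mem_nhdsWithin] with t ht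
      have ht : 0 < t := ht
      field_simp
    have h3 := h1.comp_tendsto h2
    have h4 : g =ᶠ[𝓝[>] 0] fun t => - (g ∘ fun t : ℝ => 1 / (N * t)) t := by
      filter_upwards [self_mem_nhdsWithin] with t ht
      exact hfe t ht
    have h5 : (fun t => - (g ∘ fun t : ℝ => 1 / (N * t)) t) =O[𝓝[>] 0] (fun t : ℝ => t ^ (-r)) := by
      refine (h3.neg_left).trans ?_
      refine Asymptotics.IsBigO.of_bound ((1 / N) ^ r) ?_
      filter_upwards [self_mem_nhdsWithin] with t ht
      have ht : 0 < t := ht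
      simp only [Function.comp_apply, neg_neg]
      rw [one_div, mul_inv, Real.mul_rpow (by positivity) (by positivity), norm_mul,
        Real.norm_of_nonneg (by positivity), one_div, Real.inv_rpow ht.le, ← Real.rpow_neg ht.le]
    exact (h4.isBigO.trans h5)
  refine ⟨fun s => ?_, ?_⟩
  · exact mellin_differentiableAt_of_isBigO_rpow (a := s.re + 1) (b := s.re - 1)
      (hgc.locallyIntegrableOn measurableSet_Ioi) (htop _) (by linarith) (hbot _) (by linarith)
  · have h1 : mellin g 0 = mellin (fun y => - g (1 / (N * y))) 0 := by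
      rw [mellin, mellin]
      refine setIntegral_congr_fun measurableSet_Ioi fun t ht => ?_
      change (t : ℂ) ^ ((0:ℂ) - 1) • g t = (t : ℂ) ^ ((0:ℂ) - 1) • (- g (1 / (N * t)))
      rw [← hfe t ht]
    have h2 : mellin (fun y => g (1 / (N * y))) 0 = mellin g 0 := by
      have h3 := mellin_comp_mul_left (fun y => g y⁻¹) 0 hN
      have h4 := mellin_comp_inv g 0
      rw [h4] at h3
      simp only [neg_zero, Complex.cpow_zero, one_smul] at h3
      simpa only [one_div] using h3
    have h5 : mellin (fun y => - g (1 / (N * y))) 0 = - mellin (fun y => g (1 / (N * y))) 0 := by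
      rw [mellin, mellin, ← integral_neg]
      refine setIntegral_congr_fun measurableSet_Ioi fun t ht => ?_
      simp only [smul_neg]
    rw [h5, h2] at h1
    have h6 : (2:ℂ) * mellin g 0 = 0 := by linear_combination h1
    exact (mul_eq_zero.mp h6).resolve_left two_ne_zero

end Pool.Agent.H59R3.M17
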