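import Pool.Agent.H59R3.M17.Twist2

set_option autoImplicit false

open Real Set Filter Topology MeasureTheory UpperHalfPlane

namespace Pool.Agent.H59R3.M17

variable {f : ℍ → ℂ} {lam : ℝ} {a : ℕ → ℂ} {q : ℕ} [NeZero q]

/-- twisted coefficients -/
noncomputable def cc (a : ℕ → ℂ) (χ : DirichletCharacter ℂ q) (n : ℕ) : ℂ := co a n * χ n

/-- weighted Whittaker function -/
noncomputable def V (f : ℍ → ℂ) (ε : ℕ) (t : ℝ) : ℂ := (t : ℂ) ^ ε * A f 1 t

lemma cc_zero (a : ℕ → ℂ) (χ : DirichletCharacter ℂ q) : cc a χ 0 = 0 := by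
  simp [cc, co]

lemma OddMaass.cc_bound (h : OddMaass f lam a) :
    ∃ K, 0 ≤ K ∧ ∀ (χ : DirichletCharacter ℂ q) (n : ℕ), ‖cc a χ n‖ ≤ K := by
  obtain ⟨K, hK0, hK⟩ := h.co_bound
  refine ⟨K, hK0, fun χ n => ?_⟩
  rw [cc, norm_mul]
  calc ‖co a n‖ * ‖χ n‖ ≤ K * 1 := by
        gcongr
        · exact hK n
        · exact χ.norm_le_one _
    _ = K := mul_one K

lemma OddMaass.V_bound (h : OddMaass f lam a) (ε : ℕ) (hε : ε ≤ 1) :
    ∃ C, 0 ≤ C ∧ ∀ t, 0 < t → ‖V f ε t‖ ≤ C * exp (-(t / 16)) := by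
  obtain ⟨C, hC0, hC⟩ := h.W_decay
  refine ⟨16 * C, by positivity, fun t ht => ?_⟩
  have h1 : t ^ ε ≤ 1 + t := by
    interval_cases ε
    · simp; linarith
    · simp
  have h2 : 1 + t ≤ 16 * exp (t / 16) := by
    have := Real.add_one_le_exp (t / 16)
    linarith
  have h3 : exp (-(t / 8)) = exp (-(t / 16)) * exp (-(t / 16)) := by
    rw [← exp_add]; congr 1; ring
  have h4 : exp (t / 16) * exp (-(t / 16)) = 1 := by
    rw [← exp_add]; simp
  rw [V, norm_mul, norm_pow, Complex.norm_real, Real.norm_of_nonneg ht.le]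
  calc t ^ ε * ‖A f 1 t‖ ≤ (16 * exp (t / 16)) * (C * exp (-(t / 8))) := by
        gcongr
        · exact h1.trans h2
        · exact hC t ht
    _ = 16 * C * (exp (t / 16) * exp (-(t / 16))) * exp (-(t / 16)) := by rw [h3]; ring
    _ = _ := by rw [h4]; ring

lemma OddMaass.A_cont (h : OddMaass f lam a) : ContinuousOn (A f 1) (Ioi 0) := by
  obtain ⟨W1, hS⟩ := h.solC
  exact hS.continuousOn

lemma OddMaass.V_cont (h : OddMaass f lam a) (ε : ℕ) : ContinuousOn (V f ε) (Ioi 0) := by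
  unfold V
  exact (by fun_prop : ContinuousOn (fun t : ℝ => (t : ℂ) ^ ε) (Ioi 0)).mul h.A_cont

lemma mellin_V (f : ℍ → ℂ) (ε : ℕ) (w : ℂ) : mellin (V f ε) w = mellin (A f 1) (w + ε) := by
  rw [← mellin_cpow_smul]
  congr 1
  funext t
  rw [V, Complex.cpow_natCast, smul_eq_mul]

/-- odd characters: functional equation -/
lemma OddMaass.fe_odd (h : OddMaass f lam a) {χ : DirichletCharacter ℂ q}
    (hχ : χ.IsPrimitive) (hχ2 : χ ^ 2 = 1) (hodd : χ (-1) = -1) {y : ℝ} (hy : 0 < y) :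
    ser (cc a χ) (V f 0) y = - ser (cc a χ) (V f 0) (1 / ((q:ℝ) ^ 2 * y)) := by
  have hq0 : 0 < q := Nat.pos_of_ne_zero (NeZero.ne q)
  have hqr : (0:ℝ) < q := by exact_mod_cast hq0
  have key : ∀ y : ℝ, 0 < y → G f χ 0 y = 2 * tau χ * ser (cc a χ) (V f 0) y := by
    intro y hy
    have h1 := h.G_expansion hχ hχ2 0 hy
    rw [ser, ← tsum_mul_left, ← h1.tsum_eq]
    congr 1
    funext n
    rw [hodd, e_zero_right, e_zero_right, cc, V]
    ring
  have h1 := G_transf h.modular hχ2 0 hy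
  have h2 : y / ((q:ℝ) ^ 2 * ((0:ℝ) ^ 2 + y ^ 2)) = 1 / ((q:ℝ) ^ 2 * y) := by
    field_simp
    ring
  rw [h2, zero_div, neg_zero, hodd, key y hy, key _ (by positivity)] at h1
  have h3 : (2 * tau χ) ≠ 0 := mul_ne_zero two_ne_zero (tau_ne_zero hχ)
  apply mul_left_cancel₀ h3
  rw [h1]
  ring

/-- `x`-derivative of the twisted form on the imaginary axis for even characters -/
lemma OddMaass.G_deriv (h : OddMaass f lam a) {χ : DirichletCharacter ℂ q}
    (hχ : χ.IsPrimitive) (hχ2 : χ ^ 2 = 1) (heven : χ (-1) = 1) {y : ℝ} (hy : 0 < y) :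
    HasDerivAt (fun x => G f χ x y) (4 * π * Complex.I * tau χ * (ser (cc a χ) (V f 1) y / y)) 0 := by
  obtain ⟨K, hK0, hK⟩ := h.cc_bound (q := q)
  obtain ⟨C, hC0, hC⟩ := h.V_bound 1 le_rfl
  have hyc : (y : ℂ) ≠ 0 := by exact_mod_cast hy.ne'
  have hsum := ser_summable (hK χ) (cc_zero a χ) hK0 hC0 hC hy
  set g : ℕ → ℝ → ℂ := fun n x => tau χ * (co a n * χ n * A f 1 (n * y) * (e n x - χ (-1) * e (-n) x)) with hg
  set g' : ℕ → ℝ → ℂ := fun n x => tau χ * (co a n * χ n * A f 1 (n * y) *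
    (2 * π * Complex.I * (n:ℤ) * e n x - 2 * π * Complex.I * ((-n:ℤ):ℂ) * e (-n) x)) with hg'
  have h1 : (fun x => G f χ x y) = fun x => ∑' n, g n x := by
    funext x
    exact (h.G_expansion hχ hχ2 x hy).tsum_eq.symm
  rw [h1]
  have hV : ∀ n : ℕ, cc a χ n * V f 1 (n * y) = co a n * χ n * A f 1 (n * y) * (n * y) := by
    intro n
    rw [cc, V]
    push_cast
    ring
  have h2 := hasDerivAt_tsum (𝕜 := ℝ) (F := ℂ) (g := g) (g' := g')
    (u := fun n => ‖tau χ‖ * (4 * π / y) * ‖cc a χ n * V f 1 (n * y)‖)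
    (hsum.norm.mul_left _) ?_ ?_ (y₀ := 0) ?_ 0
  · refine h2.congr_deriv ?_
    rw [ser, ← tsum_div_const, ← tsum_mul_left]
    congr 1
    funext n
    simp only [hg', e_zero_right]
    rw [hV n]
    push_cast
    field_simp
    ring
  · intro n x
    simp only [hg, hg', heven, one_mul]
    exact (((e_hasDerivAt n x).sub (e_hasDerivAt (-n) x)).const_mul _).const_mul _
  · intro n x
    simp only [hg']
    rw [hV n, norm_mul, norm_mul, norm_mul (co a n * χ n * A f 1 (n * y)) ((n : ℂ) * y)]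
    have h3 : ‖(2 * π * Complex.I * (n:ℤ) * e n x - 2 * π * Complex.I * ((-n:ℤ):ℂ) * e (-n) x : ℂ)‖ ≤
        4 * π * n := by
      have h4 : (2 * π * Complex.I * (n:ℤ) * e n x - 2 * π * Complex.I * ((-n:ℤ):ℂ) * e (-n) x : ℂ) =
        (2 * π * Complex.I * n) * (e n x + e (-n) x) := by push_cast; ring
      rw [h4, norm_mul, norm_mul, norm_mul, norm_mul, Complex.norm_I, Complex.norm_natCast, Complex.norm_real,
        Real.norm_of_nonneg pi_pos.le, Complex.norm_ofNat]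
      have h5 : ‖e n x + e (-n) x‖ ≤ 2 := by
        refine (norm_add_le _ _).trans ?_
        rw [norm_e, norm_e]; norm_num
      calc 2 * π * 1 * n * ‖e n x + e (-n) x‖ ≤ 2 * π * 1 * n * 2 := by gcongr
        _ = _ := by ring
    have h6 : ‖((n : ℂ) * y : ℂ)‖ = n * y := by
      rw [norm_mul, Complex.norm_natCast, Complex.norm_real, Real.norm_of_nonneg hy.le]
    rw [h6]
    calc ‖tau χ‖ * (‖co a n * χ n * A f 1 (n * y)‖ * ‖(2 * π * Complex.I * (n:ℤ) * e n x - 2 * π * Complex.I * ((-n:ℤ):ℂ) * e (-n) x : ℂ)‖)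
        ≤ ‖tau χ‖ * (‖co a n * χ n * A f 1 (n * y)‖ * (4 * π * n)) := by gcongr
      _ = _ := by field_simp
  · exact (h.G_expansion hχ hχ2 0 hy).summable

/-- even characters: functional equation -/
lemma OddMaass.fe_even (h : OddMaass f lam a) {χ : DirichletCharacter ℂ q}
    (hχ : χ.IsPrimitive) (hχ2 : χ ^ 2 = 1) (heven : χ (-1) = 1) {y : ℝ} (hy : 0 < y) :
    ser (cc a χ) (V f 1) y = - ser (cc a χ) (V f 1) (1 / ((q:ℝ) ^ 2 * y)) := by
  have hq0 : 0 < q := Nat.pos_of_ne_zero (NeZero.ne q)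
  have hqr : (0:ℝ) < q := by exact_mod_cast hq0
  set y' : ℝ := 1 / ((q:ℝ) ^ 2 * y) with hy'
  have hy'0 : 0 < y' := by positivity
  have hopen : IsOpen {v : ℝ × ℝ | 0 < v.2} := isOpen_lt continuous_const continuous_snd
  -- joint differentiability
  have hdiff : DifferentiableAt ℝ (fun v : ℝ × ℝ => G f χ v.1 v.2) (0, y') := by
    unfold G
    apply DifferentiableAt.fun_sum
    intro u _
    apply DifferentiableAt.const_mul
    have h1 : DifferentiableAt ℝ (fun v : ℝ × ℝ => f (pt v.1 v.2)) ((((u : ZMod q).val : ℕ) : ℝ) / q + 0, y') :=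
      (h.smooth.differentiableOn (by norm_num)).differentiableAt (hopen.mem_nhds hy'0)
    exact h1.comp (f := fun v : ℝ × ℝ => ((((u : ZMod q).val : ℕ) : ℝ) / q + v.1, v.2)) ((0:ℝ), y')
      (by fun_prop)
  obtain ⟨L, hL⟩ := hdiff
  have hL1 : L (1, 0) = 4 * π * Complex.I * tau χ * (ser (cc a χ) (V f 1) y' / y') := by
    have hc : HasDerivAt (fun t : ℝ => (t, y')) ((1 : ℝ), (0 : ℝ)) 0 :=
      (hasDerivAt_id 0).prodMk (hasDerivAt_const 0 y')
    have h1 := hL.comp_hasDerivAt (0:ℝ) hc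
    exact h1.unique (h.G_deriv hχ hχ2 heven hy'0)
  -- the curve
  have hD : HasDerivAt (fun x : ℝ => (q:ℝ) ^ 2 * (x ^ 2 + y ^ 2)) 0 0 := by
    have := (((hasDerivAt_id (0:ℝ)).fun_pow 2).add_const (y ^ 2)).const_mul ((q:ℝ) ^ 2)
    refine this.congr_deriv ?_
    simp
  have hD0 : (q:ℝ) ^ 2 * ((0:ℝ) ^ 2 + y ^ 2) ≠ 0 := by positivity
  have hα : HasDerivAt (fun x : ℝ => -(x / ((q:ℝ) ^ 2 * (x ^ 2 + y ^ 2)))) (-(1 / ((q:ℝ) ^ 2 * y ^ 2))) 0 := by
    have := ((hasDerivAt_id (0:ℝ)).fun_div hD hD0).fun_neg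
    refine this.congr_deriv ?_
    simp only [id, mul_zero, sub_zero, one_mul]
    field_simp
    ring
  have hβ : HasDerivAt (fun x : ℝ => y / ((q:ℝ) ^ 2 * (x ^ 2 + y ^ 2))) 0 0 := by
    have := (hasDerivAt_const (0:ℝ) y).fun_div hD hD0
    refine this.congr_deriv ?_
    simp
  have hpt : ((fun x : ℝ => (-(x / ((q:ℝ) ^ 2 * (x ^ 2 + y ^ 2))), y / ((q:ℝ) ^ 2 * (x ^ 2 + y ^ 2)))) 0) = (0, y') := by
    simp only [zero_div, neg_zero, hy']
    congr 1
    field_simp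
    ring
  have hcomp : HasDerivAt (fun x : ℝ => G f χ (-(x / ((q:ℝ) ^ 2 * (x ^ 2 + y ^ 2)))) (y / ((q:ℝ) ^ 2 * (x ^ 2 + y ^ 2))))
      (L (-(1 / ((q:ℝ) ^ 2 * y ^ 2)), 0)) 0 := by
    rw [← hpt] at hL
    exact hL.comp_hasDerivAt (0:ℝ) (hα.prodMk hβ)
  have heq : (fun x => G f χ x y) = fun x : ℝ => G f χ (-(x / ((q:ℝ) ^ 2 * (x ^ 2 + y ^ 2)))) (y / ((q:ℝ) ^ 2 * (x ^ 2 + y ^ 2))) := by
    funext x
    rw [G_transf h.modular hχ2 x hy, heven, one_mul]
  have h1 := h.G_deriv hχ hχ2 heven hy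
  rw [heq] at h1
  have h2 := h1.unique hcomp
  have h3 : L (-(1 / ((q:ℝ) ^ 2 * y ^ 2)), 0) = -(1 / ((q:ℝ) ^ 2 * y ^ 2)) • L (1, 0) := by
    rw [← map_smul]
    congr 1
    simp
  rw [h3, hL1] at h2
  have h4 : (4 * π * Complex.I * tau χ : ℂ) ≠ 0 := by
    have : (π : ℂ) ≠ 0 := by exact_mod_cast Real.pi_ne_zero
    exact mul_ne_zero (mul_ne_zero (mul_ne_zero (by norm_num) this) Complex.I_ne_zero) (tau_ne_zero hχ)
  apply mul_left_cancel₀ h4
  have hyc : (y : ℂ) ≠ 0 := by exact_mod_cast hy.ne'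
  have hy'c : (y' : ℂ) ≠ 0 := by exact_mod_cast hy'0.ne'
  have hqc : (q : ℂ) ≠ 0 := by exact_mod_cast hqr.ne'
  have h5 : (y' : ℂ) = 1 / ((q:ℂ) ^ 2 * y) := by rw [hy']; push_cast; rfl
  rw [Complex.real_smul] at h2
  push_cast at h2
  have h6 : 4 * π * Complex.I * tau χ * ser (cc a χ) (V f 1) y =
      (4 * π * Complex.I * tau χ * (ser (cc a χ) (V f 1) y / y)) * y := by
    field_simp
  rw [h6, h2]
  rw [h5]
  field_simp

end Pool.Agent.H59R3.M17
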